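import Pool.Agent.R925.L.Loc2
import Pool.Agent.R925.X.Geo

/-! Twists by rotations: transfer to Galois groups of function fields, abstract form. -/

set_option autoImplicit false
set_option linter.all false

open Polynomial FF

namespace Pool.Agent.R925.L

open Pool.Agent.Y157.PS Pool.Agent.Y31.PS Pool.Agent.R925.Q Pool.Agent.R925.X

/-- the conclusion of the theorems: one fixed place above `x = 0, ∞` or `x ∈ B` -/
def Concl {k κ R M : Type} [Field k] [Field κ] [Field R] [Field M] [Algebra k κ] [Algebra κ R]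
    [Algebra R M] [Algebra κ M] (P : (κ ≃ₐ[k] κ) → Prop) (x : R) (B : Finset κ)
    (s : (κ ≃ₐ[k] κ) →* RingAut M) : Prop :=
  ∃ W : Place κ M, W.ord (algebraMap R M x) ≠ 0 ∧ (∀ σ : κ ≃ₐ[k] κ, P σ → Fixes W (s σ)) ∧
    ∀ W' : Place κ M, (W'.ord (algebraMap R M x) ≠ 0 ∨
        ∃ e ∈ B, 0 < W'.ord (algebraMap R M x - algebraMap κ M e)) →
      (∀ σ : κ ≃ₐ[k] κ, P σ → Fixes W' (s σ)) → W' = W

/-- the theorem for all covers branched at the roots of `f` -/
def Key (ℓ : ℕ) (k κ : Type) [Field k] [Field κ] [Algebra k κ] (f : k[X]) (ρ δ : κ)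
    (P : (κ ≃ₐ[k] κ) → Prop) : Prop :=
  ∀ (R M : Type) [Field R] [Field M] [Algebra κ R] [Algebra R M] [Algebra κ M]
    [IsScalarTower κ R M] (x : R) (B : Finset κ) (Y : M), (∀ θ, θ ∈ B ↔ aeval θ f = 0) →
    Cov ℓ κ R M x B Y → ∀ s : (κ ≃ₐ[k] κ) →* RingAut M, Sec2 k κ R M x Y ρ δ s →
    Concl P x B s

theorem RatF_scale {κ R : Type} [Field κ] [Field R] [Algebra κ R] {x : R} (h : RatF κ x) {ρ : κ}
    (hρ : ρ ≠ 0) : RatF κ (algebraMap κ R ρ * x) := by
  constructor
  · intro h1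
    apply h.trans
    have h2 : x = algebraMap κ R ρ⁻¹ * (algebraMap κ R ρ * x) := by
      rw [← mul_assoc, ← map_mul, inv_mul_cancel₀ hρ, map_one, one_mul]
    rw [h2]
    exact (isAlgebraic_algebraMap _).mul h1
  · rw [eq_top_iff, ← h.gen, IntermediateField.adjoin_le_iff, Set.singleton_subset_iff]
    have h2 : x = algebraMap κ R ρ⁻¹ * (algebraMap κ R ρ * x) := by
      rw [← mul_assoc, ← map_mul, inv_mul_cancel₀ hρ, map_one, one_mul]
    have h3 : algebraMap κ R ρ⁻¹ * (algebraMap κ R ρ * x) ∈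
        IntermediateField.adjoin κ {algebraMap κ R ρ * x} :=
      mul_mem (IntermediateField.algebraMap_mem _ _) (IntermediateField.mem_adjoin_simple_self _ _)
    rw [← h2] at h3
    exact h3

section absM

variable {k κ R F M N : Type} [Field k] [CharZero k]
    [Field κ] [Algebra k κ] [IsAlgClosure k κ]
    [Field R] [Field F] [Field M] [Field N] [Algebra κ R] [Algebra R M] [Algebra κ M]
    [IsScalarTower κ R M] [Algebra F N]

/-- the abstract form: `M` is the covering field and `N` is isomorphic to `M` -/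
theorem absR {ℓ : ℕ} [Fact ℓ.Prime] {P : (κ ≃ₐ[k] κ) → Prop}
    (x' : R) (B : Finset κ) (Y' : M) {ρ δ : κ} (hρ0 : ρ ≠ 0) (hδ0 : δ ≠ 0)
    (hCov : Cov ℓ κ R M x' B Y')
    (hkey : ∀ s : (κ ≃ₐ[k] κ) →* RingAut M, Sec2 k κ R M x' Y' ρ δ s → Concl P x' B s)
    (eqv : M ≃+* N) (x y : F)
    (hx : eqv (algebraMap R M x') = eqv (algebraMap κ M ρ) * algebraMap F N x)
    (hy : eqv Y' = eqv (algebraMap κ M δ) * algebraMap F N y)
    (S : (κ ≃ₐ[k] κ) →* (N ≃ₐ[F] N))
    (hcont : ∀ z : N, ∃ E : IntermediateField k κ, FiniteDimensional k E ∧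
      ∀ σ ∈ E.fixingSubgroup, S σ z = z)
    (hcompat : ∀ σ c, S σ (eqv (algebraMap κ M c)) = eqv (algebraMap κ M (σ c))) :
    ∃ W : ValuationSubring N,
      ((∀ c : κ, eqv (algebraMap κ M c) ∈ W) ∧
       (∀ z ∈ W, ∃ c : κ, z - eqv (algebraMap κ M c) ∈ W.nonunits) ∧
       (algebraMap F N x ∈ W.nonunits ∨ (algebraMap F N x)⁻¹ ∈ W.nonunits) ∧
       ∀ σ : κ ≃ₐ[k] κ, P σ → ∀ z, S σ z ∈ W ↔ z ∈ W) ∧
      ∀ W' : ValuationSubring N, (∀ c : κ, eqv (algebraMap κ M c) ∈ W') →
        (algebraMap F N x ∈ W'.nonunits ∨ (algebraMap F N x)⁻¹ ∈ W'.nonunits ∨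
          ∃ e ∈ B, eqv (algebraMap R M x') - eqv (algebraMap κ M e) ∈ W'.nonunits) →
        (∀ σ : κ ≃ₐ[k] κ, P σ → ∀ z, S σ z ∈ W' ↔ z ∈ W') → W' = W := by
  classical
  have hkb : IsAlgClosed κ := IsAlgClosure.isAlgClosed k
  have hch : CharZero κ := charZero_of_injective_algebraMap (algebraMap k κ).injective
  let s' : (κ ≃ₐ[k] κ) →* RingAut M := conjSec eqv S
  have hs' : ∀ σ z, eqv (s' σ z) = S σ (eqv z) := fun σ z => conjSec_apply eqv S σ z
  have hconst : ∀ σ c, s' σ (algebraMap κ M c) = algebraMap κ M (σ c) := by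
    intro σ c
    apply eqv.injective
    rw [hs', hcompat]
  have hbase : ∀ σ (z : F) (w : M), eqv w = algebraMap F N z → s' σ w = w := by
    intro σ z w hw
    apply eqv.injective
    rw [hs', hw]
    exact (S σ).commutes z
  have hscale : ∀ (c : κ) (_ : c ≠ 0) (w : M) (z : F),
      eqv w = eqv (algebraMap κ M c) * algebraMap F N z → ∀ σ,
      s' σ w = algebraMap κ M (σ c / c) * w := by
    intro c hc w z hw σ
    have h1 : w = algebraMap κ M c * eqv.symm (algebraMap F N z) := by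
      apply eqv.injective
      rw [hw, map_mul, eqv.apply_symm_apply]
    have h2 : algebraMap κ M (σ c / c) * w =
        algebraMap κ M (σ c) * eqv.symm (algebraMap F N z) := by
      rw [h1, ← mul_assoc, ← map_mul, div_mul_cancel₀ _ hc]
    rw [h2]
    conv_lhs => rw [h1]
    rw [map_mul, hconst, hbase σ z _ (eqv.apply_symm_apply _)]
  have hSec : Sec2 k κ R M x' Y' ρ δ s' := by
    refine ⟨hconst, hscale ρ hρ0 _ x hx, hscale δ hδ0 _ y hy, fun z => ?_⟩
    obtain ⟨E, hE, hE'⟩ := hcont (eqv z)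
    refine ⟨E, hE, fun σ hσ => eqv.injective ?_⟩
    rw [hs', hE' σ hσ]
  have htr := trX hCov
  have hX0 : algebraMap R M x' ≠ 0 := by
    intro h1
    rw [h1] at htr
    exact htr isAlgebraic_zero
  obtain ⟨Q, hQx, hQfix, hQun⟩ := hkey s' hSec
  have hmem : ∀ z : N, z ∈ Q.O.comap (eqv.symm : N →+* M) ↔ eqv.symm z ∈ Q.O := fun z => Iff.rfl
  -- the elements `x`
  set ξ : M := eqv.symm (algebraMap F N x) with hξ
  have hξe : algebraMap R M x' = algebraMap κ M ρ * ξ := by
    apply eqv.injective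
    rw [hx, map_mul, hξ, eqv.apply_symm_apply]
  have hξ0 : ξ ≠ 0 := by
    intro h
    apply hX0
    rw [hξe, h, mul_zero]
  have hord : ∀ Q' : Place κ M, Q'.ord (algebraMap R M x') = Q'.ord ξ := by
    intro Q'
    rw [hξe, Q'.ord_mul (by rw [_root_.map_ne_zero]; exact hρ0) hξ0, Q'.ord_const hρ0, zero_add]
  have hxN0 : algebraMap F N x ≠ 0 := by
    intro h
    apply hξ0
    rw [hξ, h, map_zero]
  refine ⟨Q.O.comap (eqv.symm : N →+* M), ⟨?_, ?_, ?_, ?_⟩, ?_⟩
  · intro c
    rw [hmem, eqv.symm_apply_apply, Place.mem_O]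
    exact Q.reg_const c
  · intro z hz
    rw [hmem] at hz
    by_cases hz0 : z = 0
    · refine ⟨0, ?_⟩
      rw [comap_non, hz0, map_zero, map_zero, sub_zero, map_zero]
      exact nonunits_iff.2 ⟨zero_mem _, Or.inl rfl⟩
    have hz0' : eqv.symm z ≠ 0 := (map_ne_zero_iff _ eqv.symm.injective).2 hz0
    rw [O_iff Q hz0'] at hz
    obtain ⟨c, hc⟩ := Pool.Agent.Y536.PS.res_const κ M (algebraMap R M x') hCov.alg Q _ hz
    refine ⟨c, ?_⟩
    rw [comap_non, map_sub, eqv.symm_apply_apply]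
    rcases hc with hc | hc
    · rw [hc, sub_self]
      exact nonunits_iff.2 ⟨zero_mem _, Or.inl rfl⟩
    · have h0 : eqv.symm z - algebraMap κ M c ≠ 0 := by
        intro h0
        rw [h0, Q.ord_zero] at hc
        exact lt_irrefl _ hc
      exact (O_non_iff Q h0).2 hc
  · rw [hord] at hQx
    rcases lt_or_gt_of_ne hQx with h2 | h2
    · right
      rw [comap_non, map_inv₀, ← hξ]
      refine (O_non_iff Q (inv_ne_zero hξ0)).2 ?_
      rw [Q.ord_inv]
      omega
    · left
      rw [comap_non, ← hξ]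
      exact (O_non_iff Q hξ0).2 h2
  · intro σ hσ z
    rw [hmem, hmem]
    have h1 : eqv.symm (S σ z) = s' σ (eqv.symm z) := by
      apply eqv.injective
      rw [hs', eqv.apply_symm_apply, eqv.apply_symm_apply]
    rw [h1]
    exact O_of_fixes Q (s' σ) (hQfix σ hσ) _
  · rintro W' hW'1 hW'2 hW'3
    have hmem' : ∀ z : M, z ∈ W'.comap (eqv : M →+* N) ↔ eqv z ∈ W' := fun z => Iff.rfl
    have hnon' : ∀ z : M, z ∈ (W'.comap (eqv : M →+* N)).nonunits ↔ eqv z ∈ W'.nonunits :=
      fun z => comap_non eqv W' z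
    have hne : ∀ e : κ, algebraMap R M x' - algebraMap κ M e ≠ 0 := by
      intro e h0
      apply htr
      rw [sub_eq_zero.1 h0]
      exact isAlgebraic_algebraMap _
    have hex : ∃ w : M, w ≠ 0 ∧ w ∈ (W'.comap (eqv : M →+* N)).nonunits := by
      rcases hW'2 with h | h | ⟨e, he, h⟩
      · refine ⟨ξ, hξ0, ?_⟩
        rw [hnon', hξ, eqv.apply_symm_apply]
        exact h
      · refine ⟨ξ⁻¹, inv_ne_zero hξ0, ?_⟩
        rw [hnon', map_inv₀, hξ, eqv.apply_symm_apply]
        exact h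
      · refine ⟨algebraMap R M x' - algebraMap κ M e, hne e, ?_⟩
        rw [hnon', map_sub]
        exact h
    have htop : W'.comap (eqv : M →+* N) ≠ ⊤ := by
      intro h0
      obtain ⟨w, hw0, hw⟩ := hex
      rw [h0, nonunits_iff] at hw
      rcases hw.2 with h2 | h2
      · exact hw0 h2
      · exact h2 trivial
    obtain ⟨Q', hQ', -⟩ := hCov.loc _ (fun c => (hmem' _).2 (hW'1 c)) htop
    have h2 : Q' = Q := by
      refine hQun Q' ?_ fun σ hσ => ?_
      · rcases hW'2 with h | h | ⟨e, he, h⟩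
        · left
          rw [hord]
          have h3 : ξ ∈ Q'.O.nonunits := by
            rw [hQ', hnon', hξ, eqv.apply_symm_apply]
            exact h
          have := (O_non_iff Q' hξ0).1 h3
          omega
        · left
          rw [hord]
          have h3 : ξ⁻¹ ∈ Q'.O.nonunits := by
            rw [hQ', hnon', map_inv₀, hξ, eqv.apply_symm_apply]
            exact h
          have h4 := (O_non_iff Q' (inv_ne_zero hξ0)).1 h3
          rw [Q'.ord_inv] at h4
          omega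
        · right
          refine ⟨e, he, ?_⟩
          rw [← O_non_iff Q' (hne e), hQ', hnon', map_sub]
          exact h
      · refine fixes_of_O Q' (s' σ) (σ : κ ≃+* κ) (fun c => hconst σ c) fun z => ?_
        rw [hQ', hmem', hmem', hs']
        exact hW'3 σ hσ _
    ext z
    rw [hmem, ← h2, hQ', hmem', eqv.apply_symm_apply]

end absM

end Pool.Agent.R925.L
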