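import Pool.Agent.Y183.PS.Fin
import Pool.Agent.Y157.PS.Stm

/-! Finite extensions of discrete valuation rings. -/

set_option autoImplicit false
set_option linter.all false

namespace Pool.Agent.R925.L

open Pool.Agent.H639R3

/-- the valuation rings of a finite extension above a discrete valuation ring -/
theorem dvr_ext {A k E : Type} [CommRing A] [IsDomain A] [IsDiscreteValuationRing A] [Field k]
    [Field E] [Algebra A k] [IsFractionRing A k] [Algebra k E] [Algebra A E] [IsScalarTower A k E]
    [CharZero k] [FiniteDimensional k E] [Finite (IsLocalRing.ResidueField A)]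
    (O : ValuationSubring E) (hA : ∀ a : A, algebraMap A E a ∈ O)
    (hn : ∀ a ∈ IsLocalRing.maximalIdeal A, O.valuation (algebraMap A E a) < 1) :
    IsDiscreteValuationRing O ∧ Finite (IsLocalRing.ResidueField O) := by
  obtain ⟨ϖ, hϖ⟩ := IsDiscreteValuationRing.exists_irreducible A
  have hinjE : Function.Injective (algebraMap A E) := by
    rw [IsScalarTower.algebraMap_eq A k E]
    exact (algebraMap k E).injective.comp (IsFractionRing.injective A k)
  have hϖ0 : algebraMap A E ϖ ≠ 0 := by
    intro h
    exact hϖ.ne_zero (hinjE (by rw [h, map_zero]))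
  have hϖm : ϖ ∈ IsLocalRing.maximalIdeal A := hϖ.not_isUnit
  have hne : O ≠ ⊤ := by
    rintro rfl
    have h1 := hn ϖ hϖm
    rw [val_lt_one_iff] at h1
    rcases h1 with h1 | h1
    · exact hϖ0 h1
    · exact h1 trivial
  let B := integralClosure A E
  have hD : IsDedekindDomain B := integralClosure.isDedekindDomain A k (L := E)
  have hFr : IsFractionRing B E := integralClosure.isFractionRing_of_finite_extension k E
  have hfin : Module.Finite A B := IsIntegralClosure.finite A k E B
  have hBO : ∀ b : B, algebraMap B E b ∈ O := fun b => integral_mem O hA _ b.2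
  let P : Ideal B := cent O hBO
  have hP : P.IsPrime := cent_isPrime O hBO
  have hPb : P ≠ ⊥ := cent_ne_bot O hBO hne
  have hPmax : P.IsMaximal := hP.isMaximal hPb
  have hmemP : ∀ b : B, b ∈ P ↔ O.valuation (b : E) < 1 := fun b => mem_cent O hBO b
  letI alg : Algebra B O := ((algebraMap B E).codRestrict O.toSubring hBO).toAlgebra
  have hcoe : ∀ b : B, ((algebraMap B O b : O) : E) = (b : E) := fun b => rfl
  have hloc : IsLocalization.AtPrime O P := by
    refine ⟨fun y => ?_, fun z => ?_, fun {x y} h => ?_⟩
    · have h1 : O.valuation ((y : B) : E) = 1 := val_eq_one O hBO y y.2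
      have h2 : (((y : B) : E))⁻¹ ∈ O := by
        rw [← O.valuation_le_one_iff, map_inv₀, h1, inv_one]
      have h3 : ((y : B) : E) ≠ 0 := by
        intro h0
        rw [h0, map_zero] at h1
        exact zero_ne_one h1
      refine IsUnit.of_mul_eq_one (⟨_, h2⟩ : O) (Subtype.ext ?_)
      show ((y : B) : E) * ((y : B) : E)⁻¹ = 1
      exact mul_inv_cancel₀ h3
    · obtain ⟨a, b, hb, hab⟩ := (mem_iff_of_cent O hBO hne (z : E)).1 z.2
      exact ⟨(a, ⟨b, hb⟩), Subtype.ext hab⟩
    · refine ⟨1, ?_⟩
      have h1 : (x : E) = y := congrArg (fun w : O => (w : E)) h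
      rw [Subtype.ext h1]
  refine ⟨IsLocalization.AtPrime.isDiscreteValuationRing_of_dedekind_domain B hPb O, ?_⟩
  -- the residue field
  let f : A →+* O := (algebraMap A E).codRestrict O.toSubring hA
  have hf : IsLocalHom f := by
    refine ⟨fun a ha => ?_⟩
    by_contra hna
    have h1 := hn a ((IsLocalRing.mem_maximalIdeal a).2 hna)
    obtain ⟨u, hu⟩ := ha
    have h2 : O.valuation ((u : O) : E) = 1 := (O.valuation_eq_one_iff _).1 u.isUnit
    rw [hu] at h2
    exact absurd h2 h1.ne
  letI : Algebra (IsLocalRing.ResidueField A) (IsLocalRing.ResidueField O) :=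
    (IsLocalRing.ResidueField.map f).toAlgebra
  letI : Algebra A (IsLocalRing.ResidueField O) := ((IsLocalRing.residue O).comp f).toAlgebra
  haveI : IsScalarTower A (IsLocalRing.ResidueField A) (IsLocalRing.ResidueField O) :=
    IsScalarTower.of_algebraMap_eq fun a => rfl
  let g : B →ₗ[A] IsLocalRing.ResidueField O :=
    { toFun := fun b => IsLocalRing.residue O (algebraMap B O b)
      map_add' := fun a b => by rw [map_add, map_add]
      map_smul' := fun a b => by
        rw [Algebra.smul_def, Algebra.smul_def, map_mul, map_mul]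
        rfl }
  have hg : Function.Surjective g := by
    intro z
    obtain ⟨z, rfl⟩ := IsLocalRing.residue_surjective z
    obtain ⟨a, b, hb, hab⟩ := (mem_iff_of_cent O hBO hne (z : E)).1 z.2
    obtain ⟨c, p, hp, hcp⟩ := hPmax.exists_inv hb
    refine ⟨a * c, ?_⟩
    show IsLocalRing.residue O (algebraMap B O (a * c)) = _
    have h1 : algebraMap B O a = z * algebraMap B O b := Subtype.ext hab.symm
    have h2 : algebraMap B O c * algebraMap B O b + algebraMap B O p = 1 := by
      rw [← map_mul, ← map_add, hcp, map_one]
    have h3 : IsLocalRing.residue O (algebraMap B O p) = 0 := by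
      rw [IsLocalRing.residue_eq_zero_iff, O.valuation_lt_one_iff]
      exact (hmemP p).1 hp
    have h4 : IsLocalRing.residue O (algebraMap B O c) * IsLocalRing.residue O (algebraMap B O b)
        = 1 := by
      have h5 := congrArg (IsLocalRing.residue O) h2
      rwa [map_add, h3, add_zero, map_mul, map_one] at h5
    rw [map_mul, map_mul, h1, map_mul, mul_assoc, mul_comm (IsLocalRing.residue O (algebraMap B O b)),
      h4, mul_one]
  haveI h1 : Module.Finite A (IsLocalRing.ResidueField O) := Module.Finite.of_surjective g hg
  haveI h2 : Module.Finite (IsLocalRing.ResidueField A) (IsLocalRing.ResidueField O) :=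
    Module.Finite.of_restrictScalars_finite A _ _
  exact Module.finite_of_finite (IsLocalRing.ResidueField A)

end Pool.Agent.R925.L
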