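import Pool.Agent.R925.L.Padic

/-! Twists by rotations: sections of larger fundamental groups. -/

set_option autoImplicit false
set_option linter.all false

open Polynomial FF

namespace Pool.Agent.R925.L

open Pool.Agent.Y157.PS Pool.Agent.Y31.PS Pool.Agent.R925.Q Pool.Agent.R925.X

section main

variable {A k F Ω : Type} [CommRing A] [IsDomain A] [IsDiscreteValuationRing A]
    [Finite (IsLocalRing.ResidueField A)] [Field k] [CharZero k] [Algebra A k] [IsFractionRing A k]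
    [Field F] [Field Ω] [Algebra k F] [Algebra F Ω] [Algebra k Ω] [IsScalarTower k F Ω]
    [IsAlgClosed Ω] [Algebra.IsAlgebraic F Ω]

theorem padicRM [IsAdicComplete (IsLocalRing.maximalIdeal A) A]
    {ℓ : ℕ} [Fact ℓ.Prime] (hℓ : IsUnit (ℓ : A)) {j : ℕ} (hj : 1 ≤ j) (g : A[X])
    (hlc : IsUnit g.leadingCoeff)
    (hs : ((expand A (ℓ ^ j) g).map (IsLocalRing.residue A)).Separable)
    (h3 : 3 ≤ (expand A (ℓ ^ j) g).natDegree)
    (ϖ : A) (hϖ : Irreducible ϖ) (a d : k) (α : ℤ) (hα : ¬ ((ℓ ^ j : ℕ) : ℤ) ∣ α) (t : A)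
    (ht : IsUnit t) (ha : a = algebraMap A k t * algebraMap A k ϖ ^ α) (hd0 : d ≠ 0)
    (x y : F) (hx : Transcendental k x)
    (hxy : algebraMap k F d * y ^ ℓ = aeval (algebraMap k F a * x ^ (ℓ ^ j)) (g.map (algebraMap A k)))
    (hF : IntermediateField.adjoin k {x, y} = (⊤ : IntermediateField k F))
    (M : IntermediateField F Ω) (hM : geomPro ℓ k F Ω ≤ M)
    (S : (algebraicClosure k Ω ≃ₐ[k] algebraicClosure k Ω) →* (M ≃ₐ[F] M)) (hcont : Continuous S)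
    (hcompat : ∀ σ (c : algebraicClosure k Ω) (z : M), (z : Ω) = (c : Ω) →
      (S σ z : Ω) = (σ c : Ω)) :
    ∃ W : ValuationSubring M,
      (((∀ c : k, algebraMap F M (algebraMap k F c) ∈ W) ∧
       (algebraMap F M x ∈ W.nonunits ∨ algebraMap F M x⁻¹ ∈ W.nonunits) ∧
       (∀ z : F, algebraMap F M z ∈ W →
          ∃ c : k, algebraMap F M (z - algebraMap k F c) ∈ W.nonunits)) ∧
       ∀ σ, ∀ z : M, (z : Ω) ∈ geomPro ℓ k F Ω → (S σ z ∈ W ↔ z ∈ W)) ∧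
      ∀ W' : ValuationSubring M,
        (∀ c : k, algebraMap F M (algebraMap k F c) ∈ W') →
        (algebraMap F M x ∈ W'.nonunits ∨ algebraMap F M x⁻¹ ∈ W'.nonunits ∨
          algebraMap F M (aeval (algebraMap k F a * x ^ (ℓ ^ j))
            (g.map (algebraMap A k))) ∈ W'.nonunits) →
        (∀ σ, ∀ z : M, (z : Ω) ∈ geomPro ℓ k F Ω → (S σ z ∈ W' ↔ z ∈ W')) →
        ∀ z : M, (z : Ω) ∈ geomPro ℓ k F Ω → (z ∈ W' ↔ z ∈ W) := by
  have halg := alg_eqn (Fact.out : ℓ.Prime).pos (g.map (algebraMap A k)) a d hd0 x y hxy hF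
  obtain ⟨T, hTc, hT⟩ := a_ind2 ℓ k F Ω x hx halg M hM _ S hcont
  have hTcompat : ∀ σ (c : algebraicClosure k Ω) (z : geomPro ℓ k F Ω), (z : Ω) = (c : Ω) →
      (T σ z : Ω) = (σ c : Ω) := by
    intro σ c z hz
    have h1 : (z : Ω) ∈ M := hM z.2
    rw [hT σ ⟨(z : Ω), h1⟩ z rfl]
    exact hcompat σ c _ hz
  obtain ⟨W₀, ⟨h1, h2, h3', h4⟩, hun⟩ := padicR hℓ hj g hlc hs h3 ϖ hϖ a d α hα t ht ha hd0 x y hx
    hxy hF T hTc hTcompat
  have hincl := fun (W : ValuationSubring M) z => non_incl ((IntermediateField.inclusion hM :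
        geomPro ℓ k F Ω →ₐ[F] M) : geomPro ℓ k F Ω →+* M) W z
  obtain ⟨W, ⟨⟨hW1, hW2, hW3⟩, hW4⟩, hWun⟩ := lift_thm (geomPro ℓ k F Ω) M hM S T (fun _ => True) hT
    (fun L W => (∀ c : k, algebraMap F L (algebraMap k F c) ∈ W) ∧
       (algebraMap F L x ∈ W.nonunits ∨ algebraMap F L x⁻¹ ∈ W.nonunits) ∧
       (∀ z : F, algebraMap F L z ∈ W →
          ∃ c : k, algebraMap F L (z - algebraMap k F c) ∈ W.nonunits))
    (fun L W => (∀ c : k, algebraMap F L (algebraMap k F c) ∈ W) ∧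
      (algebraMap F L x ∈ W.nonunits ∨ algebraMap F L x⁻¹ ∈ W.nonunits ∨
        algebraMap F L (aeval (algebraMap k F a * x ^ (ℓ ^ j))
          (g.map (algebraMap A k))) ∈ W.nonunits))
    (by
      rintro W ⟨a1, a2, a3⟩
      refine ⟨a1, a2.imp (hincl W _).1 (hincl W _).1, fun z hz => ?_⟩
      obtain ⟨c, hc⟩ := a3 z hz
      exact ⟨c, (hincl W _).1 hc⟩)
    (by
      rintro W ⟨a1, a2⟩
      exact ⟨a1, a2.imp (hincl W _).2 (Or.imp (hincl W _).2 (hincl W _).2)⟩)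
    ⟨W₀, ⟨⟨h1, h2, h3'⟩, fun σ _ z => h4 σ z⟩, fun W' hW' hst =>
      hun W' hW'.1 hW'.2 fun σ z => hst σ trivial z⟩
  exact ⟨W, ⟨⟨hW1, hW2, hW3⟩, fun σ z hz => hW4 σ trivial z hz⟩, fun W' b1 b2 b3 z hz =>
    hWun W' ⟨b1, b2⟩ (fun σ _ z hz => b3 σ z hz) z hz⟩

/-- the statement at a valuation ring of the algebraic closure -/
theorem numRM (V : ValuationSubring (algebraicClosure k Ω))
    (hVA : ∀ a : A, algebraMap k (algebraicClosure k Ω) (algebraMap A k a) ∈ V)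
    (hVm : ∀ a ∈ IsLocalRing.maximalIdeal A,
      algebraMap k (algebraicClosure k Ω) (algebraMap A k a) ∈ V.nonunits)
    {ℓ : ℕ} [Fact ℓ.Prime] (hℓ : IsUnit (ℓ : A)) {j : ℕ} (hj : 1 ≤ j) (g : A[X])
    (hlc : IsUnit g.leadingCoeff)
    (hs : ((expand A (ℓ ^ j) g).map (IsLocalRing.residue A)).Separable)
    (h3 : 3 ≤ (expand A (ℓ ^ j) g).natDegree)
    (ϖ : A) (hϖ : Irreducible ϖ) (a d : k) (α : ℤ) (hα : ¬ ((ℓ ^ j : ℕ) : ℤ) ∣ α) (t : A)
    (ht : IsUnit t) (ha : a = algebraMap A k t * algebraMap A k ϖ ^ α) (hd0 : d ≠ 0)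
    (x y : F) (hx : Transcendental k x)
    (hxy : algebraMap k F d * y ^ ℓ = aeval (algebraMap k F a * x ^ (ℓ ^ j)) (g.map (algebraMap A k)))
    (hF : IntermediateField.adjoin k {x, y} = (⊤ : IntermediateField k F))
    (M : IntermediateField F Ω) (hM : geomPro ℓ k F Ω ≤ M)
    (S : (algebraicClosure k Ω ≃ₐ[k] algebraicClosure k Ω) →* (M ≃ₐ[F] M)) (hcont : Continuous S)
    (hcompat : ∀ σ (c : algebraicClosure k Ω) (z : M), (z : Ω) = (c : Ω) →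
      (S σ z : Ω) = (σ c : Ω)) :
    ∃ W : ValuationSubring M,
      (((∀ c : k, algebraMap F M (algebraMap k F c) ∈ W) ∧
       (algebraMap F M x ∈ W.nonunits ∨ algebraMap F M x⁻¹ ∈ W.nonunits) ∧
       (∀ z : F, algebraMap F M z ∈ W → ∃ c : algebraicClosure k Ω,
          (∀ σ : algebraicClosure k Ω ≃ₐ[k] algebraicClosure k Ω, Dec V σ → σ c = c) ∧
          ∃ z' ∈ W.nonunits, (z' : Ω) = algebraMap F Ω z - c)) ∧
       ∀ σ : algebraicClosure k Ω ≃ₐ[k] algebraicClosure k Ω, Dec V σ →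
        ∀ z : M, (z : Ω) ∈ geomPro ℓ k F Ω → (S σ z ∈ W ↔ z ∈ W)) ∧
      ∀ W' : ValuationSubring M,
        (∀ c : k, algebraMap F M (algebraMap k F c) ∈ W') →
        (algebraMap F M x ∈ W'.nonunits ∨ algebraMap F M x⁻¹ ∈ W'.nonunits ∨
          algebraMap F M (aeval (algebraMap k F a * x ^ (ℓ ^ j))
            (g.map (algebraMap A k))) ∈ W'.nonunits) →
        (∀ σ : algebraicClosure k Ω ≃ₐ[k] algebraicClosure k Ω, Dec V σ →
          ∀ z : M, (z : Ω) ∈ geomPro ℓ k F Ω → (S σ z ∈ W' ↔ z ∈ W')) →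
        ∀ z : M, (z : Ω) ∈ geomPro ℓ k F Ω → (z ∈ W' ↔ z ∈ W) := by
  have halg := alg_eqn (Fact.out : ℓ.Prime).pos (g.map (algebraMap A k)) a d hd0 x y hxy hF
  obtain ⟨T, hTc, hT⟩ := a_ind2 ℓ k F Ω x hx halg M hM _ S hcont
  have hTcompat : ∀ σ (c : algebraicClosure k Ω) (z : geomPro ℓ k F Ω), (z : Ω) = (c : Ω) →
      (T σ z : Ω) = (σ c : Ω) := by
    intro σ c z hz
    have h1 : (z : Ω) ∈ M := hM z.2
    rw [hT σ ⟨(z : Ω), h1⟩ z rfl]
    exact hcompat σ c _ hz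
  obtain ⟨W₀, ⟨h1, h2, h3', h4⟩, hun⟩ := geoL V hVA hVm hℓ hj g hlc hs h3 ϖ hϖ a d α hα t ht ha hd0
    x y hx hxy hF T hTc hTcompat
  have hincl := fun (W : ValuationSubring M) z => non_incl ((IntermediateField.inclusion hM :
        geomPro ℓ k F Ω →ₐ[F] M) : geomPro ℓ k F Ω →+* M) W z
  obtain ⟨W, ⟨⟨hW1, hW2, hW3⟩, hW4⟩, hWun⟩ := lift_thm (geomPro ℓ k F Ω) M hM S T
    (fun σ => Dec V σ) hT
    (fun L W => (∀ c : k, algebraMap F L (algebraMap k F c) ∈ W) ∧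
       (algebraMap F L x ∈ W.nonunits ∨ algebraMap F L x⁻¹ ∈ W.nonunits) ∧
       (∀ z : F, algebraMap F L z ∈ W → ∃ c : algebraicClosure k Ω,
          (∀ σ : algebraicClosure k Ω ≃ₐ[k] algebraicClosure k Ω, Dec V σ → σ c = c) ∧
          ∃ z' ∈ W.nonunits, (z' : Ω) = algebraMap F Ω z - c))
    (fun L W => (∀ c : k, algebraMap F L (algebraMap k F c) ∈ W) ∧
      (algebraMap F L x ∈ W.nonunits ∨ algebraMap F L x⁻¹ ∈ W.nonunits ∨
        algebraMap F L (aeval (algebraMap k F a * x ^ (ℓ ^ j))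
          (g.map (algebraMap A k))) ∈ W.nonunits))
    (by
      rintro W ⟨a1, a2, a3⟩
      refine ⟨a1, a2.imp (hincl W _).1 (hincl W _).1, fun z hz => ?_⟩
      obtain ⟨c, hcfix, z', hz', hc⟩ := a3 z hz
      exact ⟨c, hcfix, _, (hincl W _).1 hz', hc⟩)
    (by
      rintro W ⟨a1, a2⟩
      exact ⟨a1, a2.imp (hincl W _).2 (Or.imp (hincl W _).2 (hincl W _).2)⟩)
    ⟨W₀, ⟨⟨h1, h3', fun z hz => by
      obtain ⟨c, z', hz', hc⟩ := h2 _ hz
      refine ⟨c, fun σ hσ => ?_, z', hz', hc⟩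
      exact res_fixed _ W₀ h1 σ (T σ) (h4 σ hσ) (fun c z hz => hTcompat σ c z hz) z c z' hz' hc⟩,
      fun σ hσ z => h4 σ hσ z⟩, fun W' hW' hst => hun W' hW'.1 hW'.2 hst⟩
  exact ⟨W, ⟨⟨hW1, hW2, hW3⟩, hW4⟩, fun W' b1 b2 b3 z hz => hWun W' ⟨b1, b2⟩ b3 z hz⟩

end main

end Pool.Agent.R925.L
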