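import Pool.Agent.R925.X.Cus

/-! Gauss valuation rings and automorphisms which multiply `x` by a root of unity. -/

set_option autoImplicit false
set_option linter.all false

open Polynomial FF

namespace Pool.Agent.R925.L

open Pool.Agent.Y157.PS Pool.Agent.Y31.PS Pool.Agent.R925.Q Pool.Agent.R925.X

section gauss

variable {κ M : Type} [Field κ] [Field M] [Algebra κ M] {V : ValuationSubring κ} {x : M}
  {O : ValuationSubring M}

/-- the inverse image of a Gauss valuation ring under an automorphism which multiplies `x` by a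
unit -/
theorem comap2 (h : Gauss V x O) (τ : M ≃+* M) (τ₀ : κ ≃+* κ)
    (hc : ∀ c, τ (algebraMap κ M c) = algebraMap κ M (τ₀ c)) {a : κ} (ha : IsU V a)
    (hx : τ x = algebraMap κ M a * x) (hV : ∀ c, τ₀ c ∈ V ↔ c ∈ V) :
    Gauss V x (O.comap (τ : M →+* M)) := by
  constructor
  · intro c
    rw [ValuationSubring.mem_comap]
    change τ (algebraMap κ M c) ∈ O ↔ _
    rw [hc, h.1, hV]
  · intro p hp hn
    have h1 : ∀ z : M, IsU (O.comap (τ : M →+* M)) z ↔ IsU O (τ z) := by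
      intro z
      unfold IsU
      rw [ValuationSubring.mem_comap, ValuationSubring.mem_comap]
      change z ≠ 0 ∧ τ z ∈ O ∧ τ z⁻¹ ∈ O ↔ _
      rw [map_inv₀, ne_eq, ne_eq, map_eq_zero_iff τ τ.injective]
    rw [h1]
    have h2 : τ (aeval x p) = aeval x ((p.map (τ₀ : κ →+* κ)).comp (C a * X)) := by
      have h3 : (τ : M →+* M) (p.eval₂ (algebraMap κ M) x) =
          p.eval₂ ((τ : M →+* M).comp (algebraMap κ M)) ((τ : M →+* M) x) := hom_eval₂ _ _ _ _
      rw [aeval_comp, map_mul, aeval_C, aeval_X, aeval_def, aeval_def, eval₂_map]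
      change (τ : M →+* M) _ = _
      rw [h3]
      change p.eval₂ _ (τ x) = _
      rw [hx]
      congr 1
      ext c
      exact hc c
    rw [h2]
    have hU : ∀ c, IsU V (τ₀ c) ↔ IsU V c := by
      intro c
      unfold IsU
      rw [← map_inv₀, hV, hV, ne_eq, ne_eq, map_eq_zero_iff τ₀ τ₀.injective]
    have haU : ∀ n : ℕ, IsU V (a ^ n) := by
      intro n
      induction n with
      | zero => rw [pow_zero]; exact isU_one
      | succ n ih => rw [pow_succ]; exact ih.mul ha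
    refine h.2 _ (fun n => ?_) ?_
    · rw [comp_C_mul_X_coeff, coeff_map]
      exact mul_mem ((hV _).2 (hp n)) (haU n).2.1
    · obtain ⟨n, hn⟩ := hn
      refine ⟨n, ?_⟩
      rw [comp_C_mul_X_coeff, coeff_map]
      exact ((hU _).2 hn).mul (haU n)

/-- an automorphism as above preserves the Gauss valuation ring if this is unique -/
theorem stable2 (h : Gauss V x O) (hun : ∀ O', Gauss V x O' → O' = O) (τ : M ≃+* M)
    (τ₀ : κ ≃+* κ) (hc : ∀ c, τ (algebraMap κ M c) = algebraMap κ M (τ₀ c)) {a : κ} (ha : IsU V a)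
    (hx : τ x = algebraMap κ M a * x) (hV : ∀ c, τ₀ c ∈ V ↔ c ∈ V) (z : M) :
    τ z ∈ O ↔ z ∈ O := by
  have h1 := hun _ (comap2 h τ τ₀ hc ha hx hV)
  conv_rhs => rw [← h1]
  rw [ValuationSubring.mem_comap]
  rfl

theorem isU_root {a : κ} {n : ℕ} (hn : 0 < n) (h : a ^ n = 1) : IsU V a :=
  isU_of_pow hn (by rw [h]; exact isU_one)

/-- automorphisms over the constants -/
theorem stable3 (h : Gauss V x O) (hun : ∀ O', Gauss V x O' → O' = O) (γ : M ≃ₐ[κ] M) {a : κ}
    {n : ℕ} (hn : 0 < n) (ha : a ^ n = 1) (hx : γ x = algebraMap κ M a * x) (z : M) :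
    γ z ∈ O ↔ z ∈ O :=
  stable2 h hun (γ : M ≃+* M) (RingEquiv.refl κ) (fun c => γ.commutes c) (isU_root hn ha) hx
    (fun c => Iff.rfl) z

end gauss

section lifts

variable {ℓ : ℕ} [Fact ℓ.Prime] {κ R M : Type} [Field κ] [IsAlgClosed κ] [CharZero κ] [Field R]
  [Field M] [Algebra κ R] [Algebra R M] [Algebra κ M] [IsScalarTower κ R M] {x : R}
  {B : Finset κ} {Y : M} {m : ℕ} {V : ValuationSubring κ} {O : ValuationSubring M}

/-- lifts of automorphisms which act trivially on the residues of the constants and multiply `x` by a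
root of unity -/
theorem exists_lift2 (hC : Cov ℓ κ R M x B Y) (hm : 0 < m)
    (hB : ∀ ζ : κ, ζ ^ m = 1 → ∀ e ∈ B, ζ * e ∈ B)
    (hO : Gauss V (algebraMap R M x) O)
    (hun : ∀ O' : ValuationSubring M, Gauss V (algebraMap R M x) O' → O' = O)
    (τ : M ≃+* M) (hτ : ∀ z, τ z ∈ O ↔ z ∈ O)
    (hc : ∀ c ∈ V, τ (algebraMap κ M c) - algebraMap κ M c ∈ O.nonunits) {ζ : κ} (hζ : ζ ^ m = 1)
    (hx : τ (algebraMap R M x) = algebraMap κ M ζ * algebraMap R M x) :
    ∃ γ : M ≃ₐ[κ] M, γ (algebraMap R M x) = algebraMap κ M ζ * algebraMap R M x ∧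
      ∀ z ∈ O, γ z - τ z ∈ O.nonunits := by
  obtain ⟨g, hg⟩ := exists_rot hC hm hB hζ
  have hgO := stable3 hO hun g hm hζ hg
  have hgN := stable_non (τ := (g : M ≃+* M)) hgO
  let τ' : M ≃+* M := τ.trans (g : M ≃+* M).symm
  have hτ' : ∀ z, g (τ' z) = τ z := fun z => g.apply_symm_apply _
  obtain ⟨γ, hγ⟩ := exists_lift a_g3 hC hO hun τ' (fun z => by rw [← hgO, hτ', hτ])
    (fun c hc' => by
      rw [← hgN, map_sub]
      show g (τ' _) - g _ ∈ _
      rw [hτ', g.commutes]
      exact hc c hc')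
    (by
      apply g.injective
      rw [hτ', hx, hg])
  let γκ : M ≃ₐ[κ] M := γ.restrictScalars κ
  refine ⟨g * γκ, ?_, fun z hz => ?_⟩
  · show g (γ (algebraMap R M x)) = _
    rw [γ.commutes, hg]
  · have h1 : (g * γκ) z - τ z = g (γ z - τ' z) := by
      rw [map_sub, hτ']; rfl
    rw [h1]
    exact (hgN _).2 (hγ z hz)

/-- an automorphism over the constants is determined by its action on the residue field -/
theorem unique_lift2 (hC : Cov ℓ κ R M x B Y) (hm : 0 < m) (hmU : IsU V (m : κ))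
    (hℓU : IsU V (ℓ : κ))
    (hO : Gauss V (algebraMap R M x) O)
    (hun : ∀ O' : ValuationSubring M, Gauss V (algebraMap R M x) O' → O' = O)
    {γ γ' : M ≃ₐ[κ] M} {ζ ζ' : κ} (hζ : ζ ^ m = 1) (hζ' : ζ' ^ m = 1)
    (hx : γ (algebraMap R M x) = algebraMap κ M ζ * algebraMap R M x)
    (hx' : γ' (algebraMap R M x) = algebraMap κ M ζ' * algebraMap R M x)
    (h : ∀ z ∈ O, γ z - γ' z ∈ O.nonunits) : γ = γ' := by
  have hxU : IsU O (algebraMap R M x) := hO.x_isU
  have hζζ : ζ = ζ' := by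
    refine root_eq hmU hm hζ hζ' ?_
    have h1 := h _ hxU.2.1
    rw [hx, hx', ← sub_mul, ← map_sub, mul_comm] at h1
    exact hO.nonunit.1 (non_of_isU_mul hxU h1)
  subst hζζ
  obtain ⟨g, hg⟩ := toR hC.rat (γ'⁻¹ * γ) (by
    show γ'.symm (γ _) = _
    rw [AlgEquiv.symm_apply_eq, hx, hx'])
  have hg' : ∀ z, γ' (g z) = γ z := by
    intro z
    rw [hg]
    exact γ'.apply_symm_apply _
  have hγ'N := stable_non (τ := (γ' : M ≃+* M)) (stable3 hO hun γ' hm hζ hx')
  have hg1 : g = 1 := by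
    refine unique_lift a_g2 hC hℓU hO hun g 1 fun z hz => ?_
    rw [← hγ'N, map_sub]
    show γ' (g z) - γ' z ∈ _
    rw [hg']
    exact h z hz
  ext z
  rw [← hg', hg1]
  rfl

end lifts

end Pool.Agent.R925.L
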