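import Pool.Agent.R925.L.Geo
import Pool.Agent.Y157.GT.All

/-! Generic twists by rotations: the group-theoretic core of the proof. -/

set_option autoImplicit false
set_option linter.all false

open Polynomial FF

namespace Pool.Agent.R925.L

open Pool.Agent.Y157.PS Pool.Agent.Y157.GT Pool.Agent.Y31.PS Pool.Agent.R925.Q Pool.Agent.R925.X

/-- the action on the algebraic closure of `κ₀(x₀)` -/
theorem stab_range {κ₀ R₀ M₀ M : Type} [Field κ₀] [Field R₀] [Field M₀] [Field M]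
    [Algebra κ₀ R₀] [Algebra R₀ M₀] [Algebra κ₀ M₀] [IsScalarTower κ₀ R₀ M₀]
    {x₀ : R₀} {ι : M₀ →+* M} (hx₀ : RatF κ₀ x₀) (halg : Algebra.IsAlgebraic R₀ M₀)
    (h33 : ∀ z : M, (∃ p : R₀[X], p ≠ 0 ∧ p.eval₂ (ι.comp (algebraMap R₀ M₀)) z = 0) →
        ∃ z₀, ι z₀ = z)
    (f : M →+* M) (hc : ∀ c : κ₀, ∃ c' : κ₀, f (ι (algebraMap κ₀ M₀ c)) = ι (algebraMap κ₀ M₀ c'))
    (a : κ₀) (hx : f (ι (algebraMap R₀ M₀ x₀)) =
      ι (algebraMap κ₀ M₀ a) * ι (algebraMap R₀ M₀ x₀)) :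
    ∀ z₀, ∃ z₁, f (ι z₀) = ι z₁ := by
  intro z₀
  have hR : ∀ t : R₀, ∃ t' : R₀, f (ι (algebraMap R₀ M₀ t)) = ι (algebraMap R₀ M₀ t') := by
    intro t
    have ht : t ∈ IntermediateField.adjoin κ₀ {x₀} := by rw [hx₀.gen]; trivial
    induction ht using IntermediateField.adjoin_induction with
    | mem y hy =>
      rw [Set.mem_singleton_iff] at hy
      subst hy
      exact ⟨algebraMap κ₀ R₀ a * y, by
        rw [hx, map_mul, map_mul, ← IsScalarTower.algebraMap_apply]⟩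
    | algebraMap c =>
      obtain ⟨c', hc'⟩ := hc c
      exact ⟨algebraMap κ₀ R₀ c', by
        rw [← IsScalarTower.algebraMap_apply, ← IsScalarTower.algebraMap_apply, hc']⟩
    | add u v _ _ hu hv =>
      obtain ⟨u', hu'⟩ := hu
      obtain ⟨v', hv'⟩ := hv
      exact ⟨u' + v', by rw [map_add, map_add, map_add, hu', hv', map_add, map_add]⟩
    | inv u _ hu =>
      obtain ⟨u', hu'⟩ := hu
      exact ⟨u'⁻¹, by rw [map_inv₀, map_inv₀, map_inv₀, hu', map_inv₀, map_inv₀]⟩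
    | mul u v _ _ hu hv =>
      obtain ⟨u', hu'⟩ := hu
      obtain ⟨v', hv'⟩ := hv
      exact ⟨u' * v', by rw [map_mul, map_mul, map_mul, hu', hv', map_mul, map_mul]⟩
  choose g hg using hR
  have hg0 : Function.Injective (ι.comp (algebraMap R₀ M₀)) := RingHom.injective _
  have hg1 : ∀ a b : R₀, ι (algebraMap R₀ M₀ a) = ι (algebraMap R₀ M₀ b) → a = b :=
    fun a b h => hg0 h
  let ψ : R₀ →+* R₀ :=
    { toFun := g
      map_one' := hg1 _ _ (by rw [← hg]; simp)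
      map_mul' := fun a b => hg1 _ _ (by
        rw [← hg, map_mul, map_mul, map_mul, map_mul, map_mul, hg, hg])
      map_zero' := hg1 _ _ (by rw [← hg]; simp)
      map_add' := fun a b => hg1 _ _ (by
        rw [← hg, map_add, map_add, map_add, map_add, map_add, hg, hg]) }
  obtain ⟨p, hp0, hpz⟩ := halg.isAlgebraic z₀
  obtain ⟨z₁, hz₁⟩ := h33 (f (ι z₀)) ⟨p.map ψ, (Polynomial.map_ne_zero_iff ψ.injective).2 hp0, by
    rw [eval₂_map]
    have h3 : f (p.eval₂ (ι.comp (algebraMap R₀ M₀)) (ι z₀)) =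
        p.eval₂ (f.comp (ι.comp (algebraMap R₀ M₀))) (f (ι z₀)) :=
      hom_eval₂ _ _ _ _
    have h4 : p.eval₂ (ι.comp (algebraMap R₀ M₀)) (ι z₀) = ι (aeval z₀ p) := by
      rw [aeval_def]
      exact (hom_eval₂ p (algebraMap R₀ M₀) ι z₀).symm
    rw [h4, hpz, map_zero, map_zero] at h3
    rw [h3]
    symm
    congr 1
    ext t
    exact (hg t)⟩
  exact ⟨z₁, hz₁.symm⟩

/-- **the core** -/
theorem genCore {ℓ j : ℕ} [Fact ℓ.Prime] {κ₀ κ R₀ R M₀ M : Type} [Field κ₀]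
    [IsAlgClosed κ₀] [CharZero κ₀] [Field κ] [IsAlgClosed κ] [CharZero κ] [Field R₀] [Field R]
    [Field M₀] [Field M] [Algebra κ₀ κ] [Algebra κ₀ R₀] [Algebra R₀ M₀] [Algebra κ₀ M₀]
    [IsScalarTower κ₀ R₀ M₀] [Algebra κ R] [Algebra R M] [Algebra κ M] [IsScalarTower κ R M]
    {x₀ : R₀} {x : R} {B₀ : Finset κ₀} {B : Finset κ} {Y₀ : M₀} {Y : M} {ι : M₀ →+* M}
    (hP : Pair ℓ κ₀ κ R₀ R M₀ M x₀ x B₀ B Y₀ Y ι)
    (h31 : ∀ γ : M ≃ₐ[R] M, (∀ z₀, γ (ι z₀) = ι z₀) → γ = 1)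
    (h32 : ∀ γ₀ : M₀ ≃ₐ[R₀] M₀, ∃ γ : M ≃ₐ[R] M, ∀ z₀, γ (ι z₀) = ι (γ₀ z₀))
    (h33 : ∀ z : M, (∃ p : R₀[X], p ≠ 0 ∧ p.eval₂ (ι.comp (algebraMap R₀ M₀)) z = 0) →
        ∃ z₀, ι z₀ = z)
    (hinf : ¬ FiniteDimensional R M)
    (hB : ∀ ζ : κ, ζ ^ (ℓ ^ j) = 1 → ∀ e ∈ B, ζ * e ∈ B) (h0 : (0 : κ) ∉ B)
    {K : Type} [Field K] [Algebra K κ] {ρ δ : κ} (hρ0 : ρ ≠ 0)
    (hrt : ∀ σ : κ ≃ₐ[K] κ, (σ ρ / ρ) ^ (ℓ ^ j) = 1)
    {s : (κ ≃ₐ[K] κ) →* RingAut M} (hs : Sec2 K κ R M x Y ρ δ s)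
    (hκ : ∀ (σ : κ ≃ₐ[K] κ) (c : κ₀), ∃ c' : κ₀,
      σ (algebraMap κ₀ κ c) = algebraMap κ₀ κ c')
    (hPT : ∀ g : κ ≃ₐ[K] κ, (∀ c : κ₀, g (algebraMap κ₀ κ c) = algebraMap κ₀ κ c) →
      g ρ = ρ → ∀ z₀, s g (ι z₀) = ι z₀)
    (τ : κ ≃ₐ[K] κ) (hτ₀ : ∀ c : κ₀, τ (algebraMap κ₀ κ c) = algebraMap κ₀ κ c)
    (hτρ : τ ρ ≠ ρ) : Concl (fun _ => True) x B s := by
  have hp := (Fact.out : ℓ.Prime).pos
  have hm : 0 < ℓ ^ j := pow_pos hp j
  have hC := hP.cov
  have hC₀ := hP.cov₀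
  set X := algebraMap R M x with hX
  have htr : Transcendental κ X := trX hC
  have hX0 : X ≠ 0 := by
    intro h
    exact htr (h ▸ isAlgebraic_zero)
  have hvar : ι (algebraMap R₀ M₀ x₀) = X := hP.var
  have halg₀ : Algebra.IsAlgebraic R₀ M₀ := by
    have := hC₀.gal
    infer_instance
  have root₀ : ∀ ξ : κ, ξ ^ (ℓ ^ j) = 1 → ∃ c : κ₀, algebraMap κ₀ κ c = ξ ∧ c ^ (ℓ ^ j) = 1 := by
    intro ξ hξ
    exact const_of_pow (κ := κ₀) (z := ξ) (a := 1) hm (by rw [hξ, map_one])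
  have smul : ∀ (σ σ' : κ ≃ₐ[K] κ) z, s (σ * σ') z = s σ (s σ' z) := by
    intro σ σ' z
    rw [map_mul]; rfl
  have sinv : ∀ (σ : κ ≃ₐ[K] κ) z, s σ⁻¹ (s σ z) = z := by
    intro σ z
    rw [← smul, inv_mul_cancel, map_one]; rfl
  have sinv' : ∀ (σ : κ ≃ₐ[K] κ) z, s σ (s σ⁻¹ z) = z := by
    intro σ z
    rw [← smul, mul_inv_cancel, map_one]; rfl
  -- `M₀` is stable
  have hst : ∀ σ z₀, ∃ z₁, s σ (ι z₀) = ι z₁ := by
    intro σ
    obtain ⟨a, ha, -⟩ := root₀ _ (hrt σ)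
    refine stab_range hC₀.rat halg₀ h33 (s σ : M →+* M) (fun c => ?_) a ?_
    · obtain ⟨c', hc'⟩ := hκ σ c
      refine ⟨c', ?_⟩
      rw [hP.const, hP.const]
      change s σ _ = _
      rw [hs.const, hc']
    · rw [hvar, hP.const, ha]
      exact hs.fixx σ
  have hgst : ∀ (g : M ≃ₐ[κ] M) (ζ : κ), ζ ^ (ℓ ^ j) = 1 → g X = algebraMap κ M ζ * X →
      ∀ z₀, ∃ z₁, g (ι z₀) = ι z₁ := by
    intro g ζ hζ hgX
    obtain ⟨a, ha, -⟩ := root₀ _ hζ
    refine stab_range hC₀.rat halg₀ h33 ((g : M ≃+* M) : M →+* M) (fun c => ⟨c, ?_⟩) a ?_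
    · rw [hP.const]
      exact g.commutes _
    · rw [hvar, hP.const, ha]
      exact hgX
  set ζ := τ ρ / ρ with hζ
  have hζm : ζ ^ (ℓ ^ j) = 1 := hrt τ
  have hζ0 : ζ ≠ 0 := by
    intro h
    rw [h, zero_pow hm.ne'] at hζm
    exact zero_ne_one hζm
  have hζ1 : ζ ≠ 1 := by
    intro h
    rw [hζ, div_eq_one_iff_eq hρ0] at h
    exact hτρ h
  have fixroot : ∀ g : κ ≃ₐ[K] κ, (∀ c : κ₀, g (algebraMap κ₀ κ c) = algebraMap κ₀ κ c) →
      ∀ ξ : κ, ξ ^ (ℓ ^ j) = 1 → g ξ = ξ := by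
    intro g hg ξ hξ
    obtain ⟨c, hc, -⟩ := root₀ ξ hξ
    rw [← hc, hg]
  have hτζ : τ ζ = ζ := fixroot τ hτ₀ _ hζm
  have mul₀ : ∀ g g' : κ ≃ₐ[K] κ, (∀ c : κ₀, g (algebraMap κ₀ κ c) = algebraMap κ₀ κ c) →
      (∀ c : κ₀, g' (algebraMap κ₀ κ c) = algebraMap κ₀ κ c) →
      ∀ c : κ₀, (g * g') (algebraMap κ₀ κ c) = algebraMap κ₀ κ c := by
    intro g g' hg hg' c
    change g (g' _) = _
    rw [hg', hg]
  have inv₀ : ∀ g : κ ≃ₐ[K] κ, (∀ c : κ₀, g (algebraMap κ₀ κ c) = algebraMap κ₀ κ c) →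
      ∀ c : κ₀, g⁻¹ (algebraMap κ₀ κ c) = algebraMap κ₀ κ c := by
    intro g hg c
    change g.symm _ = _
    rw [AlgEquiv.symm_apply_eq, hg]
  have pow₀ : ∀ (n : ℕ) (c : κ₀), (τ ^ n) (algebraMap κ₀ κ c) = algebraMap κ₀ κ c := by
    intro n
    induction n with
    | zero => intro c; rfl
    | succ n ih => rw [pow_succ]; exact mul₀ _ _ ih hτ₀
  have hτpow : ∀ n : ℕ, (τ ^ n) ρ = ζ ^ n * ρ := by
    intro n
    induction n with
    | zero => rw [pow_zero, pow_zero, one_mul]; rfl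
    | succ n ih =>
      rw [pow_succ, pow_succ]
      change (τ ^ n) (τ ρ) = _
      have h1 : τ ρ = ζ * ρ := (div_mul_cancel₀ _ hρ0).symm
      rw [h1, map_mul, ih, fixroot (τ ^ n) (pow₀ n) _ hζm]
      ring
  have UL : ∀ (γ γ' : M ≃ₐ[κ] M) (a a' : κ),
      γ X = algebraMap κ M a * X → γ' X = algebraMap κ M a' * X →
      (∀ z₀, γ (ι z₀) = γ' (ι z₀)) → γ = γ' := by
    intro γ γ' a a' h3 h4 h5
    obtain ⟨g, hg⟩ := toR hC.rat (γ'⁻¹ * γ) (by
      show γ'.symm (γ _) = _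
      rw [AlgEquiv.symm_apply_eq, ← hX, ← hvar]
      exact h5 _)
    have hg1 : g = 1 := by
      apply h31
      intro z
      rw [hg]
      show γ'.symm (γ _) = _
      rw [AlgEquiv.symm_apply_eq]
      exact h5 z
    ext z
    have h6 : γ'.symm (γ z) = z := by
      have h7 := hg z
      rw [hg1] at h7
      exact h7.symm
    rw [AlgEquiv.symm_apply_eq] at h6
    exact h6
  -- the extension of the restriction of `s τ`
  obtain ⟨g, hgX⟩ := exists_rot hC hm hB hζm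
  obtain ⟨γ, hγX, hγ⟩ : ∃ γ : M ≃ₐ[κ] M, γ X = algebraMap κ M ζ * X ∧
      ∀ z₀, γ (ι z₀) = s τ (ι z₀) := by
    have hginv : ∀ z₀, ∃ z₁, g.symm (ι z₀) = ι z₁ := by
      refine hgst g.symm ζ⁻¹ (by rw [inv_pow, hζm, inv_one]) ?_
      rw [AlgEquiv.symm_apply_eq, map_mul, g.commutes, hgX, ← mul_assoc, ← map_mul,
        inv_mul_cancel₀ hζ0, map_one, one_mul]
    choose f hf using fun z₀ => hst τ z₀
    choose f' hf' using fun z₀ => hst τ⁻¹ z₀
    choose u hu using hginv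
    choose v hv using hgst g ζ hζm hgX
    have hinj : ∀ a b : M₀, ι a = ι b → a = b := fun a b h => ι.injective h
    let α : M₀ ≃+* M₀ :=
      { toFun := fun z => u (f z)
        invFun := fun z => f' (v z)
        left_inv := fun z => hinj _ _ (by
          rw [← hf', ← hv, ← hu, ← hf]
          rw [g.apply_symm_apply, sinv])
        right_inv := fun z => hinj _ _ (by
          rw [← hu, ← hf, ← hf', ← hv, sinv', g.symm_apply_apply])
        map_mul' := fun a b => hinj _ _ (by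
          rw [← hu, ← hf, map_mul, map_mul, map_mul, map_mul, hf, hf, hu, hu])
        map_add' := fun a b => hinj _ _ (by
          rw [← hu, ← hf, map_add, map_add, map_add, map_add, hf, hf, hu, hu]) }
    have hα : ∀ z, ι (α z) = g.symm (s τ (ι z)) := by
      intro z
      change ι (u (f z)) = _
      rw [← hu, ← hf]
    have hfixR : ∀ t : R₀, α (algebraMap R₀ M₀ t) = algebraMap R₀ M₀ t := by
      intro t
      have ht : t ∈ IntermediateField.adjoin κ₀ {x₀} := by rw [hC₀.rat.gen]; trivial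
      induction ht using IntermediateField.adjoin_induction with
      | mem y hy =>
        rw [Set.mem_singleton_iff] at hy
        subst hy
        apply hinj
        rw [hα, hvar, AlgEquiv.symm_apply_eq, hgX]
        exact hs.fixx τ
      | algebraMap c =>
        apply hinj
        rw [hα, ← IsScalarTower.algebraMap_apply, hP.const, hs.const, hτ₀,
          AlgEquiv.symm_apply_eq, g.commutes]
      | add u v _ _ hu hv => rw [map_add, map_add, hu, hv]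
      | inv u _ hu => rw [map_inv₀, map_inv₀, hu]
      | mul u v _ _ hu hv => rw [map_mul, map_mul, hu, hv]
    obtain ⟨γ', hγ'⟩ := h32 (AlgEquiv.ofRingEquiv (f := α) hfixR)
    let γκ : M ≃ₐ[κ] M := γ'.restrictScalars κ
    refine ⟨g * γκ, ?_, fun z => ?_⟩
    · show g (γ' X) = _
      rw [hX, γ'.commutes, hgX]
    · show g (γ' (ι z)) = _
      rw [hγ']
      change g (ι (α z)) = _
      rw [hα, g.apply_symm_apply]
  have hγn : ∀ n : ℕ, (γ ^ n) X = algebraMap κ M (ζ ^ n) * X := by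
    intro n
    induction n with
    | zero => rw [pow_zero, pow_zero, map_one, one_mul]; rfl
    | succ n ih =>
      rw [pow_succ, AlgEquiv.mul_apply, hγX, map_mul, (γ ^ n).commutes, ih, pow_succ, map_mul]
      ring
  have hpow : ∀ (n : ℕ) z, (γ ^ n) (ι z) = s (τ ^ n) (ι z) := by
    intro n
    induction n with
    | zero =>
      intro z
      rw [pow_zero, pow_zero, map_one]; rfl
    | succ n ih =>
      intro z
      rw [pow_succ, pow_succ, smul]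
      change (γ ^ n) (γ (ι z)) = _
      obtain ⟨z₁, hz₁⟩ := hst τ z
      rw [hγ, hz₁, ih]
  have htriv : ∀ n : ℕ, ζ ^ n = 1 → γ ^ n = 1 := by
    intro n hn
    refine UL _ _ (ζ ^ n) 1 (hγn n) (by rw [map_one, one_mul]; rfl) ?_
    intro z
    rw [hpow]
    exact hPT (τ ^ n) (pow₀ n) (by rw [hτpow, hn, one_mul]) z
  have hγm : γ ^ (ℓ ^ j) = 1 := htriv _ hζm
  have hγ1 : γ ≠ 1 := by
    intro h
    apply hζ1
    rw [h] at hγX
    have h1 : algebraMap κ M ζ * X = 1 * X := by rw [← hγX, one_mul]; rfl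
    have h2 := mul_right_cancel₀ hX0 h1
    rw [← map_one (algebraMap κ M)] at h2
    exact (algebraMap κ M).injective h2
  -- the power of order `ℓ`
  obtain ⟨n, hηne, hηℓ⟩ := exists_ord hγm hγ1
  set η := γ ^ (ℓ ^ n) with hη
  have hηX : η X = algebraMap κ M (ζ ^ (ℓ ^ n)) * X := hγn _
  have hζη : ζ ^ (ℓ ^ n) ≠ 1 := fun h => hηne (htriv _ h)
  have hηs : StR R η := stR_of_rot hC.rat hηX
  obtain ⟨W, hW⟩ := exf3 hC η hηℓ hηne hηs
  have hWX : W.ord X ≠ 0 := by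
    intro h
    exact hζη (eig_one hC hW hX0 h hηX)
  -- roots of unity
  have hpw : ∀ σ : κ ≃ₐ[K] κ, ∃ a : ℕ, σ⁻¹ ζ = ζ ^ a := by
    intro σ
    obtain ⟨r, hr⟩ : ∃ r, r = orderOf ζ := ⟨_, rfl⟩
    have hfin : 0 < r := by
      rw [hr]
      exact orderOf_pos_iff.2 (isOfFinOrder_iff_pow_eq_one.2 ⟨_, hm, hζm⟩)
    have hprim : IsPrimitiveRoot ζ r := by rw [hr]; exact IsPrimitiveRoot.orderOf ζ
    have h1 : (σ⁻¹ ζ) ^ r = 1 := by rw [← map_pow, hprim.pow_eq_one, map_one]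
    haveI : NeZero r := ⟨hfin.ne'⟩
    obtain ⟨a, -, ha⟩ := hprim.eq_pow_of_pow_eq_one h1
    exact ⟨a, ha.symm⟩
  -- the image of the section fixes `W`
  have hfix : ∀ σ : κ ≃ₐ[K] κ, Fixes W (s σ) := by
    intro σ
    obtain ⟨η', hη'⟩ := conjS (s := s) hs.const γ σ
    obtain ⟨a, ha⟩ := hpw σ
    have hη'X : η' X = algebraMap κ M (σ⁻¹ ζ) * X := by
      apply (s σ).injective
      rw [hη', hs.fixx, map_mul, γ.commutes, hγX, map_mul, hs.const, hs.fixx]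
      have h1 : σ (σ⁻¹ ζ) = ζ := σ.apply_symm_apply ζ
      rw [h1]
      ring
    have hcon₀ : ∀ c : κ₀, (σ⁻¹ * τ * σ) (algebraMap κ₀ κ c) = algebraMap κ₀ κ c := by
      intro c
      obtain ⟨c', hc'⟩ := hκ σ c
      change σ.symm (τ (σ _)) = _
      rw [hc', hτ₀, AlgEquiv.symm_apply_eq, hc']
    have hratio : (σ⁻¹ * τ * σ) ρ = ζ ^ a * ρ := by
      have h1 : σ ρ = (σ ρ / ρ) * ρ := (div_mul_cancel₀ _ hρ0).symm
      have h2 : τ ρ = ζ * ρ := (div_mul_cancel₀ _ hρ0).symm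
      change σ.symm (τ (σ ρ)) = _
      have h3 : τ (σ ρ) = ζ * σ ρ := by
        rw [h1, map_mul, fixroot τ hτ₀ _ (hrt σ), h2]
        ring
      rw [h3, map_mul, σ.symm_apply_apply]
      have h4 : σ.symm ζ = ζ ^ a := ha
      rw [h4]
    have hηγ : η' = γ ^ a := by
      refine UL _ _ (σ⁻¹ ζ) (ζ ^ a) hη'X (hγn a) ?_
      intro z
      have h0' : η' (ι z) = s σ⁻¹ (γ (s σ (ι z))) := by
        rw [← hη', sinv]
      obtain ⟨z₁, hz₁⟩ := hst σ z
      have h1 : η' (ι z) = s (σ⁻¹ * τ * σ) (ι z) := by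
        rw [h0', hz₁, hγ, ← hz₁, smul, smul]
      have h2 : σ⁻¹ * τ * σ = τ ^ a * ((τ ^ a)⁻¹ * (σ⁻¹ * τ * σ)) := by
        rw [mul_inv_cancel_left]
      have h3 : s ((τ ^ a)⁻¹ * (σ⁻¹ * τ * σ)) (ι z) = ι z := by
        apply hPT
        · exact mul₀ _ _ (inv₀ _ (pow₀ a)) hcon₀
        · change (τ ^ a).symm ((σ⁻¹ * τ * σ) ρ) = ρ
          rw [hratio, AlgEquiv.symm_apply_eq, hτpow]
      rw [h1, h2, smul, h3, hpow]
    have hconj : ∀ (i : ℕ) z, s σ ((η' ^ i) z) = (γ ^ i) (s σ z) := by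
      intro i
      induction i with
      | zero => intro z; rfl
      | succ i ih =>
        intro z
        rw [pow_succ, AlgEquiv.mul_apply, ih, hη', pow_succ, AlgEquiv.mul_apply]
    have hηa : η' ^ (ℓ ^ n) = η ^ a := by rw [hηγ, hη, ← pow_mul, ← pow_mul, mul_comm]
    have h1 : (η ^ a) ^ ℓ = 1 := by rw [← pow_mul, mul_comm, pow_mul, hηℓ, one_pow]
    have h2 : η ^ a ≠ 1 := by
      intro h
      apply hηne
      ext z
      have h3 := hconj (ℓ ^ n) (s σ⁻¹ z)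
      rw [hηa, h, sinv'] at h3
      rw [← hη] at h3
      rw [← h3]
      change s σ (s σ⁻¹ z) = _
      rw [sinv']; rfl
    have h4 : StR R (η ^ a) := hηs.pow a
    let Wσ := Place.comapEquiv W (s σ) (σ : κ ≃+* κ) (hs.const σ)
    have h5 : Wσ = W := by
      refine unq3 hC hinf h1 h2 h4 (W := Wσ) (W' := W) ?_ (Fixes_pow' hW a)
      intro z
      change W.ord (s σ ((η ^ a) z)) = W.ord (s σ z)
      rw [← hηa, hconj, ← hη, hW]
    intro z
    change Wσ.ord z = W.ord z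
    rw [h5]
  refine ⟨W, hWX, fun σ _ => hfix σ, ?_⟩
  -- uniqueness
  rintro W' hW' hfix'
  rcases hW' with hW' | ⟨e, he, hW'e⟩
  swap
  · exfalso
    replace hW'e : 0 < W'.ord (X - algebraMap κ M e) := hW'e
    obtain ⟨e₀, he₀, he₀e⟩ := (hP.branch e).1 he
    have hτe : τ e = e := by rw [← he₀e, hτ₀]
    have h1 := hfix' τ trivial (X - algebraMap κ M e)
    rw [map_sub, hs.const, hs.fixx, ← hζ, hτe] at h1
    have h2 : algebraMap κ M ζ * X - algebraMap κ M e =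
        algebraMap κ M ζ * (X - algebraMap κ M (ζ⁻¹ * e)) := by
      rw [mul_sub, ← map_mul, mul_inv_cancel_left₀ hζ0]
    have h3 : e ≠ ζ⁻¹ * e := by
      intro h3
      have he' : e ≠ 0 := fun h => h0 (h ▸ he)
      have h4 : ζ⁻¹ = 1 := mul_right_cancel₀ he' (h3.symm.trans (one_mul e).symm)
      exact hζ1 (inv_eq_one.1 h4)
    have h4 := ord_sub_const hW'e h3
    have h5 : X - algebraMap κ M (ζ⁻¹ * e) ≠ 0 := by
      intro h
      apply htr
      rw [sub_eq_zero.1 h]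
      exact isAlgebraic_algebraMap _
    rw [h2, W'.ord_mul ((_root_.map_ne_zero _).2 hζ0) h5, W'.ord_const hζ0, h4] at h1
    omega
  · obtain ⟨c, hcX, hcW⟩ := exists_rotW hC hm hB hζm hW'
    -- `s τ` commutes with `c`
    obtain ⟨θ, hθ⟩ := conjS (s := s) hs.const c τ
    have hθX : θ X = c X := by
      apply (s τ).injective
      rw [hθ, hcX, hs.fixx, ← hζ, map_mul, c.commutes, hcX, map_mul, hs.const, hs.fixx, ← hζ, hτζ]
    have hθW : Fixes W' θ := by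
      intro z
      rw [← hfix' τ trivial (θ z), hθ, hcW, hfix' τ trivial]
    have hθc : θ = c := stabX hC h0 hW' hθW hcW hθX
    have hcomm : ∀ z, s τ (c z) = c (s τ z) := by
      intro z
      rw [← hθ, hθc]
    have hcst := hgst c ζ hζm hcX
    have hcomm' : γ * c = c * γ := by
      refine UL _ _ (ζ * ζ) (ζ * ζ) ?_ ?_ ?_
      · rw [AlgEquiv.mul_apply, hcX, map_mul, γ.commutes, hγX, map_mul]; ring
      · rw [AlgEquiv.mul_apply, hγX, map_mul, c.commutes, hcX, map_mul]; ring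
      · intro z
        change γ (c (ι z)) = c (γ (ι z))
        obtain ⟨z₁, hz₁⟩ := hcst z
        rw [hz₁, hγ, ← hz₁, hcomm, hγ]
    have hcn : ∀ n : ℕ, (c ^ n) X = algebraMap κ M (ζ ^ n) * X := by
      intro n
      induction n with
      | zero => rw [pow_zero, pow_zero, map_one, one_mul]; rfl
      | succ n ih =>
        rw [pow_succ, AlgEquiv.mul_apply, hcX, map_mul, (c ^ n).commutes, ih, pow_succ, map_mul]
        ring
    have hcm : c ^ (ℓ ^ j) = 1 := by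
      refine stabX hC h0 hW' (Fixes_pow' hcW _) (fun z => rfl) ?_
      rw [← hX, hcn, hζm, map_one, one_mul]; rfl
    have hcm' : Commute γ c⁻¹ := (show Commute γ c from hcomm').inv_right
    have hμX : (γ * c⁻¹) X = X := by
      rw [AlgEquiv.mul_apply]
      have h1 : (c⁻¹ : M ≃ₐ[κ] M) X = algebraMap κ M ζ⁻¹ * X := by
        change c.symm X = _
        rw [AlgEquiv.symm_apply_eq, map_mul, c.commutes, hcX, ← mul_assoc, ← map_mul,
          inv_mul_cancel₀ hζ0, map_one, one_mul]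
      rw [h1, map_mul, γ.commutes, hγX, ← mul_assoc, ← map_mul, inv_mul_cancel₀ hζ0, map_one,
        one_mul]
    have hμm : (γ * c⁻¹) ^ (ℓ ^ j) = 1 := by
      rw [hcm'.mul_pow, hγm, inv_pow, hcm, inv_one, mul_one]
    obtain ⟨g, hg⟩ := toR hC.rat (γ * c⁻¹) hμX
    have hgi : ∀ (i : ℕ) z, (g ^ i) z = ((γ * c⁻¹) ^ i) z := by
      intro i
      induction i with
      | zero => intro z; rfl
      | succ i ih => intro z; rw [pow_succ, AlgEquiv.mul_apply, ih, hg, pow_succ]; rfl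
    have hg1 : g = 1 := by
      by_contra hne
      have hgm : g ^ (ℓ ^ j) = 1 := by
        ext z
        rw [hgi, hμm]; rfl
      obtain ⟨i, hi1, hi2⟩ := exists_ord hgm hne
      obtain ⟨W₂, hW₂⟩ := a_exf ℓ κ R M x B Y hC _ hi2 hi1
      obtain ⟨-, e, he, hW₂e, -⟩ := hC.fixed a_stab W₂ _ hW₂ hi1
      have hcc : ∀ z, c ((g ^ (ℓ ^ i)) z) = (g ^ (ℓ ^ i)) (c z) := by
        intro z
        rw [hgi, hgi]
        have h1 : Commute c ((γ * c⁻¹) ^ (ℓ ^ i)) := by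
          refine Commute.pow_right ?_ _
          exact (show Commute c γ from hcomm'.symm).mul_right (Commute.refl c).inv_right
        exact DFunLike.congr_fun h1.eq z
      have h2 : pl W₂ c = W₂ := by
        refine a_unq ℓ κ R M x B Y hC _ hi2 hi1 (pl W₂ c) W₂ (fun z => ?_) hW₂
        rw [pl_ord, pl_ord, hcc, hW₂]
      have h3 : Fixes W₂ c := (fixes_iff W₂ c).2 h2
      have h4 : W₂.ord X = 0 := by
        have he' : e ≠ 0 := fun h => h0 (h ▸ he)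
        have := ord_sub_const hW₂e he'
        rwa [map_zero, sub_zero] at this
      exact hζ1 (eig_one hC h3 hX0 h4 hcX)
    have hγc : γ = c := by
      have h1 : γ * c⁻¹ = 1 := by
        ext z
        rw [← hg, hg1]; rfl
      rwa [mul_inv_eq_one] at h1
    exact unq3 hC hinf hηℓ hηne hηs (by
      rw [hη, hγc]
      exact Fixes_pow' hcW _) hW

end Pool.Agent.R925.L
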