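import Pool.Agent.R925.L.Gen

/-! Generic twists by rotations: from `k(t)` to `κ₀(θ)`. -/

set_option autoImplicit false
set_option linter.all false

open Polynomial FF

namespace Pool.Agent.R925.L

open Pool.Agent.Y157.PS Pool.Agent.Y157.GT Pool.Agent.Y31.PS Pool.Agent.R925.Q Pool.Agent.R925.X

theorem exists_split {ℓ : ℤ} : ∀ (j : ℕ) (α : ℤ), ¬ ℓ ^ j ∣ α →
    ∃ (i : ℕ) (α' : ℤ), i < j ∧ α = ℓ ^ i * α' ∧ ¬ ℓ ∣ α' := by
  intro j
  induction j with
  | zero => intro α h; exact absurd (by rw [pow_zero]; exact one_dvd _) h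
  | succ j ih =>
    intro α h
    by_cases h1 : ℓ ∣ α
    · obtain ⟨β, rfl⟩ := h1
      obtain ⟨i, α', hi, hα, hα'⟩ := ih β (fun h2 => h (by
        rw [pow_succ, mul_comm]
        exact mul_dvd_mul_left ℓ h2))
      exact ⟨i + 1, α', by omega, by rw [hα]; ring, hα'⟩
    · exact ⟨0, α, by omega, by rw [pow_zero, one_mul], h1⟩

/-- **the theorem for all covers** -/
theorem key_gen {ℓ : ℕ} [Fact ℓ.Prime] {j : ℕ} (hj : 1 ≤ j) {k K κ : Type} [Field k] [CharZero k]
    [Field K] [Algebra k K] [Field κ] [Algebra K κ] [IsAlgClosure K κ]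
    (hfg : (⊤ : IntermediateField ℚ k).FG) (t : K) (ht : Transcendental k t)
    (htop : IntermediateField.adjoin k {t} = ⊤) (g : k[X])
    (hsep : (expand k (ℓ ^ j) g).Separable) (a₀ d₀ : k) (ha₀ : a₀ ≠ 0) (hd₀ : d₀ ≠ 0) (α β : ℤ)
    (hα : ¬ ((ℓ ^ j : ℕ) : ℤ) ∣ α) {ρ δ : κ}
    (hρ : ρ ^ (ℓ ^ j) = algebraMap K κ (algebraMap k K a₀ * t ^ α))
    (hδ : δ ^ ℓ = algebraMap K κ (algebraMap k K d₀ * t ^ β)) :
    Key ℓ K κ (expand K (ℓ ^ j) (g.map (algebraMap k K))) ρ δ (fun _ => True) := by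
  intro R M _ _ _ _ _ _ x B Y hmemB hC s hs
  have hp := (Fact.out : ℓ.Prime).pos
  have hm : 0 < ℓ ^ j := pow_pos hp j
  have hm2 : 2 ≤ ℓ ^ j := by
    calc 2 ≤ ℓ := (Fact.out : ℓ.Prime).two_le
      _ = ℓ ^ 1 := (pow_one ℓ).symm
      _ ≤ ℓ ^ j := Nat.pow_le_pow_right hp hj
  haveI hac : IsAlgClosed κ := IsAlgClosure.isAlgClosed K
  haveI : CharZero K := charZero_of_injective_algebraMap (algebraMap k K).injective
  haveI : CharZero κ := charZero_of_injective_algebraMap (algebraMap K κ).injective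
  letI : Algebra k κ := ((algebraMap K κ).comp (algebraMap k K)).toAlgebra
  haveI : IsScalarTower k K κ := IsScalarTower.of_algebraMap_eq fun _ => rfl
  have halgK : Algebra.IsAlgebraic K κ := IsAlgClosure.isAlgebraic
  haveI : IsAlgClosed (algebraicClosure k κ) := IsAlgClosure.isAlgClosed k
  haveI : CharZero (algebraicClosure k κ) :=
    charZero_of_injective_algebraMap (algebraMap k (algebraicClosure k κ)).injective
  -- the constants
  set t' : κ := algebraMap K κ t with ht'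
  set a' : κ := algebraMap k κ a₀ with ha'
  set d' : κ := algebraMap k κ d₀ with hd'
  have ht'0 : t' ≠ 0 := by
    intro h
    apply ht
    have : t = 0 := (_root_.map_eq_zero (algebraMap K κ)).1 h
    rw [this]
    exact isAlgebraic_zero
  have ha'0 : a' ≠ 0 := (_root_.map_ne_zero _).2 ha₀
  have hd'0 : d' ≠ 0 := (_root_.map_ne_zero _).2 hd₀
  have hρ' : ρ ^ ((ℓ : ℤ) ^ j) = a' * t' ^ α := by
    have h1 : ((ℓ : ℤ) ^ j) = ((ℓ ^ j : ℕ) : ℤ) := by push_cast; rfl
    rw [h1, zpow_natCast, hρ, map_mul, map_zpow₀]; rfl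
  have hδ' : δ ^ (ℓ : ℤ) = d' * t' ^ β := by
    rw [zpow_natCast, hδ, map_mul, map_zpow₀]; rfl
  have hρ0 : ρ ≠ 0 := by
    rintro rfl
    rw [zero_zpow _ (by exact_mod_cast hm.ne')] at hρ'
    exact (mul_ne_zero ha'0 (zpow_ne_zero α ht'0)) hρ'.symm
  have hδ0 : δ ≠ 0 := by
    rintro rfl
    rw [zero_zpow _ (by exact_mod_cast hp.ne')] at hδ'
    exact (mul_ne_zero hd'0 (zpow_ne_zero β ht'0)) hδ'.symm
  -- the exponents
  obtain ⟨i, α', hij, hαα', hα'⟩ := exists_split (ℓ := (ℓ : ℤ)) j α (by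
    intro h
    apply hα
    push_cast
    exact h)
  obtain ⟨j', hj'⟩ : ∃ j', j = i + (j' + 1) := ⟨j - i - 1, by omega⟩
  set m' : ℤ := (ℓ : ℤ) ^ (j' + 1) with hm'
  obtain ⟨u, v, huv⟩ : ∃ u v : ℤ, u * α' + v * m' = 1 := by
    have h1 : IsCoprime (ℓ : ℤ) α' :=
      (Prime.coprime_iff_not_dvd (Nat.prime_iff_prime_int.1 (Fact.out : ℓ.Prime))).2 hα'
    obtain ⟨u, v, h⟩ := (h1.pow_left (m := j' + 1))
    exact ⟨v, u, by rw [hm']; linarith⟩
  obtain ⟨c, hc⟩ : ∃ c : κ, c = ρ ^ m' * t' ^ (-α') := ⟨_, rfl⟩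
  have hc0 : c ≠ 0 := by
    rw [hc]
    exact mul_ne_zero (zpow_ne_zero _ hρ0) (zpow_ne_zero _ ht'0)
  have hci : c ^ ((ℓ : ℤ) ^ i) = a' := by
    rw [hc, mul_zpow, ← zpow_mul, ← zpow_mul]
    have h1 : m' * (ℓ : ℤ) ^ i = (ℓ : ℤ) ^ j := by
      rw [hm', hj', ← pow_add]
      congr 1
      omega
    rw [h1, hρ', mul_assoc, ← zpow_add₀ ht'0]
    have h2 : α + -α' * (ℓ : ℤ) ^ i = 0 := by rw [hαα']; ring
    rw [h2, zpow_zero, mul_one]
  obtain ⟨θ, hθ⟩ : ∃ θ : κ, θ = ρ ^ u * t' ^ v := ⟨_, rfl⟩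
  have hθ0 : θ ≠ 0 := by
    rw [hθ]
    exact mul_ne_zero (zpow_ne_zero _ hρ0) (zpow_ne_zero _ ht'0)
  have hθm : θ ^ m' = c ^ u * t' := by
    rw [hθ, hc, mul_zpow, mul_zpow, ← zpow_mul, ← zpow_mul, ← zpow_mul, ← zpow_mul]
    have h1 : -α' * u = v * m' - 1 := by linarith
    rw [h1, zpow_sub₀ ht'0, zpow_one, mul_comm u m']
    field_simp
  have ht'θ : t' = c ^ (-u) * θ ^ m' := by
    rw [hθm, ← mul_assoc, ← zpow_add₀ hc0, neg_add_cancel, zpow_zero, one_mul]
  have hρθ : ρ = c ^ v * θ ^ α' := by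
    rw [hθ, hc, mul_zpow, mul_zpow, ← zpow_mul, ← zpow_mul, ← zpow_mul, ← zpow_mul]
    have h1 : ρ ^ (m' * v) * t' ^ (-α' * v) * (ρ ^ (u * α') * t' ^ (v * α')) =
        (ρ ^ (m' * v) * ρ ^ (u * α')) * (t' ^ (-α' * v) * t' ^ (v * α')) := by ring
    rw [h1, ← zpow_add₀ hρ0, ← zpow_add₀ ht'0]
    have h2 : m' * v + u * α' = 1 := by linarith
    have h3 : -α' * v + v * α' = 0 := by ring
    rw [h2, h3, zpow_one, zpow_zero, mul_one]
  obtain ⟨c₂, hc₂⟩ : ∃ c₂ : κ, c₂ = δ * θ ^ (-(β * (ℓ : ℤ) ^ j')) := ⟨_, rfl⟩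
  have hδθ : δ = c₂ * θ ^ (β * (ℓ : ℤ) ^ j') := by
    rw [hc₂, mul_assoc, ← zpow_add₀ hθ0, neg_add_cancel, zpow_zero, mul_one]
  have hc₂ℓ : c₂ ^ (ℓ : ℤ) = d' * c ^ (-(u * β)) := by
    rw [hc₂, mul_zpow, hδ', ← zpow_mul]
    have h1 : -(β * (ℓ : ℤ) ^ j') * (ℓ : ℤ) = m' * (-β) := by rw [hm', pow_succ]; ring
    rw [h1, zpow_mul, hθm, mul_zpow, ← zpow_mul]
    have h2 : d' * t' ^ β * (c ^ (u * -β) * t' ^ (-β)) =
        d' * c ^ (u * -β) * (t' ^ β * t' ^ (-β)) := by ring
    rw [h2, ← zpow_add₀ ht'0, add_neg_cancel, zpow_zero, mul_one]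
    congr 2
    ring
  -- algebraicity
  have algk : ∀ z : k, IsAlgebraic k (algebraMap k κ z) := fun z => isAlgebraic_algebraMap z
  have hcalg : IsAlgebraic k c := by
    have h1 : c ^ (ℓ ^ i) = a' := by
      rw [← hci, ← zpow_natCast]
      congr 1
    exact IsAlgebraic.of_pow (pow_pos hp i) (by rw [h1]; exact algk a₀)
  have zalg : ∀ {z : κ}, IsAlgebraic k z → ∀ n : ℤ, IsAlgebraic k (z ^ n) := by
    intro z hz n
    rcases n with n | n
    · rw [Int.ofNat_eq_natCast, zpow_natCast]; exact hz.pow n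
    · rw [zpow_negSucc]; exact (hz.pow _).inv
  have hc₂alg : IsAlgebraic k c₂ := by
    refine IsAlgebraic.of_pow hp ?_
    rw [← zpow_natCast, hc₂ℓ]
    exact (algk d₀).mul (zalg hcalg _)
  -- the field `k₁`
  let cc : algebraicClosure k κ := ⟨c, mem_algebraicClosure_iff.2 hcalg⟩
  let cc₂ : algebraicClosure k κ := ⟨c₂, mem_algebraicClosure_iff.2 hc₂alg⟩
  obtain ⟨k₁, hk₁⟩ : ∃ k₁ : IntermediateField k (algebraicClosure k κ),
    k₁ = IntermediateField.adjoin k {cc, cc₂} := ⟨_, rfl⟩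
  have hcc : cc ∈ k₁ := by
    rw [hk₁]; exact IntermediateField.subset_adjoin _ _ (Or.inl rfl)
  have hcc₂ : cc₂ ∈ k₁ := by
    rw [hk₁]; exact IntermediateField.subset_adjoin _ _ (Or.inr rfl)
  haveI hfin : FiniteDimensional k k₁ := by
    rw [hk₁]
    exact IntermediateField.finiteDimensional_adjoin fun z _ =>
      (Algebra.IsAlgebraic.isAlgebraic (R := k) z).isIntegral
  haveI : IsAlgClosure k₁ (algebraicClosure k κ) := by
    haveI : Algebra.IsAlgebraic k (algebraicClosure k κ) :=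
      (inferInstance : IsAlgClosure k (algebraicClosure k κ)).isAlgebraic
    exact ⟨inferInstance, inferInstance⟩
  haveI : CharZero k₁ := charZero_of_injective_algebraMap (algebraMap k k₁).injective
  have hfg₁ : (⊤ : IntermediateField ℚ k₁).FG := Pool.Agent.Y474.GT.fg_fin hfg
  have hk₁κ : ∀ z : k₁, algebraMap k₁ κ z = ((z : algebraicClosure k κ) : κ) := fun z => rfl
  -- the field `L = k₁(θ)`
  obtain ⟨L, hL⟩ : ∃ L : IntermediateField k₁ κ, L = IntermediateField.adjoin k₁ {θ} := ⟨_, rfl⟩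
  have hθL : θ ∈ IntermediateField.adjoin k₁ {θ} := IntermediateField.mem_adjoin_simple_self _ _
  have hcL : c ∈ IntermediateField.adjoin k₁ {θ} :=
    IntermediateField.algebraMap_mem _ (⟨cc, hcc⟩ : k₁)
  have hc₂L : c₂ ∈ IntermediateField.adjoin k₁ {θ} :=
    IntermediateField.algebraMap_mem _ (⟨cc₂, hcc₂⟩ : k₁)
  have hkL : ∀ z : k, algebraMap k κ z ∈ IntermediateField.adjoin k₁ {θ} := fun z =>
    IntermediateField.algebraMap_mem _ (algebraMap k k₁ z)
  have ht'L : t' ∈ IntermediateField.adjoin k₁ {θ} := by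
    rw [ht'θ]
    exact mul_mem (zpow_mem hcL _) (zpow_mem hθL _)
  have hρL : ρ ∈ IntermediateField.adjoin k₁ {θ} := by
    rw [hρθ]
    exact mul_mem (zpow_mem hcL _) (zpow_mem hθL _)
  have hδL : δ ∈ IntermediateField.adjoin k₁ {θ} := by
    rw [hδθ]
    exact mul_mem hc₂L (zpow_mem hθL _)
  have hKL : ∀ z : K, algebraMap K κ z ∈ IntermediateField.adjoin k₁ {θ} := by
    intro z
    have hz : z ∈ IntermediateField.adjoin k {t} := by rw [htop]; trivial
    induction hz using IntermediateField.adjoin_induction with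
    | mem y hy =>
      rw [Set.mem_singleton_iff] at hy
      subst hy
      exact ht'L
    | algebraMap c => exact hkL c
    | add u v _ _ hu hv => rw [map_add]; exact add_mem hu hv
    | inv u _ hu => rw [map_inv₀]; exact inv_mem hu
    | mul u v _ _ hu hv => rw [map_mul]; exact mul_mem hu hv
  let iKL : K →+* IntermediateField.adjoin k₁ {θ} :=
    (algebraMap K κ).codRestrict (IntermediateField.adjoin k₁ {θ}).toSubfield.toSubring hKL
  letI : Algebra K (IntermediateField.adjoin k₁ {θ}) := iKL.toAlgebra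
  haveI : IsScalarTower K (IntermediateField.adjoin k₁ {θ}) κ :=
    IsScalarTower.of_algebraMap_eq fun z => rfl
  have hθk : Transcendental k θ := by
    intro h
    apply ht
    have h1 : IsAlgebraic k t' := by
      rw [ht'θ]
      exact (zalg hcalg _).mul (zalg h _)
    exact (isAlgebraic_algebraMap_iff (algebraMap K κ).injective).1 h1
  have hθκ : Transcendental (algebraicClosure k κ) θ := hθk.algebraicClosure
  have hKL₀ : ∀ z : K, algebraMap K κ z ∈
      IntermediateField.adjoin (algebraicClosure k κ) {θ} := by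
    intro z
    have h1 : ∀ y ∈ IntermediateField.adjoin k₁ {θ},
        y ∈ IntermediateField.adjoin (algebraicClosure k κ) {θ} := by
      intro y hy
      induction hy using IntermediateField.adjoin_induction with
      | mem y hy =>
        rw [Set.mem_singleton_iff] at hy
        subst hy
        exact IntermediateField.mem_adjoin_simple_self _ _
      | algebraMap c =>
        rw [hk₁κ]
        exact IntermediateField.algebraMap_mem _ (c : algebraicClosure k κ)
      | add u v _ _ hu hv => exact add_mem hu hv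
      | inv u _ hu => exact inv_mem hu
      | mul u v _ _ hu hv => exact mul_mem hu hv
    exact h1 _ (hKL z)
  have halg : Algebra.IsAlgebraic (IntermediateField.adjoin (algebraicClosure k κ) {θ}) κ := by
    let i₀ : K →+* IntermediateField.adjoin (algebraicClosure k κ) {θ} :=
      (algebraMap K κ).codRestrict
        (IntermediateField.adjoin (algebraicClosure k κ) {θ}).toSubfield.toSubring hKL₀
    letI : Algebra K (IntermediateField.adjoin (algebraicClosure k κ) {θ}) := i₀.toAlgebra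
    haveI : IsScalarTower K (IntermediateField.adjoin (algebraicClosure k κ) {θ}) κ :=
      IsScalarTower.of_algebraMap_eq fun z => rfl
    exact Algebra.IsAlgebraic.tower_top (K := K) _
  -- the branch points
  have hexp : expand K (ℓ ^ j) (g.map (algebraMap k K)) =
      (expand k (ℓ ^ j) g).map (algebraMap k K) := (map_expand).symm
  have hBalg : ∀ e ∈ B, IsAlgebraic k e := by
    intro e he
    have h1 := (hmemB e).1 he
    rw [hexp, aeval_map_algebraMap] at h1
    exact ⟨_, hsep.ne_zero, h1⟩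
  have hBκ : ∀ e ∈ B, ∃ e₀ : algebraicClosure k κ, algebraMap (algebraicClosure k κ) κ e₀ = e :=
    fun e he => ⟨⟨e, mem_algebraicClosure_iff.2 (hBalg e he)⟩, rfl⟩
  have hB : ∀ ζ : κ, ζ ^ (ℓ ^ j) = 1 → ∀ e ∈ B, ζ * e ∈ B := by
    intro ζ hζ e he
    rw [hmemB, expand_aeval] at he ⊢
    rw [mul_pow, hζ, one_mul, he]
  have h0 : (0 : κ) ∉ B := by
    intro h
    have hsK : (expand K (ℓ ^ j) (g.map (algebraMap k K))).Separable := by
      rw [hexp]
      exact hsep.map
    exact expand_zero hm2 _ hsK ((hmemB 0).1 h)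
  obtain ⟨R₀, M₀, _, _, _, _, _, _, x₀, B₀, Y₀, ι, hPr⟩ :=
    b_pair ℓ (algebraicClosure k κ) κ R M x B Y hC hBκ
  obtain ⟨F, _, V, r, hcoef, ⟨D⟩⟩ := b_tpl ℓ (algebraicClosure k κ) κ θ hθκ halg
  obtain ⟨h31, h32, h33⟩ := b_gen3 ℓ (algebraicClosure k κ) κ R₀ R M₀ M x₀ x B₀ B Y₀ Y ι hPr F V r
    hcoef D
  have hGood : Good V B := by
    refine ⟨fun e he => ?_, fun e he e' he' hne => ?_⟩
    · obtain ⟨e₀, h⟩ := hBκ e he
      rw [← h]
      exact hcoef.mem e₀
    · obtain ⟨e₀, h⟩ := hBκ e he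
      obtain ⟨e₀', h'⟩ := hBκ e' he'
      refine ⟨sub_ne_zero.2 hne, ?_, ?_⟩
      · rw [← h, ← h', ← map_sub]
        exact hcoef.mem _
      · rw [← h, ← h', ← map_sub, ← map_inv₀]
        exact hcoef.mem _
  have hRot := a_gex ℓ κ R M x B Y hC F V r hcoef.res hGood D
  have hinf : ¬ FiniteDimensional R M := inf_of_rot hC fun e he => by
    obtain ⟨-, c, W, -, -, h3, h4, h5⟩ := hRot e he
    exact ⟨c, W, h3, h4, h5⟩
  have hκ : ∀ (σ : κ ≃ₐ[K] κ) (c : algebraicClosure k κ), ∃ c' : algebraicClosure k κ,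
      σ (algebraMap (algebraicClosure k κ) κ c) = algebraMap (algebraicClosure k κ) κ c' := by
    intro σ c
    refine ⟨⟨σ (algebraMap (algebraicClosure k κ) κ c), ?_⟩, rfl⟩
    rw [mem_algebraicClosure_iff]
    have h1 : IsAlgebraic k (algebraMap (algebraicClosure k κ) κ c) :=
      mem_algebraicClosure_iff.1 c.2
    exact h1.algHom (σ.restrictScalars k : κ ≃ₐ[k] κ).toAlgHom
  have hrt : ∀ σ : κ ≃ₐ[K] κ, (σ ρ / ρ) ^ (ℓ ^ j) = 1 := by
    intro σ
    rw [div_pow, ← map_pow, hρ, σ.commutes, ← hρ, div_self (pow_ne_zero _ hρ0)]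
  -- `M₀` is stable
  have halg₀ : Algebra.IsAlgebraic R₀ M₀ := by
    have := hPr.cov₀.gal
    infer_instance
  have hst : ∀ (σ : κ ≃ₐ[K] κ) z₀, ∃ z₁, s σ (ι z₀) = ι z₁ := by
    intro σ
    obtain ⟨a, ha, -⟩ := const_of_pow (κ := algebraicClosure k κ) (z := σ ρ / ρ) (a := 1) hm
      (by rw [hrt σ, map_one])
    refine stab_range hPr.cov₀.rat halg₀ h33 (s σ : M →+* M) (fun c => ?_) a ?_
    · obtain ⟨c', hc'⟩ := hκ σ c
      refine ⟨c', ?_⟩
      rw [hPr.const, hPr.const]
      change s σ _ = _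
      rw [hs.const, hc']
    · rw [hPr.const, ha]
      have hvar : ι (algebraMap R₀ M₀ x₀) = algebraMap R M x := hPr.var
      rw [hvar]
      exact hs.fixx σ
  -- the section over `L`
  let res : (κ ≃ₐ[IntermediateField.adjoin k₁ {θ}] κ) →* (κ ≃ₐ[K] κ) :=
    AlgEquiv.restrictScalarsHom K
  have hres : ∀ σ z, res σ z = σ z := fun σ z => rfl
  have hfixL : ∀ (σ : κ ≃ₐ[IntermediateField.adjoin k₁ {θ}] κ) (z : κ),
      z ∈ IntermediateField.adjoin k₁ {θ} → σ z = z := fun σ z hz => σ.commutes ⟨z, hz⟩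
  have hsL : Sec (IntermediateField.adjoin k₁ {θ}) κ R M x Y 1 (s.comp res) := by
    refine ⟨fun σ d => ?_, fun σ => ?_, fun σ => ?_, fun z => ?_⟩
    · exact hs.const (res σ) d
    · have h1 := hs.fixx (res σ)
      rw [hres, hfixL σ ρ hρL, div_self hρ0, map_one, one_mul] at h1
      exact h1
    · have h1 := hs.fixy (res σ)
      rw [hres, hfixL σ δ hδL, div_self hδ0, map_one, one_mul] at h1
      change s (res σ) Y = _
      rw [h1, map_one, div_one, map_one, one_mul]
    · obtain ⟨E, hE, hEz⟩ := hs.cont z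
      obtain ⟨α, hα⟩ := Field.exists_primitive_element K E
      refine ⟨IntermediateField.adjoin (IntermediateField.adjoin k₁ {θ}) {(α : κ)}, ?_, ?_⟩
      · refine IntermediateField.adjoin.finiteDimensional ?_
        have h1 : IsAlgebraic K (α : κ) := halgK.isAlgebraic _
        exact (IsAlgebraic.tower_top (IntermediateField.adjoin k₁ {θ}) h1).isIntegral
      · intro σ hσ
        apply hEz
        have hσα : σ (α : κ) = α :=
          (IntermediateField.mem_fixingSubgroup_iff _ _).1 hσ _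
            (IntermediateField.mem_adjoin_simple_self _ _)
        rw [IntermediateField.mem_fixingSubgroup_iff]
        intro y hy
        have h2 : E = IntermediateField.adjoin K {(α : κ)} := by
          have h3 := congrArg IntermediateField.lift hα
          rw [IntermediateField.lift_adjoin_simple, IntermediateField.lift_top] at h3
          exact h3.symm
        rw [h2, IntermediateField.mem_adjoin_simple_iff] at hy
        obtain ⟨p, q, hy⟩ := hy
        have h4 : ∀ p : K[X], res σ (aeval (α : κ) p) = aeval (α : κ) p := by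
          intro p
          have h5 : (res σ).toAlgHom (aeval (α : κ) p) = aeval ((res σ).toAlgHom (α : κ)) p :=
            (aeval_algHom_apply _ _ _).symm
          have h6 : (res σ).toAlgHom (α : κ) = α := hσα
          rw [h6] at h5
          exact h5
        rw [hy, map_div₀, h4, h4]
  -- elements which fix `κ₀` and `ρ`
  have hPT' : ∀ g : κ ≃ₐ[K] κ, (∀ c : algebraicClosure k κ,
      g (algebraMap (algebraicClosure k κ) κ c) = algebraMap (algebraicClosure k κ) κ c) →
      g ρ = ρ → ∀ z₀, s g (ι z₀) = ι z₀ := by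
    intro g hg hgρ
    have hgθ : g θ = θ := by
      rw [hθ, map_mul, map_zpow₀, map_zpow₀, hgρ, ht', g.commutes]
    have hgL : ∀ z ∈ IntermediateField.adjoin k₁ {θ}, g z = z := by
      intro z hz
      induction hz using IntermediateField.adjoin_induction with
      | mem y hy =>
        rw [Set.mem_singleton_iff] at hy
        subst hy
        exact hgθ
      | algebraMap c =>
        rw [hk₁κ]
        exact hg (c : algebraicClosure k κ)
      | add u v _ _ hu hv => rw [map_add, hu, hv]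
      | inv u _ hu => rw [map_inv₀, hu]
      | mul u v _ _ hu hv => rw [map_mul, hu, hv]
    let g' : κ ≃ₐ[IntermediateField.adjoin k₁ {θ}] κ :=
      AlgEquiv.ofRingEquiv (f := (g : κ ≃+* κ)) (fun z => hgL z z.2)
    have hg' : res g' = g := by
      ext z; rfl
    have h1 := b_pt ℓ k₁ (algebraicClosure k κ) κ R₀ R M₀ M hfg₁ θ hθκ halg x₀ x B₀ B Y₀ Y ι hPr
      (s.comp res) hsL (fun σ z₀ => hst (res σ) z₀) g' hg
    intro z₀
    have h2 := h1 z₀
    change s (res g') (ι z₀) = _ at h2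
    rwa [hg'] at h2
  -- the element `τ`
  haveI : NeZero ((ℓ ^ (j' + 1) : ℕ) : algebraicClosure k κ) :=
    ⟨by exact_mod_cast (pow_pos hp (j' + 1)).ne'⟩
  obtain ⟨ζ, hζ⟩ := HasEnoughRootsOfUnity.exists_primitiveRoot (algebraicClosure k κ)
    (ℓ ^ (j' + 1))
  obtain ⟨e, he, heθ⟩ := exists_tau θ hθκ halg ζ (hζ.ne_zero (pow_pos hp (j' + 1)).ne')
  have hek : ∀ d : k, e (algebraMap k κ d) = algebraMap k κ d := fun d => he (algebraMap k _ d)
  have hec : e c = c := he cc
  have het : e t' = t' := by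
    rw [ht'θ, map_mul, map_zpow₀, map_zpow₀, heθ, hec, mul_zpow]
    congr 1
    have h1 : m' = ((ℓ ^ (j' + 1) : ℕ) : ℤ) := by rw [hm']; push_cast; rfl
    rw [h1, zpow_natCast, zpow_natCast, ← map_pow, hζ.pow_eq_one, map_one, one_mul]
  let τ : κ ≃ₐ[K] κ := AlgEquiv.ofRingEquiv (f := e)
    (fun z => fix_adjoin htop (e : κ →+* κ) hek het z)
  have hτρ : τ ρ ≠ ρ := by
    intro h
    change e ρ = ρ at h
    have h1 : e ρ = algebraMap (algebraicClosure k κ) κ (ζ ^ α') * ρ := by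
      conv_lhs => rw [hρθ]
      rw [map_mul, map_zpow₀, map_zpow₀, heθ, hec, mul_zpow, map_zpow₀]
      conv_rhs => rw [hρθ]
      ring
    rw [h1] at h
    have h2 : algebraMap (algebraicClosure k κ) κ (ζ ^ α') = 1 :=
      mul_right_cancel₀ hρ0 (h.trans (one_mul ρ).symm)
    have h3 : ζ ^ α' = 1 := by
      apply (algebraMap (algebraicClosure k κ) κ).injective
      rw [h2, map_one]
    have h4 := (hζ.zpow_eq_one_iff_dvd α').1 h3
    apply hα'
    refine dvd_trans ?_ h4
    push_cast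
    exact dvd_pow_self _ (by omega)
  exact genCore hPr h31 h32 h33 hinf hB h0 hρ0 hrt hs hκ hPT' τ he hτρ

end Pool.Agent.R925.L
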