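import Pool.Agent.R925.L.Gen2
import Pool.Agent.R925.L.Fin

/-! Generic twists by rotations: sections of fundamental groups. -/

set_option autoImplicit false
set_option linter.all false

open Polynomial FF

namespace Pool.Agent.R925.L

open Pool.Agent.Y157.PS Pool.Agent.Y31.PS Pool.Agent.R925.Q Pool.Agent.R925.X

section main

variable {k F Ω : Type} [Field k] [CharZero k]
    [Field F] [Field Ω] [Algebra k F] [Algebra F Ω] [Algebra k Ω] [IsScalarTower k F Ω]
    [IsAlgClosed Ω] [Algebra.IsAlgebraic F Ω]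

theorem fullRM {ℓ : ℕ} [Fact ℓ.Prime] {m : ℕ} (hm : 0 < m) (g : k[X]) (hlm : ℓ ∣ m)
    (hs : (expand k m g).Separable) (h3 : 3 ≤ (expand k m g).natDegree) (a d : k) (hd0 : d ≠ 0)
    {ρ δ : algebraicClosure k Ω} (hρ0 : ρ ≠ 0) (hδ0 : δ ≠ 0)
    (hρ : ρ ^ m = algebraMap k _ a) (hδ : δ ^ ℓ = algebraMap k _ (d / g.leadingCoeff))
    (hKey : Key ℓ k (algebraicClosure k Ω) (expand k m g) ρ δ (fun _ => True))
    (x y : F) (hx : Transcendental k x)
    (hxy : algebraMap k F d * y ^ ℓ = aeval (algebraMap k F a * x ^ m) g)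
    (hF : IntermediateField.adjoin k {x, y} = (⊤ : IntermediateField k F))
    (M : IntermediateField F Ω) (hM : geomPro ℓ k F Ω ≤ M)
    (S : (algebraicClosure k Ω ≃ₐ[k] algebraicClosure k Ω) →* (M ≃ₐ[F] M)) (hcont : Continuous S)
    (hcompat : ∀ σ (c : algebraicClosure k Ω) (z : M), (z : Ω) = (c : Ω) →
      (S σ z : Ω) = (σ c : Ω)) :
    ∃ W : ValuationSubring M,
      (((∀ c : k, algebraMap F M (algebraMap k F c) ∈ W) ∧
       (algebraMap F M x ∈ W.nonunits ∨ algebraMap F M x⁻¹ ∈ W.nonunits) ∧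
       (∀ z : F, algebraMap F M z ∈ W →
          ∃ c : k, algebraMap F M (z - algebraMap k F c) ∈ W.nonunits)) ∧
       ∀ σ, ∀ z : M, (z : Ω) ∈ geomPro ℓ k F Ω → (S σ z ∈ W ↔ z ∈ W)) ∧
      ∀ W' : ValuationSubring M,
        (∀ c : k, algebraMap F M (algebraMap k F c) ∈ W') →
        (algebraMap F M x ∈ W'.nonunits ∨ algebraMap F M x⁻¹ ∈ W'.nonunits ∨
          algebraMap F M (aeval (algebraMap k F a * x ^ m) g) ∈ W'.nonunits) →
        (∀ σ, ∀ z : M, (z : Ω) ∈ geomPro ℓ k F Ω → (S σ z ∈ W' ↔ z ∈ W')) →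
        ∀ z : M, (z : Ω) ∈ geomPro ℓ k F Ω → (z ∈ W' ↔ z ∈ W) := by
  have hac : IsAlgClosure k (algebraicClosure k Ω) := inferInstance
  have : Normal k (algebraicClosure k Ω) := IsAlgClosure.normal k _
  have hGal : IsGalois k (algebraicClosure k Ω) := ⟨⟩
  have halg := alg_eqn (Fact.out : ℓ.Prime).pos g a d hd0 x y hxy hF
  obtain ⟨T, hTc, hT⟩ := a_ind2 ℓ k F Ω x hx halg M hM _ S hcont
  have hTcompat : ∀ σ (c : algebraicClosure k Ω) (z : geomPro ℓ k F Ω), (z : Ω) = (c : Ω) →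
      (T σ z : Ω) = (σ c : Ω) := by
    intro σ c z hz
    have h1 : (z : Ω) ∈ M := hM z.2
    rw [hT σ ⟨(z : Ω), h1⟩ z rfl]
    exact hcompat σ c _ hz
  obtain ⟨W₀, ⟨h1, h2, h3', h4⟩, hun⟩ := geoR hm g hlm hs h3 a d hρ0 hδ0 hρ hδ hKey x y hx
    hxy hF T hTc hTcompat
  have hrat : ∀ c : algebraicClosure k Ω, (∀ σ : algebraicClosure k Ω ≃ₐ[k]
      algebraicClosure k Ω, σ c = c) → ∃ c' : k, algebraMap k (algebraicClosure k Ω) c' = c := by
    intro c hc
    have h5 := (InfiniteGalois.mem_bot_iff_fixed c).2 hc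
    exact IntermediateField.mem_bot.1 h5
  have hincl := fun (W : ValuationSubring M) z => non_incl ((IntermediateField.inclusion hM :
        geomPro ℓ k F Ω →ₐ[F] M) : geomPro ℓ k F Ω →+* M) W z
  obtain ⟨W, ⟨⟨hW1, hW2, hW3⟩, hW4⟩, hWun⟩ := lift_thm (geomPro ℓ k F Ω) M hM S T (fun _ => True) hT
    (fun L W => (∀ c : k, algebraMap F L (algebraMap k F c) ∈ W) ∧
       (algebraMap F L x ∈ W.nonunits ∨ algebraMap F L x⁻¹ ∈ W.nonunits) ∧
       (∀ z : F, algebraMap F L z ∈ W →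
          ∃ c : k, algebraMap F L (z - algebraMap k F c) ∈ W.nonunits))
    (fun L W => (∀ c : k, algebraMap F L (algebraMap k F c) ∈ W) ∧
      (algebraMap F L x ∈ W.nonunits ∨ algebraMap F L x⁻¹ ∈ W.nonunits ∨
        algebraMap F L (aeval (algebraMap k F a * x ^ m) g) ∈ W.nonunits))
    (by
      rintro W ⟨a1, a2, a3⟩
      refine ⟨a1, a2.imp (hincl W _).1 (hincl W _).1, fun z hz => ?_⟩
      obtain ⟨c, hc⟩ := a3 z hz
      exact ⟨c, (hincl W _).1 hc⟩)
    (by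
      rintro W ⟨a1, a2⟩
      exact ⟨a1, a2.imp (hincl W _).2 (Or.imp (hincl W _).2 (hincl W _).2)⟩)
    ⟨W₀, ⟨⟨h1, h3', fun z hz => by
      obtain ⟨c, w, hw, hwc⟩ := h2 _ hz
      obtain ⟨c', rfl⟩ := hrat c fun σ => res_fixed _ W₀ h1 σ (T σ) (h4 σ trivial)
        (fun c z hz => hTcompat σ c z hz) z c w hw hwc
      refine ⟨c', ?_⟩
      have h5 : algebraMap F (geomPro ℓ k F Ω) (z - algebraMap k F c') = w := by
        apply Subtype.ext
        rw [hwc]
        change algebraMap F Ω (z - algebraMap k F c') = _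
        rw [map_sub, ← IsScalarTower.algebraMap_apply]
        rfl
      rw [h5]
      exact hw⟩, fun σ _ z => h4 σ trivial z⟩, fun W' hW' hst =>
      hun W' hW'.1 hW'.2 fun σ _ z => hst σ trivial z⟩
  exact ⟨W, ⟨⟨hW1, hW2, hW3⟩, fun σ z hz => hW4 σ trivial z hz⟩, fun W' b1 b2 b3 z hz =>
    hWun W' ⟨b1, b2⟩ (fun σ _ z hz => b3 σ z hz) z hz⟩

end main

section gen

variable {k K F Ω : Type} [Field k] [CharZero k] [Field K] [Algebra k K]
    [Field F] [Field Ω] [Algebra K F] [Algebra F Ω] [Algebra K Ω] [IsScalarTower K F Ω]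
    [IsAlgClosed Ω] [Algebra.IsAlgebraic F Ω]

/-- **the generic twist by rotations** -/
theorem genRM {ℓ : ℕ} [Fact ℓ.Prime] {j : ℕ} (hj : 1 ≤ j)
    (hfg : (⊤ : IntermediateField ℚ k).FG) (t : K) (ht : Transcendental k t)
    (htop : IntermediateField.adjoin k {t} = ⊤) (g : k[X])
    (hsep : (expand k (ℓ ^ j) g).Separable) (h3 : 3 ≤ (expand k (ℓ ^ j) g).natDegree)
    (a₀ d₀ : k) (ha₀ : a₀ ≠ 0) (hd₀ : d₀ ≠ 0) (α β : ℤ)
    (hα : ¬ ((ℓ ^ j : ℕ) : ℤ) ∣ α) (a d : K) (ha : a = algebraMap k K a₀ * t ^ α)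
    (hd : d = algebraMap k K d₀ * t ^ β)
    (x y : F) (hx : Transcendental K x)
    (hxy : algebraMap K F d * y ^ ℓ = aeval (algebraMap K F a * x ^ (ℓ ^ j)) (g.map (algebraMap k K)))
    (hF : IntermediateField.adjoin K {x, y} = (⊤ : IntermediateField K F))
    (M : IntermediateField F Ω) (hM : geomPro ℓ K F Ω ≤ M)
    (S : (algebraicClosure K Ω ≃ₐ[K] algebraicClosure K Ω) →* (M ≃ₐ[F] M)) (hcont : Continuous S)
    (hcompat : ∀ σ (c : algebraicClosure K Ω) (z : M), (z : Ω) = (c : Ω) →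
      (S σ z : Ω) = (σ c : Ω)) :
    ∃ W : ValuationSubring M,
      (((∀ c : K, algebraMap F M (algebraMap K F c) ∈ W) ∧
       (algebraMap F M x ∈ W.nonunits ∨ algebraMap F M x⁻¹ ∈ W.nonunits) ∧
       (∀ z : F, algebraMap F M z ∈ W →
          ∃ c : K, algebraMap F M (z - algebraMap K F c) ∈ W.nonunits)) ∧
       ∀ σ, ∀ z : M, (z : Ω) ∈ geomPro ℓ K F Ω → (S σ z ∈ W ↔ z ∈ W)) ∧
      ∀ W' : ValuationSubring M,
        (∀ c : K, algebraMap F M (algebraMap K F c) ∈ W') →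
        (algebraMap F M x ∈ W'.nonunits ∨ algebraMap F M x⁻¹ ∈ W'.nonunits ∨
          algebraMap F M (aeval (algebraMap K F a * x ^ (ℓ ^ j))
            (g.map (algebraMap k K))) ∈ W'.nonunits) →
        (∀ σ, ∀ z : M, (z : Ω) ∈ geomPro ℓ K F Ω → (S σ z ∈ W' ↔ z ∈ W')) →
        ∀ z : M, (z : Ω) ∈ geomPro ℓ K F Ω → (z ∈ W' ↔ z ∈ W) := by
  have hcK : CharZero K := charZero_of_injective_algebraMap (algebraMap k K).injective
  have hp := (Fact.out : ℓ.Prime).pos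
  have hm : 0 < ℓ ^ j := pow_pos hp j
  have hac : IsAlgClosure K (algebraicClosure K Ω) := inferInstance
  have hkb : IsAlgClosed (algebraicClosure K Ω) := hac.1
  have ht0 : t ≠ 0 := by
    rintro rfl
    exact ht isAlgebraic_zero
  have hg0 : g ≠ 0 := by
    rintro rfl
    simp at h3
  have hlc0 : g.leadingCoeff ≠ 0 := leadingCoeff_ne_zero.2 hg0
  have hlck : (g.map (algebraMap k K)).leadingCoeff = algebraMap k K g.leadingCoeff :=
    leadingCoeff_map_of_injective (algebraMap k K).injective g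
  have ha0 : a ≠ 0 := by
    rw [ha]
    exact mul_ne_zero ((_root_.map_ne_zero _).2 ha₀) (zpow_ne_zero _ ht0)
  have hd0 : d ≠ 0 := by
    rw [hd]
    exact mul_ne_zero ((_root_.map_ne_zero _).2 hd₀) (zpow_ne_zero _ ht0)
  have hdl : d / (g.map (algebraMap k K)).leadingCoeff =
      algebraMap k K (d₀ / g.leadingCoeff) * t ^ β := by
    rw [hlck, hd, map_div₀]
    ring
  have hexp : expand K (ℓ ^ j) (g.map (algebraMap k K)) =
      (expand k (ℓ ^ j) g).map (algebraMap k K) := (map_expand).symm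
  obtain ⟨ρ, hρ0, hρ⟩ := root_exists hm (c := algebraMap K (algebraicClosure K Ω) a)
    ((_root_.map_ne_zero _).2 ha0)
  obtain ⟨δ, hδ0, hδ⟩ := root_exists hp (c := algebraMap K (algebraicClosure K Ω)
    (d / (g.map (algebraMap k K)).leadingCoeff))
    ((_root_.map_ne_zero _).2 (div_ne_zero hd0 (by
      rw [hlck]; exact (_root_.map_ne_zero _).2 hlc0)))
  refine fullRM hm (g.map (algebraMap k K)) (dvd_pow_self ℓ (by omega))
    (by rw [hexp]; exact hsep.map) (by rw [hexp, natDegree_map]; exact h3) a d hd0 hρ0 hδ0 hρ hδ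
    (key_gen hj hfg t ht htop g hsep a₀ (d₀ / g.leadingCoeff) ha₀ (div_ne_zero hd₀ hlc0) α β hα
      (by rw [hρ, ha]) (by rw [hδ, hdl])) x y hx hxy hF M hM S hcont hcompat

end gen

end Pool.Agent.R925.L
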