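import Pool.Agent.R925.L.Abs

/-! Twists by rotations: transfer to Galois groups of function fields. -/

set_option autoImplicit false
set_option linter.all false

open Polynomial FF

namespace Pool.Agent.R925.L

open Pool.Agent.Y157.PS Pool.Agent.Y31.PS Pool.Agent.R925.Q Pool.Agent.R925.X

section main

variable {k F Ω : Type} [Field k] [CharZero k] [Field F] [Field Ω] [Algebra k F] [Algebra F Ω] [Algebra k Ω] [IsScalarTower k F Ω]
    [IsAlgClosed Ω] [Algebra.IsAlgebraic F Ω]

theorem geoR {ℓ : ℕ} [Fact ℓ.Prime] {m : ℕ} (hm : 0 < m) (g : k[X]) (hlm : ℓ ∣ m)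
    (hs : (expand k m g).Separable) (h3 : 3 ≤ (expand k m g).natDegree) (a d : k)
    {ρ δ : algebraicClosure k Ω} (hρ0 : ρ ≠ 0) (hδ0 : δ ≠ 0)
    (hρ : ρ ^ m = algebraMap k _ a) (hδ : δ ^ ℓ = algebraMap k _ (d / g.leadingCoeff))
    {P : (algebraicClosure k Ω ≃ₐ[k] algebraicClosure k Ω) → Prop}
    (hKey : Key ℓ k (algebraicClosure k Ω) (expand k m g) ρ δ P)
    (x y : F) (hx : Transcendental k x)
    (hxy : algebraMap k F d * y ^ ℓ = aeval (algebraMap k F a * x ^ m) g)
    (hF : IntermediateField.adjoin k {x, y} = (⊤ : IntermediateField k F))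
    (S : (algebraicClosure k Ω ≃ₐ[k] algebraicClosure k Ω) →*
      (geomPro ℓ k F Ω ≃ₐ[F] geomPro ℓ k F Ω)) (hcont : Continuous S)
    (hcompat : ∀ σ (c : algebraicClosure k Ω) (z : geomPro ℓ k F Ω), (z : Ω) = (c : Ω) →
      (S σ z : Ω) = (σ c : Ω)) :
    ∃ W : ValuationSubring (geomPro ℓ k F Ω),
      ((∀ c : k, algebraMap F (geomPro ℓ k F Ω) (algebraMap k F c) ∈ W) ∧
       (∀ z ∈ W, ∃ c : algebraicClosure k Ω, ∃ z' ∈ W.nonunits, (z' : Ω) = (z : Ω) - c) ∧
       (algebraMap F (geomPro ℓ k F Ω) x ∈ W.nonunits ∨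
         algebraMap F (geomPro ℓ k F Ω) x⁻¹ ∈ W.nonunits) ∧
       ∀ σ, P σ → ∀ z, S σ z ∈ W ↔ z ∈ W) ∧
      ∀ W' : ValuationSubring (geomPro ℓ k F Ω),
        (∀ c : k, algebraMap F (geomPro ℓ k F Ω) (algebraMap k F c) ∈ W') →
        (algebraMap F (geomPro ℓ k F Ω) x ∈ W'.nonunits ∨
          algebraMap F (geomPro ℓ k F Ω) x⁻¹ ∈ W'.nonunits ∨
          algebraMap F (geomPro ℓ k F Ω) (aeval (algebraMap k F a * x ^ m) g) ∈ W'.nonunits) →
        (∀ σ, P σ → ∀ z, S σ z ∈ W' ↔ z ∈ W') → W' = W := by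
  classical
  have hdvd : ℓ ∣ (expand k m g).natDegree := by
    rw [natDegree_expand]
    exact Dvd.dvd.mul_left hlm _
  have hlcg : (expand k m g).leadingCoeff = g.leadingCoeff := leadingCoeff_expand hm
  have hexp : ∀ (K : Type) [Field K] [Algebra k K] (z : K),
      aeval z (expand k m g) = aeval (z ^ m) g := fun K _ _ z => expand_aeval m g z
  obtain ⟨f, hf⟩ : ∃ f : k[X], f = expand k m g := ⟨_, rfl⟩
  rw [← hf] at hs h3 hKey hdvd hlcg
  simp only [← hf] at hexp
  have hℓp : ℓ.Prime := Fact.out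
  have hac : IsAlgClosure k (algebraicClosure k Ω) := inferInstance
  have hkb : IsAlgClosed (algebraicClosure k Ω) := hac.1
  have hch : CharZero (algebraicClosure k Ω) :=
    charZero_of_injective_algebraMap (algebraMap k (algebraicClosure k Ω)).injective
  have hf0 : f ≠ 0 := by rintro rfl; simp at h3
  have hlck0 : f.leadingCoeff ≠ 0 := leadingCoeff_ne_zero.2 hf0
  rw [← hlcg] at hδ
  -- the roots
  set P₀ := f.map (algebraMap k (algebraicClosure k Ω)) with hP
  have hnd : P₀.roots.Nodup := nodup_roots hs.map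
  have hlc0 : algebraMap k (algebraicClosure k Ω) f.leadingCoeff ≠ 0 :=
    (_root_.map_ne_zero _).2 hlck0
  have hP0 : P₀ ≠ 0 := (Polynomial.map_ne_zero_iff (algebraMap k _).injective).2 hf0
  have hPdeg : P₀.natDegree = f.natDegree := natDegree_map_eq_of_injective (algebraMap k _).injective f
  set B : Finset (algebraicClosure k Ω) := P₀.roots.toFinset with hBdef
  have hmemB : ∀ θ, θ ∈ B ↔ aeval θ f = 0 := by
    intro θ
    rw [hBdef, Multiset.mem_toFinset, mem_roots hP0, IsRoot.def, hP, eval_map]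
    rfl
  have hcard : B.card = f.natDegree := by
    rw [hBdef, Multiset.toFinset_card_of_nodup hnd, ← hPdeg]
    exact (IsAlgClosed.splits P₀).natDegree_eq_card_roots.symm
  -- the product formula
  have hPx : ∀ z : Ω, P₀.eval₂ (algebraMap (algebraicClosure k Ω) Ω) z =
      algebraMap (algebraicClosure k Ω) Ω (algebraMap k (algebraicClosure k Ω) f.leadingCoeff) *
        ∏ e ∈ B, (z - algebraMap (algebraicClosure k Ω) Ω e) := by
    intro z
    have h1 := (IsAlgClosed.splits P₀).eq_prod_roots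
    have h5 : P₀.leadingCoeff = algebraMap k (algebraicClosure k Ω) f.leadingCoeff :=
      leadingCoeff_map_of_leadingCoeff_ne_zero _ hlc0
    rw [h5] at h1
    have h6 : ∏ e ∈ B, (z - algebraMap (algebraicClosure k Ω) Ω e) =
        (P₀.roots.map fun e => z - algebraMap (algebraicClosure k Ω) Ω e).prod := by
      rw [hBdef, Finset.prod, Multiset.toFinset_val, Multiset.dedup_eq_self.2 hnd]
    rw [h6]
    conv_lhs => rw [h1]
    rw [eval₂_mul, eval₂_C, ← coe_eval₂RingHom, map_multiset_prod, Multiset.map_map]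
    congr 2
    refine Multiset.map_congr rfl fun a _ => ?_
    simp
  -- the element `ρ x`
  set X1 : Ω := (ρ : Ω) * algebraMap F Ω x with hX1
  have hρΩ : (ρ : Ω) ^ m = algebraMap k Ω a := by
    have h7 := congrArg (algebraMap (algebraicClosure k Ω) Ω) hρ
    rw [map_pow, ← IsScalarTower.algebraMap_apply] at h7
    exact h7
  have hX1m : X1 ^ m = algebraMap F Ω (algebraMap k F a * x ^ m) := by
    rw [hX1, mul_pow, hρΩ, map_mul, map_pow, ← IsScalarTower.algebraMap_apply]
  have hfx : algebraMap F Ω (aeval (algebraMap k F a * x ^ m) g) =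
      P₀.eval₂ (algebraMap (algebraicClosure k Ω) Ω) X1 := by
    have h1 : P₀.eval₂ (algebraMap (algebraicClosure k Ω) Ω) X1 = aeval X1 f := by
      rw [hP, eval₂_map, ← IsScalarTower.algebraMap_eq k (algebraicClosure k Ω) Ω, aeval_def]
    rw [h1, hexp Ω X1, hX1m, aeval_algebraMap_apply]
  set Y0 : Ω := (δ : Ω) * algebraMap F Ω y with hY0
  have hY : Y0 ^ ℓ = ∏ e ∈ B, (X1 - algebraMap (algebraicClosure k Ω) Ω e) := by
    have h1 := congrArg (algebraMap F Ω) hxy
    rw [map_mul, map_pow, ← IsScalarTower.algebraMap_apply, hfx, hPx] at h1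
    have h5 : algebraMap (algebraicClosure k Ω) Ω
        (algebraMap k (algebraicClosure k Ω) f.leadingCoeff) ≠ 0 := (_root_.map_ne_zero _).2 hlc0
    have h6 : (δ : Ω) ^ ℓ = algebraMap k Ω d / algebraMap (algebraicClosure k Ω) Ω
        (algebraMap k (algebraicClosure k Ω) f.leadingCoeff) := by
      have h7 := congrArg (algebraMap (algebraicClosure k Ω) Ω) hδ
      rw [map_pow, map_div₀, map_div₀, ← IsScalarTower.algebraMap_apply] at h7
      exact h7
    rw [hY0, mul_pow, h6, div_mul_eq_mul_div, h1, mul_div_cancel_left₀ _ h5]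
  -- the covering field
  have hX0 : Transcendental k (algebraMap F Ω x) :=
    (transcendental_algebraMap_iff (R := k) (algebraMap F Ω).injective (a := x)).2 hx
  have hrat := RatF_scale (ratF_adj (trans_up hX0)) hρ0
  let R := IntermediateField.adjoin (algebraicClosure k Ω) {algebraMap F Ω x}
  have hX1R : X1 ∈ IntermediateField.adjoin (algebraicClosure k Ω) {algebraMap F Ω x} :=
    mul_mem (IntermediateField.algebraMap_mem _ ρ) (IntermediateField.mem_adjoin_simple_self _ _)
  have hYR : Y0 ^ ℓ ∈ IntermediateField.adjoin (algebraicClosure k Ω) {algebraMap F Ω x} := by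
    rw [hY]
    exact prod_mem fun e _ => sub_mem hX1R (IntermediateField.algebraMap_mem _ e)
  have hclR := closure_R hF δ hδ0 hℓp.pos hYR
  let x' : R := algebraMap (algebraicClosure k Ω) R ρ *
    ⟨algebraMap F Ω x, IntermediateField.mem_adjoin_simple_self _ _⟩
  have hx' : algebraMap R Ω x' = X1 := rfl
  obtain ⟨M, hM⟩ : ∃ M : IntermediateField R Ω,
      ∀ z, z ∈ M ↔ z ∈ maxPro ℓ (algebraicClosure k Ω) (IntermediateField.adjoin R {Y0}) Ω :=
    ⟨(maxPro ℓ (algebraicClosure k Ω) (IntermediateField.adjoin R {Y0}) Ω).restrictScalars R,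
      fun z => Iff.rfl⟩
  have hYM : Y0 ∈ M := by
    rw [hM]
    exact (maxPro ℓ (algebraicClosure k Ω) (IntermediateField.adjoin R {Y0}) Ω).algebraMap_mem
      ⟨Y0, IntermediateField.mem_adjoin_simple_self _ _⟩
  have hCov : Cov ℓ (algebraicClosure k Ω) R M x' B ⟨Y0, hYM⟩ :=
    a_cov ℓ (algebraicClosure k Ω) R Ω x' hrat B (by rw [hcard]; exact hdvd)
      (by rw [hcard]; exact h3) Y0 hY M hM ⟨Y0, hYM⟩ rfl
  have hMN : ∀ z, z ∈ M ↔ z ∈ geomPro ℓ k F Ω := fun z =>
    (hM z).trans (maxPro_geom ℓ k hF δ hδ0 z)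
  let eqv : M ≃+* geomPro ℓ k F Ω :=
    { toFun := fun w => ⟨w.1, (hMN _).1 w.2⟩
      invFun := fun w => ⟨w.1, (hMN _).2 w.2⟩
      left_inv := fun w => rfl
      right_inv := fun w => rfl
      map_mul' := fun w w' => rfl
      map_add' := fun w w' => rfl }
  have hcst : cst ℓ k F Ω = fun c => eqv (algebraMap (algebraicClosure k Ω) M c) := rfl
  have hcont' : ∀ z : geomPro ℓ k F Ω, ∃ E : IntermediateField k (algebraicClosure k Ω),
      FiniteDimensional k E ∧ ∀ σ ∈ E.fixingSubgroup, S σ z = z := by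
    haveI : Algebra.IsIntegral F (geomPro ℓ k F Ω) := inferInstance
    exact fun z => cont_fix S hcont z
  obtain ⟨W, ⟨h1, h2, h3', h4⟩, hun⟩ :=
    absR (R := R) x' B ⟨Y0, hYM⟩ hρ0 hδ0 hCov (fun s hs => hKey R M x' B ⟨Y0, hYM⟩ hmemB hCov s hs)
      eqv x y (Subtype.ext rfl) (Subtype.ext rfl) S hcont'
      (fun σ c => Subtype.ext (hcompat σ c _ rfl))
  have hinv : (algebraMap F (geomPro ℓ k F Ω) x)⁻¹ = algebraMap F (geomPro ℓ k F Ω) x⁻¹ :=
    (map_inv₀ _ _).symm
  rw [hinv] at h3'
  refine ⟨W, ⟨?_, ?_, h3', h4⟩, ?_⟩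
  · intro c
    have h5 : eqv (algebraMap (algebraicClosure k Ω) M (algebraMap k (algebraicClosure k Ω) c)) =
        algebraMap F (geomPro ℓ k F Ω) (algebraMap k F c) :=
      Subtype.ext (IsScalarTower.algebraMap_apply k F Ω c)
    rw [← h5]
    exact h1 (algebraMap k (algebraicClosure k Ω) c)
  · intro z hz
    obtain ⟨c, hc⟩ := h2 z hz
    exact ⟨c, _, hc, rfl⟩
  · intro W' hW'1 hW'2 hW'3
    have hconst : ∀ (c : algebraicClosure k Ω) (z : geomPro ℓ k F Ω), (z : Ω) = (c : Ω) →
        z ∈ W' := fun c z hz => const_mem_N _ W' hW'1 c z hz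
    refine hun W' (fun c => hconst c _ rfl) ?_ hW'3
    rw [hinv]
    rcases hW'2 with h | h | h
    · exact Or.inl h
    · exact Or.inr (Or.inl h)
    right
    right
    by_contra hno
    push Not at hno
    let ι : algebraicClosure k Ω → geomPro ℓ k F Ω := fun c => ⟨(c : Ω), const_geomPro ℓ k c⟩
    let XN : geomPro ℓ k F Ω := eqv (algebraMap R M x')
    have hno' : ∀ e ∈ B, (XN - ι e)⁻¹ ∈ W' := by
      intro e he
      exact inv_mem_of_not_nonunit (hno e he)
    have hlcι : (ι (algebraMap k (algebraicClosure k Ω) f.leadingCoeff))⁻¹ ∈ W' := by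
      have h5 : (ι (algebraMap k (algebraicClosure k Ω) f.leadingCoeff))⁻¹ =
          ι (algebraMap k (algebraicClosure k Ω) f.leadingCoeff)⁻¹ := Subtype.ext rfl
      rw [h5]
      exact hconst (algebraMap k (algebraicClosure k Ω) f.leadingCoeff)⁻¹ _ rfl
    have hfN : algebraMap F (geomPro ℓ k F Ω) (aeval (algebraMap k F a * x ^ m) g) =
        ι (algebraMap k (algebraicClosure k Ω) f.leadingCoeff) *
          ∏ e ∈ B, (XN - ι e) := by
      apply (algebraMap (geomPro ℓ k F Ω) Ω).injective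
      rw [map_mul, map_prod]
      have h5 : algebraMap (geomPro ℓ k F Ω) Ω
          (algebraMap F (geomPro ℓ k F Ω) (aeval (algebraMap k F a * x ^ m) g)) =
          algebraMap F Ω (aeval (algebraMap k F a * x ^ m) g) := rfl
      rw [h5, hfx, hPx]
      rfl
    have h8 : (algebraMap F (geomPro ℓ k F Ω) (aeval (algebraMap k F a * x ^ m) g))⁻¹ ∈ W' := by
      rw [hfN, mul_inv, ← Finset.prod_inv_distrib]
      exact mul_mem hlcι (prod_mem hno')
    rcases (nonunits_iff.1 h).2 with h9 | h9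
    · rw [hfN] at h9
      have h10 : ∀ e : algebraicClosure k Ω, XN - ι e ≠ 0 := by
        intro e he
        have h11 : algebraMap R Ω x' = algebraMap (algebraicClosure k Ω) Ω e :=
          congrArg (fun z : geomPro ℓ k F Ω => (z : Ω)) (sub_eq_zero.1 he)
        have h12 : Transcendental (algebraicClosure k Ω) (algebraMap R Ω x') :=
          (transcendental_algebraMap_iff (algebraMap R Ω).injective).2 hrat.trans
        apply h12
        rw [h11]
        exact isAlgebraic_algebraMap _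
      rcases mul_eq_zero.1 h9 with h11 | h11
      · have h12 : (algebraMap (algebraicClosure k Ω) Ω)
            (algebraMap k (algebraicClosure k Ω) f.leadingCoeff) = 0 :=
          congrArg (fun z : geomPro ℓ k F Ω => (z : Ω)) h11
        exact hlc0 ((_root_.map_eq_zero _).1 h12)
      · obtain ⟨e, -, he⟩ := Finset.prod_eq_zero_iff.1 h11
        exact h10 e he
    · exact h9 h8

end main

end Pool.Agent.R925.L
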