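import Pool.Agent.R925.L.Ram

/-! The local theorem for the twists by rotations. -/

set_option autoImplicit false
set_option linter.all false

open Polynomial FF

namespace Pool.Agent.R925.L

open Pool.Agent.Y157.PS Pool.Agent.Y157.GT Pool.Agent.Y31.PS Pool.Agent.R925.Q Pool.Agent.R925.X

theorem exists_ord {G : Type} [Group G] {ℓ : ℕ} [Fact ℓ.Prime] {g : G} {j : ℕ}
    (h : g ^ (ℓ ^ j) = 1) (h1 : g ≠ 1) : ∃ n : ℕ, g ^ (ℓ ^ n) ≠ 1 ∧ (g ^ (ℓ ^ n)) ^ ℓ = 1 := by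
  classical
  have hex : ∃ n : ℕ, g ^ (ℓ ^ n) = 1 := ⟨_, h⟩
  obtain ⟨n, hn⟩ : ∃ n, Nat.find hex = n := ⟨_, rfl⟩
  have hfind := Nat.find_spec hex
  rw [hn] at hfind
  rcases n with _ | n
  · exfalso
    rw [pow_zero, pow_one] at hfind
    exact h1 hfind
  · refine ⟨n, fun h3 => ?_, ?_⟩
    · have := Nat.find_min' hex h3
      omega
    · rw [← pow_mul, ← pow_succ, hfind]

/-- the data of the local theorem: `ρ ^ (ℓ ^ j)` and `δ ^ ℓ` are in the ground field, with the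
valuations `α`, not divisible by `ℓ ^ j`, and `β` -/
structure Data (ℓ j : ℕ) (A k κ : Type) [CommRing A] [IsDomain A] [IsDiscreteValuationRing A]
    [Field k] [Field κ] [Algebra A k] [Algebra k κ] [Algebra A κ] [IsScalarTower A k κ]
    (V : ValuationSubring κ) (ϖ : A) (ρ δ : κ) (α β : ℤ) : Prop where
  jpos : 1 ≤ j
  lunit : IsUnit (ℓ : A)
  mem : ∀ a : A, algebraMap A κ a ∈ V
  non : ∀ a ∈ IsLocalRing.maximalIdeal A, algebraMap A κ a ∈ V.nonunits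
  irr : Irreducible ϖ
  ndvd : ¬ ((ℓ ^ j : ℕ) : ℤ) ∣ α
  ρeq : ∃ t : A, IsUnit t ∧ ρ ^ (ℓ ^ j) = algebraMap A κ t * algebraMap A κ ϖ ^ α
  δeq : ∃ t : A, IsUnit t ∧ δ ^ ℓ = algebraMap A κ t * algebraMap A κ ϖ ^ β

section

variable {A k κ : Type} [CommRing A] [IsDomain A]
    [IsDiscreteValuationRing A] [Field k] [Field κ] [Algebra A k] [Algebra k κ] [Algebra A κ]
    [IsScalarTower A k κ] [IsFractionRing A k] [CharZero k] [IsAlgClosure k κ]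
    [Finite (IsLocalRing.ResidueField A)] {R M : Type} [Field R] [Field M] [Algebra κ R]
    [Algebra R M] [Algebra κ M] [IsScalarTower κ R M]

/-- the inertia group: a generator, and the elements which act trivially on `ρ` and `δ` -/
theorem Data.tame {ℓ j : ℕ} [Fact ℓ.Prime] {V : ValuationSubring κ} {ϖ : A} {ρ δ : κ} {α β : ℤ}
    (hd : Data ℓ j A k κ V ϖ ρ δ α β) :
    IsU V (ℓ : κ) ∧ ρ ≠ 0 ∧ δ ≠ 0 ∧ (∀ σ : κ ≃ₐ[k] κ, (σ ρ / ρ) ^ (ℓ ^ j) = 1) ∧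
    ∃ τ : κ ≃ₐ[k] κ, Ine V τ ∧ τ ρ / ρ ≠ 1 ∧
      (∀ n : ℕ, (τ ρ / ρ) ^ n = 1 → (τ ^ n) ρ = ρ) ∧
      (∀ n : ℕ, ℓ ∣ n → (τ ^ n) δ = δ) ∧
      ∀ σ : κ ≃ₐ[k] κ, Ine V σ → ∃ a : ℕ, (τ⁻¹ ^ a * σ) ρ = ρ ∧ (τ⁻¹ ^ a * σ) δ = δ := by
  have hac : IsAlgClosed κ := IsAlgClosure.isAlgClosed k
  have hp := (Fact.out : ℓ.Prime).pos
  have hm : 0 < ℓ ^ j := pow_pos hp j
  have hℓU : IsU V (ℓ : κ) := by
    have h1 := isU_of_unit (V := V) hd.mem hd.lunit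
    rwa [map_natCast] at h1
  have hmU : IsU V ((ℓ ^ j : ℕ) : κ) := isU_natpow hℓU j
  have hinj : Function.Injective (algebraMap A κ) := by
    rw [IsScalarTower.algebraMap_eq A k κ]
    exact (algebraMap k κ).injective.comp (IsFractionRing.injective A k)
  have hϖ0 : algebraMap A κ ϖ ≠ 0 := by
    intro h
    exact hd.irr.ne_zero (hinj (by rw [h, map_zero]))
  obtain ⟨t, ht, hρ⟩ := hd.ρeq
  obtain ⟨t', ht', hδ⟩ := hd.δeq
  have htU := isU_of_unit (V := V) hd.mem ht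
  have htU' := isU_of_unit (V := V) hd.mem ht'
  have hρ0 : ρ ≠ 0 := by
    rintro rfl
    rw [zero_pow hm.ne'] at hρ
    exact mul_ne_zero htU.1 (zpow_ne_zero _ hϖ0) hρ.symm
  have hδ0 : δ ≠ 0 := by
    rintro rfl
    rw [zero_pow hp.ne'] at hδ
    exact mul_ne_zero htU'.1 (zpow_ne_zero _ hϖ0) hδ.symm
  have hAk : ∀ (t : A) (n : ℤ), algebraMap A κ t * algebraMap A κ ϖ ^ n =
      algebraMap k κ (algebraMap A k t * algebraMap A k ϖ ^ n) := by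
    intro t n
    rw [map_mul, map_zpow₀, ← IsScalarTower.algebraMap_apply, ← IsScalarTower.algebraMap_apply]
  obtain ⟨Θ, hΘ⟩ := IsAlgClosed.exists_pow_nat_eq (algebraMap A κ ϖ) hm
  have hΘ0 : Θ ≠ 0 := by
    rintro rfl
    rw [zero_pow hm.ne'] at hΘ
    exact hϖ0 hΘ.symm
  obtain ⟨τ, hτ, hprim, hall⟩ := exists_tame (k := k) hd.lunit hd.mem hd.non hd.irr hd.jpos hΘ
  -- the action on `ρ`
  have hpow1 : (ρ / Θ ^ α) ^ (ℓ ^ j) = algebraMap A κ t := by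
    rw [div_pow, ← zpow_natCast (Θ ^ α), ← zpow_mul, mul_comm α, zpow_mul, zpow_natCast, hΘ, hρ,
      mul_div_cancel_right₀ _ (zpow_ne_zero _ hϖ0)]
  have hactρ : ∀ σ : κ ≃ₐ[k] κ, Ine V σ → σ ρ / ρ = (σ Θ / Θ) ^ α := fun σ hσ =>
    ine_rad hm hmU hσ hΘ0 (isU_of_pow hm (by rw [hpow1]; exact htU))
      ⟨algebraMap A k t, by rw [hpow1, IsScalarTower.algebraMap_apply A k κ]⟩
  -- the action on `δ`
  set θ : κ := Θ ^ (ℓ ^ (j - 1)) with hθ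
  have hθ0 : θ ≠ 0 := pow_ne_zero _ hΘ0
  have hθℓ : θ ^ ℓ = algebraMap A κ ϖ := by
    rw [hθ, ← pow_mul, ← pow_succ, Nat.sub_add_cancel hd.jpos, hΘ]
  have hpow2 : (δ / θ ^ β) ^ ℓ = algebraMap A κ t' := by
    rw [div_pow, ← zpow_natCast (θ ^ β), ← zpow_mul, mul_comm β, zpow_mul, zpow_natCast, hθℓ, hδ,
      mul_div_cancel_right₀ _ (zpow_ne_zero _ hϖ0)]
  have hactδ : ∀ σ : κ ≃ₐ[k] κ, Ine V σ → σ δ / δ = ((σ Θ / Θ) ^ (ℓ ^ (j - 1))) ^ β := by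
    intro σ hσ
    have h1 := ine_rad hp hℓU hσ hθ0 (isU_of_pow hp (by rw [hpow2]; exact htU'))
      ⟨algebraMap A k t', by rw [hpow2, IsScalarTower.algebraMap_apply A k κ]⟩
    rw [h1, hθ, map_pow, div_pow]
  have hτfix : τ (τ Θ / Θ) = τ Θ / Θ := ine_root hm hmU hτ hprim.pow_eq_one
  have hτi : ∀ n : ℕ, (τ ^ n) Θ / Θ = (τ Θ / Θ) ^ n := by
    have h1 : ∀ n : ℕ, (τ ^ n) Θ = (τ Θ / Θ) ^ n * Θ := by
      intro n
      induction n with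
      | zero => rw [pow_zero, pow_zero, one_mul]; rfl
      | succ n ih =>
        rw [pow_succ', AlgEquiv.mul_apply, ih, map_mul, map_pow, hτfix, pow_succ, mul_assoc,
          div_mul_cancel₀ _ hΘ0]
    intro n
    rw [h1, mul_div_cancel_right₀ _ hΘ0]
  refine ⟨hℓU, hρ0, hδ0, fun σ => ?_, τ, hτ, ?_, fun n hn => ?_, fun n hn => ?_, fun σ hσ => ?_⟩
  · rw [div_pow, ← map_pow, hρ, hAk, σ.commutes, ← hAk, div_self]
    exact mul_ne_zero htU.1 (zpow_ne_zero _ hϖ0)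
  · rw [hactρ τ hτ]
    intro h
    exact hd.ndvd ((hprim.zpow_eq_one_iff_dvd α).1 h)
  · have h1 := hactρ (τ ^ n) (hτ.pow n)
    rw [hτi, ← zpow_natCast (τ Θ / Θ), ← zpow_mul, mul_comm (n : ℤ), zpow_mul, ← hactρ τ hτ,
      zpow_natCast, hn, div_eq_one_iff_eq hρ0] at h1
    exact h1
  · have h1 := hactδ (τ ^ n) (hτ.pow n)
    rw [hτi] at h1
    obtain ⟨c, rfl⟩ := hn
    have h2 : ((τ Θ / Θ) ^ (ℓ * c)) ^ (ℓ ^ (j - 1)) = 1 := by
      rw [← pow_mul]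
      have h3 : ℓ * c * ℓ ^ (j - 1) = ℓ ^ j * c := by
        obtain ⟨j', hj'⟩ : ∃ j', j = j' + 1 := ⟨j - 1, by have := hd.jpos; omega⟩
        rw [hj', Nat.add_sub_cancel, pow_succ]; ring
      rw [h3, pow_mul, hprim.pow_eq_one, one_pow]
    rw [h2, one_zpow, div_eq_one_iff_eq hδ0] at h1
    exact h1
  · obtain ⟨a, ha⟩ := hall σ hσ
    have hI : Ine V (τ⁻¹ ^ a * σ) := (hτ.inv.pow a).mul hσ
    refine ⟨a, ?_, ?_⟩
    · have h1 := hactρ _ hI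
      rw [ha, div_self hΘ0, one_zpow, div_eq_one_iff_eq hρ0] at h1
      exact h1
    · have h1 := hactδ _ hI
      rw [ha, div_self hΘ0, one_pow, one_zpow, div_eq_one_iff_eq hδ0] at h1
      exact h1

end

end Pool.Agent.R925.L
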