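import Pool.Agent.R925.L.Loc

/-! The local theorem for the twists by rotations: the proof. -/

set_option autoImplicit false
set_option linter.all false

open Polynomial FF

namespace Pool.Agent.R925.L

open Pool.Agent.Y157.PS Pool.Agent.Y157.GT Pool.Agent.Y31.PS Pool.Agent.R925.Q Pool.Agent.R925.X

variable {A k κ : Type} [CommRing A] [IsDomain A]
    [IsDiscreteValuationRing A] [Field k] [Field κ] [Algebra A k] [Algebra k κ] [Algebra A κ]
    [IsScalarTower A k κ] [IsFractionRing A k] [CharZero k] [IsAlgClosure k κ]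
    [Finite (IsLocalRing.ResidueField A)] {R M : Type} [Field R] [Field M] [Algebra κ R]
    [Algebra R M] [Algebra κ M] [IsScalarTower κ R M]

/-- **the local theorem** -/
theorem locR {ℓ j : ℕ} [Fact ℓ.Prime] {V : ValuationSubring κ} {ϖ : A} {ρ δ : κ} {α β : ℤ}
    (hd : Data ℓ j A k κ V ϖ ρ δ α β) {x : R} {B : Finset κ} {Y : M} (hC : Cov ℓ κ R M x B Y)
    (hG : Good V B) (hB : ∀ ζ : κ, ζ ^ (ℓ ^ j) = 1 → ∀ e ∈ B, ζ * e ∈ B) (h0 : (0 : κ) ∉ B)
    {F : Type} [Field F] {r : V →+* F} (hr : Res V r) (D : Disc ℓ V r)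
    {s : (κ ≃ₐ[k] κ) →* RingAut M} (hs : Sec2 k κ R M x Y ρ δ s) :
    ∃ W : Place κ M, W.ord (algebraMap R M x) ≠ 0 ∧ (∀ σ : κ ≃ₐ[k] κ, Dec V σ → Fixes W (s σ)) ∧
      ∀ W' : Place κ M, (W'.ord (algebraMap R M x) ≠ 0 ∨
          ∃ e ∈ B, 0 < W'.ord (algebraMap R M x - algebraMap κ M e)) →
        (∀ σ : κ ≃ₐ[k] κ, Dec V σ → Fixes W' (s σ)) → W' = W := by
  have hac : IsAlgClosed κ := IsAlgClosure.isAlgClosed k
  have hcz : CharZero κ := charZero_of_injective_algebraMap (algebraMap k κ).injective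
  have hp := (Fact.out : ℓ.Prime).pos
  have hm : 0 < ℓ ^ j := pow_pos hp j
  obtain ⟨hℓU, hρ0, hδ0, hrt, τ, hτ, hζ1, hτρ, hτδ, hall⟩ := hd.tame
  have hmU : IsU V ((ℓ ^ j : ℕ) : κ) := isU_natpow hℓU j
  -- the Gauss valuation
  have hRot := a_gex ℓ κ R M x B Y hC F V r hr hG D
  obtain ⟨e0, he0⟩ : B.Nonempty := by
    rw [← Finset.card_pos]
    have := hC.three
    omega
  obtain ⟨O, -, -, hO, -⟩ := hRot e0 he0
  have hun : ∀ O' : ValuationSubring M, Gauss V (algebraMap R M x) O' → O' = O :=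
    fun O' h => a_gun ℓ κ R M x B Y hC V hRot O' O h hO
  have hinf : ¬ FiniteDimensional R M := inf_of_rot hC fun e he => by
    obtain ⟨-, c, W, -, -, h3, h4, h5⟩ := hRot e he
    exact ⟨c, W, h3, h4, h5⟩
  set X := algebraMap R M x with hX
  have htr : Transcendental κ X := trX hC
  have hX0 : X ≠ 0 := by
    intro h
    exact htr (h ▸ isAlgebraic_zero)
  have st : ∀ σ : κ ≃ₐ[k] κ, Dec V σ → ∀ z, s σ z ∈ O ↔ z ∈ O := fun σ hσ =>
    stable2 hO hun (s σ) (σ : κ ≃+* κ) (hs.const σ) (isU_root hm (hrt σ)) (hs.fixx σ) hσ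
  have stn : ∀ σ : κ ≃ₐ[k] κ, Dec V σ → ∀ z, s σ z ∈ O.nonunits ↔ z ∈ O.nonunits := fun σ hσ =>
    stable_non (st σ hσ)
  have wgt : ∀ σ : κ ≃ₐ[k] κ, Ine V σ → σ ρ = ρ → σ δ = δ → ∀ z ∈ O, s σ z - z ∈ O.nonunits :=
    fun σ hσ h1 h2 z hz =>
      wgt2 hd.lunit hd.mem hd.non hC hG hr D hρ0 hδ0 hs hO hun hσ h1 h2 hz
  have smul : ∀ (σ σ' : κ ≃ₐ[k] κ) z, s (σ * σ') z = s σ (s σ' z) := by
    intro σ σ' z
    rw [map_mul]; rfl
  have sinv : ∀ (σ : κ ≃ₐ[k] κ) z, s σ⁻¹ (s σ z) = z := by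
    intro σ z
    rw [← smul, inv_mul_cancel, map_one]; rfl
  have sinv' : ∀ (σ : κ ≃ₐ[k] κ) z, s σ (s σ⁻¹ z) = z := by
    intro σ z
    rw [← smul, mul_inv_cancel, map_one]; rfl
  set ζ := τ ρ / ρ with hζ
  have hζm : ζ ^ (ℓ ^ j) = 1 := hrt τ
  have UL : ∀ (γ γ' : M ≃ₐ[κ] M) (a a' : κ), a ^ (ℓ ^ j) = 1 → a' ^ (ℓ ^ j) = 1 →
      γ X = algebraMap κ M a * X → γ' X = algebraMap κ M a' * X →
      (∀ z ∈ O, γ z - γ' z ∈ O.nonunits) → γ = γ' := fun γ γ' a a' h1 h2 h3 h4 h5 =>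
    unique_lift2 hC hm hmU hℓU hO hun h1 h2 h3 h4 h5
  -- the lift of `s τ`
  obtain ⟨γ, hγX, hγ⟩ := exists_lift2 hC hm hB hO hun (s τ) (st τ hτ.1) (fun c hc => by
    rw [hs.const, ← map_sub, hO.nonunit]; exact hτ.2 c hc) hζm (hs.fixx τ)
  have hγn : ∀ n : ℕ, (γ ^ n) X = algebraMap κ M (ζ ^ n) * X := by
    intro n
    induction n with
    | zero => rw [pow_zero, pow_zero, map_one, one_mul]; rfl
    | succ n ih =>
      rw [pow_succ, AlgEquiv.mul_apply, hγX, map_mul, (γ ^ n).commutes, ih, pow_succ, map_mul]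
      ring
  have hζn : ∀ n : ℕ, (ζ ^ n) ^ (ℓ ^ j) = 1 := by
    intro n
    rw [← pow_mul, mul_comm, pow_mul, hζm, one_pow]
  have gt : ∀ z, γ z ∈ O ↔ z ∈ O := stable3 hO hun γ hm hζm hγX
  have hpow : ∀ (n : ℕ), ∀ z ∈ O, (γ ^ n) z - s (τ ^ n) z ∈ O.nonunits := by
    intro n
    induction n with
    | zero =>
      intro z hz
      rw [pow_zero, pow_zero, map_one]
      change z - z ∈ _
      rw [sub_self]; exact nonunits_iff.2 ⟨zero_mem _, Or.inl rfl⟩
    | succ n ih =>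
      intro z hz
      rw [pow_succ, pow_succ, smul]
      change (γ ^ n) (γ z) - _ ∈ _
      have h1 : (γ ^ n) (γ z) - s (τ ^ n) (s τ z) =
          ((γ ^ n) (γ z) - s (τ ^ n) (γ z)) + s (τ ^ n) (γ z - s τ z) := by
        rw [map_sub]; ring
      rw [h1]
      exact non_add (ih _ ((gt z).2 hz)) ((stn _ (hτ.pow n).1 _).2 (hγ z hz))
  have htriv : ∀ n : ℕ, ζ ^ n = 1 → ℓ ∣ n → γ ^ n = 1 := by
    intro n hn hn'
    refine UL _ _ (ζ ^ n) 1 (hζn n) (one_pow _) (hγn n) (by rw [map_one, one_mul]; rfl) ?_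
    intro z hz
    change (γ ^ n) z - z ∈ _
    have h1 : (γ ^ n) z - z = ((γ ^ n) z - s (τ ^ n) z) + (s (τ ^ n) z - z) := by ring
    rw [h1]
    exact non_add (hpow n z hz) (wgt _ (hτ.pow n) (hτρ n hn) (hτδ n hn') z hz)
  have hγm : γ ^ (ℓ ^ j) = 1 := htriv _ hζm (dvd_pow_self ℓ (by have := hd.jpos; omega))
  have hγ1 : γ ≠ 1 := by
    intro h
    apply hζ1
    rw [h] at hγX
    have h1 : algebraMap κ M ζ * X = 1 * X := by rw [← hγX, one_mul]; rfl
    have h2 := mul_right_cancel₀ hX0 h1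
    rw [← map_one (algebraMap κ M)] at h2
    exact (algebraMap κ M).injective h2
  -- the power of order `ℓ`
  obtain ⟨n, hηne, hηℓ⟩ := exists_ord hγm hγ1
  set η := γ ^ (ℓ ^ n) with hη
  have hηX : η X = algebraMap κ M (ζ ^ (ℓ ^ n)) * X := hγn _
  have hζη : ζ ^ (ℓ ^ n) ≠ 1 := by
    intro h
    rcases Nat.eq_zero_or_pos n with h1 | h1
    · rw [h1, pow_zero, pow_one] at h
      exact hζ1 h
    · exact hηne (htriv _ h (dvd_pow_self ℓ (by omega)))
  have hηs : StR R η := stR_of_rot hC.rat hηX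
  obtain ⟨W, hW⟩ := exf3 hC η hηℓ hηne hηs
  have hWX : W.ord X ≠ 0 := by
    intro h
    exact hζη (eig_one hC hW hX0 h hηX)
  -- the image of the section fixes `W`
  have hfix : ∀ σ : κ ≃ₐ[k] κ, Dec V σ → Fixes W (s σ) := by
    intro σ hσ
    obtain ⟨η', hη'⟩ := conjS (s := s) hs.const γ σ
    obtain ⟨a, ha1, ha2⟩ := hall (σ⁻¹ * τ * σ) (Ine.conj hσ hτ)
    have hρI : Ine V (τ⁻¹ ^ a * (σ⁻¹ * τ * σ)) := (hτ.inv.pow a).mul (Ine.conj hσ hτ)
    have hη'X : η' X = algebraMap κ M (σ⁻¹ ζ) * X := by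
      apply (s σ).injective
      rw [hη', hs.fixx, map_mul, γ.commutes, hγX, map_mul, hs.const, hs.fixx]
      have h1 : σ (σ⁻¹ ζ) = ζ := σ.apply_symm_apply ζ
      rw [h1]
      ring
    have hηγ : η' = γ ^ a := by
      refine UL _ _ (σ⁻¹ ζ) (ζ ^ a) (by rw [← map_pow, hζm, map_one]) (hζn a) hη'X (hγn a) ?_
      intro z hz
      have h1 : s (σ⁻¹ * τ * σ) z = s σ⁻¹ (s τ (s σ z)) := by rw [smul, smul]
      have h2 : σ⁻¹ * τ * σ = τ ^ a * (τ⁻¹ ^ a * (σ⁻¹ * τ * σ)) := by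
        rw [inv_pow, mul_inv_cancel_left]
      have h0' : η' z = s σ⁻¹ (γ (s σ z)) := by
        rw [← hη', sinv]
      have h3 : η' z - s (σ⁻¹ * τ * σ) z ∈ O.nonunits := by
        rw [h1, h0', ← map_sub]
        exact (stn _ hσ.inv _).2 (hγ _ ((st σ hσ z).2 hz))
      have h4 : s (σ⁻¹ * τ * σ) z - s (τ ^ a) z ∈ O.nonunits := by
        rw [h2, smul, ← map_sub]
        exact (stn _ (hτ.pow a).1 _).2 (wgt _ hρI ha1 ha2 z hz)
      have h5 := hpow a z hz
      have h6 : η' z - (γ ^ a) z = (η' z - s (σ⁻¹ * τ * σ) z) +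
          ((s (σ⁻¹ * τ * σ) z - s (τ ^ a) z) - ((γ ^ a) z - s (τ ^ a) z)) := by ring
      rw [h6]
      exact non_add h3 (non_sub h4 h5)
    have hconj : ∀ (i : ℕ) z, s σ ((η' ^ i) z) = (γ ^ i) (s σ z) := by
      intro i
      induction i with
      | zero => intro z; rfl
      | succ i ih =>
        intro z
        rw [pow_succ, AlgEquiv.mul_apply, ih, hη', pow_succ, AlgEquiv.mul_apply]
    have hηa : η' ^ (ℓ ^ n) = η ^ a := by rw [hηγ, hη, ← pow_mul, ← pow_mul, mul_comm]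
    have h1 : (η ^ a) ^ ℓ = 1 := by rw [← pow_mul, mul_comm, pow_mul, hηℓ, one_pow]
    have h2 : η ^ a ≠ 1 := by
      intro h
      apply hηne
      ext z
      have h3 := hconj (ℓ ^ n) (s σ⁻¹ z)
      rw [hηa, h, sinv'] at h3
      rw [← hη] at h3
      rw [← h3]
      change s σ (s σ⁻¹ z) = _
      rw [sinv']; rfl
    have h4 : StR R (η ^ a) := hηs.pow a
    let Wσ := Place.comapEquiv W (s σ) (σ : κ ≃+* κ) (hs.const σ)
    have h5 : Wσ = W := by
      refine unq3 hC hinf h1 h2 h4 (W := Wσ) (W' := W) ?_ (Fixes_pow' hW a)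
      intro z
      change W.ord (s σ ((η ^ a) z)) = W.ord (s σ z)
      rw [← hηa, hconj, ← hη, hW]
    intro z
    change Wσ.ord z = W.ord z
    rw [h5]
  refine ⟨W, hWX, hfix, ?_⟩
  -- uniqueness
  have heU : ∀ e ∈ B, IsU V e := by
    intro e he
    have h1 : ζ * e ∈ B := hB ζ hζm e he
    have he' : e ≠ 0 := fun h => h0 (h ▸ he)
    have h2 : ζ * e ≠ e := by
      intro h
      exact hζ1 (mul_right_cancel₀ he' (h.trans (one_mul e).symm))
    have h3 := hG.2 _ h1 _ he h2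
    have h4 : ζ - 1 ∈ V := sub_mem (isU_root hm hζm).2.1 (one_mem _)
    refine ⟨he', hG.1 e he, ?_⟩
    have h5 : ζ - 1 ≠ 0 := sub_ne_zero.2 hζ1
    have h6 : e⁻¹ = (ζ - 1) * (ζ * e - e)⁻¹ := by
      have h7 : ζ * e - e = (ζ - 1) * e := by ring
      rw [h7, mul_inv]
      field_simp
    rw [h6]
    exact mul_mem h4 h3.2.2
  have hτζ : τ ζ = ζ := ine_root hm hmU hτ hζm
  rintro W' hW' hfix'
  rcases hW' with hW' | ⟨e, he, hW'e⟩
  swap
  · exfalso
    have h1 := hfix' τ hτ.1 (X - algebraMap κ M e)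
    rw [map_sub, hs.const, hs.fixx, ← hζ] at h1
    have hζ0 : ζ ≠ 0 := by
      intro h
      rw [h, zero_pow hm.ne'] at hζm
      exact zero_ne_one hζm
    have h2 : algebraMap κ M ζ * X - algebraMap κ M (τ e) =
        algebraMap κ M ζ * (X - algebraMap κ M (ζ⁻¹ * τ e)) := by
      rw [mul_sub, ← map_mul, mul_inv_cancel_left₀ hζ0]
    by_cases h3 : e = ζ⁻¹ * τ e
    · have h4 : τ e = ζ * e := by
        rw [eq_inv_mul_iff_mul_eq₀ hζ0] at h3
        exact h3.symm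
      have h5 := hτ.2 e (hG.1 e he)
      rw [h4] at h5
      have h6 : ζ * e - e = e * (ζ - 1) := by ring
      rw [h6] at h5
      have h7 := non_of_isU_mul (heU e he) h5
      exact hζ1 (root_eq hmU hm hζm (one_pow _) h7)
    · have h4 := ord_sub_const hW'e h3
      have h5 : X - algebraMap κ M (ζ⁻¹ * τ e) ≠ 0 := by
        intro h
        apply htr
        rw [sub_eq_zero.1 h]
        exact isAlgebraic_algebraMap _
      rw [h2, W'.ord_mul ((_root_.map_ne_zero _).2 hζ0) h5, W'.ord_const hζ0, h4] at h1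
      omega
  · obtain ⟨c, hcX, hcW⟩ := exists_rotW hC hm hB hζm hW'
    -- `s τ` commutes with `c`
    obtain ⟨θ, hθ⟩ := conjS (s := s) hs.const c τ
    have hθX : θ X = c X := by
      apply (s τ).injective
      rw [hθ, hcX, hs.fixx, ← hζ, map_mul, c.commutes, hcX, map_mul, hs.const, hs.fixx, ← hζ, hτζ]
    have hθW : Fixes W' θ := by
      intro z
      rw [← hfix' τ hτ.1 (θ z), hθ, hcW, hfix' τ hτ.1]
    have hθc : θ = c := stabX hC h0 hW' hθW hcW hθX
    have hcomm : ∀ z, s τ (c z) = c (s τ z) := by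
      intro z
      rw [← hθ, hθc]
    have hcO := stable3 hO hun c hm hζm hcX
    have hcN := stable_non (τ := (c : M ≃+* M)) hcO
    have hcomm' : γ * c = c * γ := by
      have hmm : (ζ * ζ) ^ (ℓ ^ j) = 1 := by rw [mul_pow, hζm, one_mul]
      refine UL _ _ (ζ * ζ) (ζ * ζ) hmm hmm ?_ ?_ ?_
      · rw [AlgEquiv.mul_apply, hcX, map_mul, γ.commutes, hγX, map_mul]; ring
      · rw [AlgEquiv.mul_apply, hγX, map_mul, c.commutes, hcX, map_mul]; ring
      · intro z hz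
        change γ (c z) - c (γ z) ∈ _
        have h1 : γ (c z) - c (γ z) = (γ (c z) - s τ (c z)) - c (γ z - s τ z) := by
          rw [hcomm, map_sub]; ring
        rw [h1]
        exact non_sub (hγ _ ((hcO z).2 hz)) ((hcN _).2 (hγ z hz))
    have hcn : ∀ n : ℕ, (c ^ n) X = algebraMap κ M (ζ ^ n) * X := by
      intro n
      induction n with
      | zero => rw [pow_zero, pow_zero, map_one, one_mul]; rfl
      | succ n ih =>
        rw [pow_succ, AlgEquiv.mul_apply, hcX, map_mul, (c ^ n).commutes, ih, pow_succ, map_mul]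
        ring
    have hcm : c ^ (ℓ ^ j) = 1 := by
      refine stabX hC h0 hW' (Fixes_pow' hcW _) (fun z => rfl) ?_
      rw [← hX, hcn, hζm, map_one, one_mul]; rfl
    have hcm' : Commute γ c⁻¹ := (show Commute γ c from hcomm').inv_right
    have hμX : (γ * c⁻¹) X = X := by
      rw [AlgEquiv.mul_apply]
      have h1 : (c⁻¹ : M ≃ₐ[κ] M) X = algebraMap κ M ζ⁻¹ * X := by
        change c.symm X = _
        have hζ0 : ζ ≠ 0 := by
          intro h
          rw [h, zero_pow hm.ne'] at hζm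
          exact zero_ne_one hζm
        rw [AlgEquiv.symm_apply_eq, map_mul, c.commutes, hcX, ← mul_assoc, ← map_mul,
          inv_mul_cancel₀ hζ0, map_one, one_mul]
      have hζ0 : ζ ≠ 0 := by
        intro h
        rw [h, zero_pow hm.ne'] at hζm
        exact zero_ne_one hζm
      rw [h1, map_mul, γ.commutes, hγX, ← mul_assoc, ← map_mul, inv_mul_cancel₀ hζ0, map_one,
        one_mul]
    have hμm : (γ * c⁻¹) ^ (ℓ ^ j) = 1 := by
      rw [hcm'.mul_pow, hγm, inv_pow, hcm, inv_one, mul_one]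
    obtain ⟨g, hg⟩ := toR hC.rat (γ * c⁻¹) hμX
    have hgi : ∀ (i : ℕ) z, (g ^ i) z = ((γ * c⁻¹) ^ i) z := by
      intro i
      induction i with
      | zero => intro z; rfl
      | succ i ih => intro z; rw [pow_succ, AlgEquiv.mul_apply, ih, hg, pow_succ]; rfl
    have hg1 : g = 1 := by
      by_contra hne
      have hgm : g ^ (ℓ ^ j) = 1 := by
        ext z
        rw [hgi, hμm]; rfl
      obtain ⟨i, hi1, hi2⟩ := exists_ord hgm hne
      obtain ⟨W₂, hW₂⟩ := a_exf ℓ κ R M x B Y hC _ hi2 hi1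
      obtain ⟨-, e, he, hW₂e, -⟩ := hC.fixed a_stab W₂ _ hW₂ hi1
      have hcc : ∀ z, c ((g ^ (ℓ ^ i)) z) = (g ^ (ℓ ^ i)) (c z) := by
        intro z
        rw [hgi, hgi]
        have h1 : Commute c ((γ * c⁻¹) ^ (ℓ ^ i)) := by
          refine Commute.pow_right ?_ _
          exact (show Commute c γ from hcomm'.symm).mul_right (Commute.refl c).inv_right
        exact DFunLike.congr_fun h1.eq z
      have h2 : pl W₂ c = W₂ := by
        refine a_unq ℓ κ R M x B Y hC _ hi2 hi1 (pl W₂ c) W₂ (fun z => ?_) hW₂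
        rw [pl_ord, pl_ord, hcc, hW₂]
      have h3 : Fixes W₂ c := (fixes_iff W₂ c).2 h2
      have h4 : W₂.ord X = 0 := by
        have he' : e ≠ 0 := fun h => h0 (h ▸ he)
        have := ord_sub_const hW₂e he'
        rwa [map_zero, sub_zero] at this
      exact hζ1 (eig_one hC h3 hX0 h4 hcX)
    have hγc : γ = c := by
      have h1 : γ * c⁻¹ = 1 := by
        ext z
        rw [← hg, hg1]; rfl
      rwa [mul_inv_eq_one] at h1
    exact unq3 hC hinf hηℓ hηne hηs (by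
      rw [hη, hγc]
      exact Fixes_pow' hcW _) hW

end Pool.Agent.R925.L
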