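import Pool.Agent.R925.L.Geo

/-! Twists by rotations: the local theorem for all covers. -/

set_option autoImplicit false
set_option linter.all false

open Polynomial FF

namespace Pool.Agent.R925.L

open Pool.Agent.Y157.PS Pool.Agent.Y31.PS Pool.Agent.R925.Q Pool.Agent.R925.X

/-- nonzero elements of the field of fractions of a discrete valuation ring -/
theorem exists_unit_zpow {A k : Type} [CommRing A] [IsDomain A] [IsDiscreteValuationRing A]
    [Field k] [Algebra A k] [IsFractionRing A k] {ϖ : A} (hϖ : Irreducible ϖ) {d : k}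
    (hd : d ≠ 0) : ∃ (t : A) (β : ℤ), IsUnit t ∧ d = algebraMap A k t * algebraMap A k ϖ ^ β := by
  have hinj := IsFractionRing.injective A k
  obtain ⟨p, q, hq, rfl⟩ := IsFractionRing.div_surjective (A := A) d
  have hq0 : q ≠ 0 := nonZeroDivisors.ne_zero hq
  have hp0 : p ≠ 0 := by
    rintro rfl
    rw [map_zero, zero_div] at hd
    exact hd rfl
  have hϖ0 : algebraMap A k ϖ ≠ 0 := by
    rw [Ne, map_eq_zero_iff _ hinj]
    exact hϖ.ne_zero
  obtain ⟨n, u, hp⟩ := IsDiscreteValuationRing.eq_unit_mul_pow_irreducible hp0 hϖ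
  obtain ⟨n', u', hq'⟩ := IsDiscreteValuationRing.eq_unit_mul_pow_irreducible hq0 hϖ
  refine ⟨(u : A) * ((u'⁻¹ : Aˣ) : A), (n : ℤ) - n', u.isUnit.mul u'⁻¹.isUnit, ?_⟩
  have hu' : algebraMap A k (u' : A) ≠ 0 := by
    rw [Ne, map_eq_zero_iff _ hinj]
    exact u'.ne_zero
  have hu2 : algebraMap A k ((u'⁻¹ : Aˣ) : A) = (algebraMap A k (u' : A))⁻¹ := by
    refine (inv_eq_of_mul_eq_one_right ?_).symm
    rw [← map_mul, Units.mul_inv, map_one]
  rw [hp, hq', map_mul, map_mul, map_mul, map_pow, map_pow, hu2, zpow_sub₀ hϖ0, zpow_natCast,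
    zpow_natCast]
  field_simp

section

variable {A k κ : Type} [CommRing A] [IsDomain A] [IsDiscreteValuationRing A]
    [Finite (IsLocalRing.ResidueField A)] [Field k] [CharZero k] [Algebra A k] [IsFractionRing A k]
    [Field κ] [Algebra k κ] [Algebra A κ] [IsScalarTower A k κ] [IsAlgClosure k κ]

theorem key_sep (V : ValuationSubring κ) (hVa : ∀ a : A, algebraMap A κ a ∈ V)
    (hVm : ∀ a ∈ IsLocalRing.maximalIdeal A, algebraMap A κ a ∈ V.nonunits)
    (f : A[X]) (hlc : IsUnit f.leadingCoeff)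
    (hs : (f.map (IsLocalRing.residue A)).Separable) : (f.map (algebraMap A k)).Separable := by
  have hkb : IsAlgClosed κ := IsAlgClosure.isAlgClosed k
  obtain ⟨hnd, -⟩ := Pool.Agent.W623.SecC.roots_distinct V hVa hVm f hlc hs
  have hlc0 : algebraMap A κ f.leadingCoeff ≠ 0 := (hlc.map (algebraMap A κ)).ne_zero
  have hf0 : f.map (algebraMap A κ) ≠ 0 := by
    intro h
    apply hlc0
    rw [← leadingCoeff_map_of_leadingCoeff_ne_zero _ hlc0, h, leadingCoeff_zero]
  have h1 : (f.map (algebraMap A κ)).Separable :=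
    (Polynomial.nodup_roots_iff_of_splits hf0 (IsAlgClosed.splits _)).1 hnd
  rw [← separable_map (algebraMap k κ), map_map, ← IsScalarTower.algebraMap_eq A k κ]
  exact h1

theorem key_loc (V : ValuationSubring κ) (hVa : ∀ a : A, algebraMap A κ a ∈ V)
    (hVm : ∀ a ∈ IsLocalRing.maximalIdeal A, algebraMap A κ a ∈ V.nonunits)
    {ℓ : ℕ} [Fact ℓ.Prime] (hℓ : IsUnit (ℓ : A)) {j : ℕ} (hj : 1 ≤ j) (g : A[X])
    (hlc : IsUnit g.leadingCoeff)
    (hs : ((expand A (ℓ ^ j) g).map (IsLocalRing.residue A)).Separable)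
    (ϖ : A) (hϖ : Irreducible ϖ) (a d : k) (α : ℤ) (hα : ¬ ((ℓ ^ j : ℕ) : ℤ) ∣ α) (t : A)
    (ht : IsUnit t) (ha : a = algebraMap A k t * algebraMap A k ϖ ^ α) (hd0 : d ≠ 0) {ρ δ : κ}
    (hρ : ρ ^ (ℓ ^ j) = algebraMap k κ a)
    (hδ : δ ^ ℓ = algebraMap k κ (d / (g.map (algebraMap A k)).leadingCoeff)) :
    Key ℓ k κ (expand k (ℓ ^ j) (g.map (algebraMap A k))) ρ δ (Dec V) := by
  have hkb : IsAlgClosed κ := IsAlgClosure.isAlgClosed k
  have hm : 0 < ℓ ^ j := pow_pos (Fact.out : ℓ.Prime).pos j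
  have hm2 : 2 ≤ ℓ ^ j := by
    calc 2 ≤ ℓ := (Fact.out : ℓ.Prime).two_le
      _ = ℓ ^ 1 := (pow_one ℓ).symm
      _ ≤ ℓ ^ j := Nat.pow_le_pow_right (Fact.out : ℓ.Prime).pos hj
  have hinj := IsFractionRing.injective A k
  have hlck : (g.map (algebraMap A k)).leadingCoeff = algebraMap A k g.leadingCoeff :=
    leadingCoeff_map_of_injective hinj g
  have hlc0 : algebraMap A k g.leadingCoeff ≠ 0 := by
    rw [Ne, map_eq_zero_iff _ hinj]
    exact hlc.ne_zero
  have hexp : expand k (ℓ ^ j) (g.map (algebraMap A k)) =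
      (expand A (ℓ ^ j) g).map (algebraMap A k) := (map_expand).symm
  have hlce : IsUnit (expand A (ℓ ^ j) g).leadingCoeff := by
    rw [leadingCoeff_expand hm]
    exact hlc
  have hsep : (expand k (ℓ ^ j) (g.map (algebraMap A k))).Separable := by
    rw [hexp]
    exact key_sep V hVa hVm _ hlce hs
  -- the data
  have hd : ∃ β : ℤ, Data ℓ j A k κ V ϖ ρ δ α β := by
    obtain ⟨t', β, ht', hdt⟩ := exists_unit_zpow (A := A) hϖ (d := d / algebraMap A k g.leadingCoeff)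
      (div_ne_zero hd0 hlc0)
    refine ⟨β, hj, hℓ, hVa, hVm, hϖ, hα, ⟨t, ht, ?_⟩, ⟨t', ht', ?_⟩⟩
    · rw [hρ, ha, map_mul, map_zpow₀, ← IsScalarTower.algebraMap_apply,
        ← IsScalarTower.algebraMap_apply]
    · rw [hδ, hlck, hdt, map_mul, map_zpow₀, ← IsScalarTower.algebraMap_apply,
        ← IsScalarTower.algebraMap_apply]
  obtain ⟨β, hd⟩ := hd
  intro R M _ _ _ _ _ _ x B Y hmemB hC s hsec
  obtain ⟨hnd, hdist⟩ := Pool.Agent.W623.SecC.roots_distinct V hVa hVm (expand A (ℓ ^ j) g) hlce hs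
  have hmemB' : ∀ θ, θ ∈ B ↔ aeval θ (expand A (ℓ ^ j) g) = 0 := by
    intro θ
    rw [hmemB, hexp, aeval_map_algebraMap]
  have hP0 : (expand A (ℓ ^ j) g).map (algebraMap A κ) ≠ 0 := by
    have hlc1 : algebraMap A κ (expand A (ℓ ^ j) g).leadingCoeff ≠ 0 :=
      (hlce.map (algebraMap A κ)).ne_zero
    intro h
    apply hlc1
    rw [← leadingCoeff_map_of_leadingCoeff_ne_zero _ hlc1, h, leadingCoeff_zero]
  have hroots : ∀ θ, θ ∈ B ↔ θ ∈ ((expand A (ℓ ^ j) g).map (algebraMap A κ)).roots := by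
    intro θ
    rw [hmemB', mem_roots hP0, IsRoot.def, eval_map]
    rfl
  have hGood : Good V B := by
    constructor
    · intro e he
      exact Pool.Agent.W308.SecC.root_mem V hVa _ hlce _ ((hmemB' _).1 he)
    · intro e he e' he' hne
      exact hdist e ((hroots _).1 he) e' ((hroots _).1 he') hne
  have hB : ∀ ζ : κ, ζ ^ (ℓ ^ j) = 1 → ∀ e ∈ B, ζ * e ∈ B := by
    intro ζ hζ e he
    rw [hmemB, expand_aeval] at he ⊢
    rw [mul_pow, hζ, one_mul, he]
  have h0 : (0 : κ) ∉ B := fun h => expand_zero hm2 _ hsep ((hmemB 0).1 h)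
  obtain ⟨F0, iF0, r, hr, ⟨D⟩⟩ := a_ndisc A k κ V hVa hVm ℓ hℓ
  exact locR hd hC hGood hB h0 hr D hsec

end

end Pool.Agent.R925.L
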