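import Pool.Agent.R925.L.Fin

/-! Twists by rotations: primes of number fields. -/

set_option autoImplicit false
set_option linter.all false

open Polynomial FF NumberField IsDedekindDomain

namespace Pool.Agent.R925.L

open Pool.Agent.Y157.PS

/-- the local ring of `v` has the properties needed -/
theorem nf_data {K : Type} [Field K] [NumberField K] (v : HeightOneSpectrum (𝓞 K)) (ℓ n : ℕ)
    (hn : 0 < n)
    (hℓ : (ℓ : 𝓞 K) ∉ v.asIdeal) (g : (𝓞 K)[X]) (hlc : g.leadingCoeff ∉ v.asIdeal)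
    (hs : ((expand (𝓞 K) n g).map (Ideal.Quotient.mk v.asIdeal)).Separable)
    (b : 𝓞 K) (r : ℕ) (hb : b ∈ v.asIdeal ^ r) (hb' : b ∉ v.asIdeal ^ (r + 1)) :
    ∃ (A : Type) (_ : CommRing A) (_ : IsDomain A) (_ : IsDiscreteValuationRing A)
      (_ : Algebra A K), Finite (IsLocalRing.ResidueField A) ∧ IsFractionRing A K ∧
      IsUnit (ℓ : A) ∧ (∃ f : A[X], f.map (algebraMap A K) = g.map (algebraMap (𝓞 K) K) ∧
        (expand A n f).natDegree = (expand (𝓞 K) n g).natDegree ∧ IsUnit f.leadingCoeff ∧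
        ((expand A n f).map (IsLocalRing.residue A)).Separable) ∧
      (∃ ϖ t : A, Irreducible ϖ ∧ IsUnit t ∧
          algebraMap (𝓞 K) K b = algebraMap A K t * algebraMap A K ϖ ^ (r : ℤ)) ∧
      ∀ (κ : Type) [Field κ] [Algebra K κ] (V : ValuationSubring κ),
        (∀ c ∈ v.asIdeal, algebraMap K κ (algebraMap (𝓞 K) K c) ∈ V.nonunits) →
        (∀ a : A, algebraMap K κ (algebraMap A K a) ∈ V) ∧
        ∀ a ∈ IsLocalRing.maximalIdeal A, algebraMap K κ (algebraMap A K a) ∈ V.nonunits := by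
  classical
  have hvm : v.asIdeal.IsMaximal := v.isMaximal
  have hvp : v.asIdeal.IsPrime := v.isPrime
  have hle : v.asIdeal.primeCompl ≤ nonZeroDivisors (𝓞 K) := v.asIdeal.primeCompl_le_nonZeroDivisors
  let A := Localization.subalgebra.ofField K v.asIdeal.primeCompl hle
  have hloc : IsLocalization.AtPrime A v.asIdeal :=
    Localization.subalgebra.isLocalization_ofField K v.asIdeal.primeCompl hle
  have hdvr : IsDiscreteValuationRing A :=
    IsLocalization.AtPrime.isDiscreteValuationRing_of_dedekind_domain (𝓞 K) v.ne_bot A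
  have hfr : IsFractionRing A K := inferInstance
  have hunit : ∀ c : 𝓞 K, c ∉ v.asIdeal → IsUnit (algebraMap (𝓞 K) A c) := fun c hc =>
    (IsLocalization.AtPrime.isUnit_to_map_iff A v.asIdeal c).2 hc
  let e : (𝓞 K ⧸ v.asIdeal) ≃+* IsLocalRing.ResidueField A :=
    IsLocalization.AtPrime.equivQuotMaximalIdeal v.asIdeal A
  have hcomp : (IsLocalRing.residue A).comp (algebraMap (𝓞 K) A) =
      (e : (𝓞 K ⧸ v.asIdeal) →+* IsLocalRing.ResidueField A).comp
        (Ideal.Quotient.mk v.asIdeal) := by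
    ext c
    rfl
  have hcompK : (algebraMap A K).comp (algebraMap (𝓞 K) A) = algebraMap (𝓞 K) K := by
    ext c
    rfl
  have hfin : Finite (IsLocalRing.ResidueField A) := by
    have h1 : Finite (𝓞 K ⧸ v.asIdeal) := Ideal.finiteQuotientOfFreeOfNeBot _ v.ne_bot
    exact Finite.of_equiv _ e.toEquiv
  have hlcA0 : algebraMap (𝓞 K) A g.leadingCoeff ≠ 0 := (hunit _ hlc).ne_zero
  have hexp : expand A n (g.map (algebraMap (𝓞 K) A)) =
      (expand (𝓞 K) n g).map (algebraMap (𝓞 K) A) := (map_expand).symm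
  have hmapres : ((expand (𝓞 K) n g).map (algebraMap (𝓞 K) A)).map (IsLocalRing.residue A) =
      ((expand (𝓞 K) n g).map (Ideal.Quotient.mk v.asIdeal)).map
        (e : (𝓞 K ⧸ v.asIdeal) →+* IsLocalRing.ResidueField A) := by
    rw [Polynomial.map_map, hcomp, ← Polynomial.map_map]
  refine ⟨A, inferInstance, inferInstance, hdvr, inferInstance, hfin, hfr, ?_,
    ⟨g.map (algebraMap (𝓞 K) A), ?_, ?_, ?_, ?_⟩, ?_, ?_⟩
  · have h3 := hunit ℓ hℓ
    rwa [map_natCast] at h3
  · rw [Polynomial.map_map, hcompK]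
  · rw [natDegree_expand, natDegree_expand, natDegree_map_of_leadingCoeff_ne_zero _ hlcA0]
  · rw [leadingCoeff_map_of_leadingCoeff_ne_zero _ hlcA0]
    exact hunit _ hlc
  · rw [hexp, hmapres]
    exact hs.map
  · obtain ⟨ϖ, hϖ⟩ := IsDiscreteValuationRing.exists_irreducible A
    have hpow : ∀ m : ℕ, b ∈ v.asIdeal ^ m ↔ algebraMap (𝓞 K) A b ∈
        IsLocalRing.maximalIdeal A ^ m := by
      intro m
      rw [← IsLocalization.AtPrime.under_maximalIdeal_pow v.asIdeal A]
      rfl
    have hb0 : algebraMap (𝓞 K) A b ≠ 0 := by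
      intro h
      apply hb'
      rw [hpow, h]
      exact zero_mem _
    obtain ⟨j, u, hj⟩ := IsDiscreteValuationRing.eq_unit_mul_pow_irreducible hb0 hϖ
    have hdvd : ∀ m : ℕ, b ∈ v.asIdeal ^ m ↔ m ≤ j := by
      intro m
      rw [hpow, hϖ.maximalIdeal_eq, Ideal.span_singleton_pow, Ideal.mem_span_singleton, hj,
        (Units.isUnit u).dvd_mul_left, pow_dvd_pow_iff hϖ.ne_zero hϖ.not_isUnit]
    have hjn : j = r := by
      rw [hdvd] at hb hb'
      omega
    refine ⟨ϖ, u, hϖ, u.isUnit, ?_⟩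
    rw [← hcompK, RingHom.comp_apply, hj, map_mul, map_pow, hjn, zpow_natCast]
  · intro κ _ _ V hV
    set i : 𝓞 K →+* κ := (algebraMap K κ).comp (algebraMap (𝓞 K) K) with hi
    have hint : ∀ c : 𝓞 K, i c ∈ V := by
      intro c
      have h1 : IsIntegral ℤ c := RingOfIntegers.isIntegral c
      have h2 : IsIntegral ℤ (i c) := h1.map (i.toIntAlgHom)
      have h3 : IsIntegral V (i c) := h2.tower_top
      obtain ⟨y, hy⟩ := IsIntegrallyClosed.isIntegral_iff.1 h3
      rw [← hy]
      exact y.2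
    have hU : ∀ c : 𝓞 K, c ∉ v.asIdeal → IsU V (i c) := by
      intro c hc
      refine isU_of_not_nonunit (hint c) fun hnn => ?_
      obtain ⟨c', hc'⟩ := Ideal.Quotient.maximal_ideal_iff_isField_quotient v.asIdeal |>.1 hvm
        |>.mul_inv_cancel (a := Ideal.Quotient.mk v.asIdeal c) (by
          rw [Ne, Ideal.Quotient.eq_zero_iff_mem]; exact hc)
      obtain ⟨c', rfl⟩ := Ideal.Quotient.mk_surjective c'
      rw [← map_mul, ← map_one (Ideal.Quotient.mk v.asIdeal), Ideal.Quotient.eq] at hc'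
      have h1 := hV _ hc'
      have h2 : algebraMap K κ (algebraMap (𝓞 K) K (c * c' - 1)) = i c' * i c - 1 := by
        change i (c * c' - 1) = _
        rw [map_sub, map_mul, map_one, mul_comm]
      rw [h2] at h1
      have h3 : (1 : κ) ∈ V.nonunits := by
        have h4 : (1 : κ) = i c' * i c - (i c' * i c - 1) := by ring
        rw [h4]
        exact non_sub (non_mul (hint c') hnn) h1
      exact isU_one.not_nonunit h3
    have hfrac : ∀ a : A, ∃ c d : 𝓞 K, d ∉ v.asIdeal ∧ a * algebraMap (𝓞 K) A d =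
        algebraMap (𝓞 K) A c := by
      intro a
      obtain ⟨⟨c, d⟩, h⟩ := IsLocalization.surj (M := v.asIdeal.primeCompl) a
      exact ⟨c, d, d.2, h⟩
    have himg : ∀ (a : A) (c d : 𝓞 K), d ∉ v.asIdeal → a * algebraMap (𝓞 K) A d =
        algebraMap (𝓞 K) A c → algebraMap K κ (algebraMap A K a) = (i d)⁻¹ * i c := by
      intro a c d hd h
      have h1 := congrArg (fun z => algebraMap K κ (algebraMap A K z)) h
      simp only [map_mul] at h1
      have h2 : ∀ c : 𝓞 K, algebraMap K κ (algebraMap A K (algebraMap (𝓞 K) A c)) = i c := fun c =>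
        rfl
      rw [h2, h2] at h1
      rw [← h1, mul_comm, mul_assoc, mul_inv_cancel₀ (hU d hd).1, mul_one]
    constructor
    · intro a
      obtain ⟨c, d, hd, h⟩ := hfrac a
      rw [himg a c d hd h]
      exact mul_mem (hU d hd).2.2 (hint c)
    · intro a ha
      obtain ⟨c, d, hd, h⟩ := hfrac a
      rw [himg a c d hd h]
      refine non_mul (hU d hd).2.2 ?_
      have h1 : algebraMap (𝓞 K) A c ∈ IsLocalRing.maximalIdeal A := by
        rw [← h]
        exact Ideal.mul_mem_right _ _ ha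
      have h2 : c ∈ v.asIdeal := by
        by_contra hc
        exact (IsLocalRing.mem_maximalIdeal _).1 h1 (hunit c hc)
      exact hV c h2

end Pool.Agent.R925.L
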