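import Pool.Agent.R925.L.Loc3
import Pool.Agent.Y157.PS.Padic
import Pool.Agent.Y157.PS.Ind2

/-! Twists by rotations: sections over complete fields. -/

set_option autoImplicit false
set_option linter.all false

open Polynomial FF

namespace Pool.Agent.R925.L

open Pool.Agent.Y157.PS Pool.Agent.Y31.PS Pool.Agent.R925.Q Pool.Agent.R925.X

theorem root_exists {κ : Type} [Field κ] [IsAlgClosed κ] {n : ℕ} (hn : 0 < n) {c : κ}
    (hc : c ≠ 0) : ∃ z : κ, z ≠ 0 ∧ z ^ n = c := by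
  obtain ⟨z, hz⟩ := IsAlgClosed.exists_pow_nat_eq c hn
  refine ⟨z, ?_, hz⟩
  rintro rfl
  rw [zero_pow hn.ne'] at hz
  exact hc hz.symm

section main

variable {A k F Ω : Type} [CommRing A] [IsDomain A] [IsDiscreteValuationRing A]
    [Finite (IsLocalRing.ResidueField A)] [Field k] [CharZero k] [Algebra A k] [IsFractionRing A k]
    [Field F] [Field Ω] [Algebra k F] [Algebra F Ω] [Algebra k Ω] [IsScalarTower k F Ω]
    [IsAlgClosed Ω] [Algebra.IsAlgebraic F Ω]

/-- the statement at a valuation ring of the algebraic closure -/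
theorem geoL (V : ValuationSubring (algebraicClosure k Ω))
    (hVA : ∀ a : A, algebraMap k (algebraicClosure k Ω) (algebraMap A k a) ∈ V)
    (hVm : ∀ a ∈ IsLocalRing.maximalIdeal A,
      algebraMap k (algebraicClosure k Ω) (algebraMap A k a) ∈ V.nonunits)
    {ℓ : ℕ} [Fact ℓ.Prime] (hℓ : IsUnit (ℓ : A)) {j : ℕ} (hj : 1 ≤ j) (g : A[X])
    (hlc : IsUnit g.leadingCoeff)
    (hs : ((expand A (ℓ ^ j) g).map (IsLocalRing.residue A)).Separable)
    (h3 : 3 ≤ (expand A (ℓ ^ j) g).natDegree)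
    (ϖ : A) (hϖ : Irreducible ϖ) (a d : k) (α : ℤ) (hα : ¬ ((ℓ ^ j : ℕ) : ℤ) ∣ α) (t : A)
    (ht : IsUnit t) (ha : a = algebraMap A k t * algebraMap A k ϖ ^ α) (hd0 : d ≠ 0)
    (x y : F) (hx : Transcendental k x)
    (hxy : algebraMap k F d * y ^ ℓ = aeval (algebraMap k F a * x ^ (ℓ ^ j)) (g.map (algebraMap A k)))
    (hF : IntermediateField.adjoin k {x, y} = (⊤ : IntermediateField k F))
    (S : (algebraicClosure k Ω ≃ₐ[k] algebraicClosure k Ω) →*
      (geomPro ℓ k F Ω ≃ₐ[F] geomPro ℓ k F Ω)) (hcont : Continuous S)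
    (hcompat : ∀ σ (c : algebraicClosure k Ω) (z : geomPro ℓ k F Ω), (z : Ω) = (c : Ω) →
      (S σ z : Ω) = (σ c : Ω)) :
    ∃ W : ValuationSubring (geomPro ℓ k F Ω),
      ((∀ c : k, algebraMap F (geomPro ℓ k F Ω) (algebraMap k F c) ∈ W) ∧
       (∀ z ∈ W, ∃ c : algebraicClosure k Ω, ∃ z' ∈ W.nonunits, (z' : Ω) = (z : Ω) - c) ∧
       (algebraMap F (geomPro ℓ k F Ω) x ∈ W.nonunits ∨
         algebraMap F (geomPro ℓ k F Ω) x⁻¹ ∈ W.nonunits) ∧
       ∀ σ, Dec V σ → ∀ z, S σ z ∈ W ↔ z ∈ W) ∧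
      ∀ W' : ValuationSubring (geomPro ℓ k F Ω),
        (∀ c : k, algebraMap F (geomPro ℓ k F Ω) (algebraMap k F c) ∈ W') →
        (algebraMap F (geomPro ℓ k F Ω) x ∈ W'.nonunits ∨
          algebraMap F (geomPro ℓ k F Ω) x⁻¹ ∈ W'.nonunits ∨
          algebraMap F (geomPro ℓ k F Ω) (aeval (algebraMap k F a * x ^ (ℓ ^ j))
            (g.map (algebraMap A k))) ∈ W'.nonunits) →
        (∀ σ, Dec V σ → ∀ z, S σ z ∈ W' ↔ z ∈ W') → W' = W := by
  have hℓp : ℓ.Prime := Fact.out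
  have hac : IsAlgClosure k (algebraicClosure k Ω) := inferInstance
  have hkb : IsAlgClosed (algebraicClosure k Ω) := hac.1
  letI : Algebra A (algebraicClosure k Ω) :=
    ((algebraMap k (algebraicClosure k Ω)).comp (algebraMap A k)).toAlgebra
  haveI hst : IsScalarTower A k (algebraicClosure k Ω) :=
    IsScalarTower.of_algebraMap_eq (fun _ => rfl)
  have hVa : ∀ a : A, algebraMap A (algebraicClosure k Ω) a ∈ V := hVA
  have hVm' : ∀ a ∈ IsLocalRing.maximalIdeal A, algebraMap A (algebraicClosure k Ω) a ∈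
    V.nonunits := hVm
  have hinj := IsFractionRing.injective A k
  have hm : 0 < ℓ ^ j := pow_pos hℓp.pos j
  have hlck : (g.map (algebraMap A k)).leadingCoeff = algebraMap A k g.leadingCoeff :=
    leadingCoeff_map_of_injective hinj g
  have hlc0 : algebraMap A k g.leadingCoeff ≠ 0 := by
    rw [Ne, map_eq_zero_iff _ hinj]
    exact hlc.ne_zero
  have ha0 : a ≠ 0 := by
    rw [ha]
    refine mul_ne_zero ?_ (zpow_ne_zero _ ?_)
    · rw [Ne, map_eq_zero_iff _ hinj]
      exact ht.ne_zero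
    · rw [Ne, map_eq_zero_iff _ hinj]
      exact hϖ.ne_zero
  have hlce : IsUnit (expand A (ℓ ^ j) g).leadingCoeff := by
    rw [leadingCoeff_expand hm]
    exact hlc
  have hexp : expand k (ℓ ^ j) (g.map (algebraMap A k)) =
      (expand A (ℓ ^ j) g).map (algebraMap A k) := (map_expand).symm
  have hsep : (expand k (ℓ ^ j) (g.map (algebraMap A k))).Separable := by
    rw [hexp]
    exact key_sep V hVa hVm' _ hlce hs
  have hdeg : 3 ≤ (expand k (ℓ ^ j) (g.map (algebraMap A k))).natDegree := by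
    rw [hexp, natDegree_map_eq_of_injective hinj]
    exact h3
  obtain ⟨ρ, hρ0, hρ⟩ := root_exists hm (c := algebraMap k (algebraicClosure k Ω) a)
    ((_root_.map_ne_zero _).2 ha0)
  obtain ⟨δ, hδ0, hδ⟩ := root_exists hℓp.pos (c := algebraMap k (algebraicClosure k Ω)
    (d / (g.map (algebraMap A k)).leadingCoeff))
    ((_root_.map_ne_zero _).2 (div_ne_zero hd0 (by rw [hlck]; exact hlc0)))
  exact geoR hm (g.map (algebraMap A k)) (dvd_pow_self ℓ (by omega)) hsep hdeg a d hρ0 hδ0 hρ hδ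
    (key_loc V hVa hVm' hℓ hj g hlc hs ϖ hϖ a d α hα t ht ha hd0 hρ hδ) x y hx hxy hF S hcont
    hcompat

theorem padicR [IsAdicComplete (IsLocalRing.maximalIdeal A) A]
    {ℓ : ℕ} [Fact ℓ.Prime] (hℓ : IsUnit (ℓ : A)) {j : ℕ} (hj : 1 ≤ j) (g : A[X])
    (hlc : IsUnit g.leadingCoeff)
    (hs : ((expand A (ℓ ^ j) g).map (IsLocalRing.residue A)).Separable)
    (h3 : 3 ≤ (expand A (ℓ ^ j) g).natDegree)
    (ϖ : A) (hϖ : Irreducible ϖ) (a d : k) (α : ℤ) (hα : ¬ ((ℓ ^ j : ℕ) : ℤ) ∣ α) (t : A)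
    (ht : IsUnit t) (ha : a = algebraMap A k t * algebraMap A k ϖ ^ α) (hd0 : d ≠ 0)
    (x y : F) (hx : Transcendental k x)
    (hxy : algebraMap k F d * y ^ ℓ = aeval (algebraMap k F a * x ^ (ℓ ^ j)) (g.map (algebraMap A k)))
    (hF : IntermediateField.adjoin k {x, y} = (⊤ : IntermediateField k F))
    (S : (algebraicClosure k Ω ≃ₐ[k] algebraicClosure k Ω) →*
      (geomPro ℓ k F Ω ≃ₐ[F] geomPro ℓ k F Ω)) (hcont : Continuous S)
    (hcompat : ∀ σ (c : algebraicClosure k Ω) (z : geomPro ℓ k F Ω), (z : Ω) = (c : Ω) →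
      (S σ z : Ω) = (σ c : Ω)) :
    ∃ W : ValuationSubring (geomPro ℓ k F Ω),
      ((∀ c : k, algebraMap F (geomPro ℓ k F Ω) (algebraMap k F c) ∈ W) ∧
       (algebraMap F (geomPro ℓ k F Ω) x ∈ W.nonunits ∨
         algebraMap F (geomPro ℓ k F Ω) x⁻¹ ∈ W.nonunits) ∧
       (∀ z : F, algebraMap F (geomPro ℓ k F Ω) z ∈ W →
          ∃ c : k, algebraMap F (geomPro ℓ k F Ω) (z - algebraMap k F c) ∈ W.nonunits) ∧
       ∀ σ z, S σ z ∈ W ↔ z ∈ W) ∧
      ∀ W' : ValuationSubring (geomPro ℓ k F Ω),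
        (∀ c : k, algebraMap F (geomPro ℓ k F Ω) (algebraMap k F c) ∈ W') →
        (algebraMap F (geomPro ℓ k F Ω) x ∈ W'.nonunits ∨
          algebraMap F (geomPro ℓ k F Ω) x⁻¹ ∈ W'.nonunits ∨
          algebraMap F (geomPro ℓ k F Ω) (aeval (algebraMap k F a * x ^ (ℓ ^ j))
            (g.map (algebraMap A k))) ∈ W'.nonunits) →
        (∀ σ z, S σ z ∈ W' ↔ z ∈ W') → W' = W := by
  have hac : IsAlgClosure k (algebraicClosure k Ω) := inferInstance
  have : Normal k (algebraicClosure k Ω) := IsAlgClosure.normal k _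
  have hGal : IsGalois k (algebraicClosure k Ω) := ⟨⟩
  letI : Algebra A (algebraicClosure k Ω) :=
    ((algebraMap k (algebraicClosure k Ω)).comp (algebraMap A k)).toAlgebra
  haveI hst : IsScalarTower A k (algebraicClosure k Ω) :=
    IsScalarTower.of_algebraMap_eq (fun _ => rfl)
  obtain ⟨V, hV⟩ := Pool.Agent.Y809.PS.val A k (algebraicClosure k Ω)
  have hVa : ∀ a : A, algebraMap A (algebraicClosure k Ω) a ∈ V := fun a =>
    (hV _).2 isIntegral_algebraMap
  have hVm : ∀ a ∈ IsLocalRing.maximalIdeal A, algebraMap A (algebraicClosure k Ω) a ∈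
      V.nonunits := by
    intro a ha
    refine nonunits_iff.2 ⟨hVa a, ?_⟩
    by_cases ha0 : a = 0
    · left
      rw [ha0, map_zero]
    right
    intro hi
    rw [hV, IsScalarTower.algebraMap_apply A k (algebraicClosure k Ω), ← map_inv₀,
      isIntegral_algebraMap_iff (algebraMap k (algebraicClosure k Ω)).injective] at hi
    obtain ⟨b, hb⟩ := IsIntegrallyClosed.isIntegral_iff.1 hi
    have h1 : a * b = 1 := by
      apply IsFractionRing.injective A k
      rw [map_mul, hb, map_one, mul_inv_cancel₀]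
      rw [Ne, map_eq_zero_iff _ (IsFractionRing.injective A k)]
      exact ha0
    exact (IsLocalRing.mem_maximalIdeal _).1 ha (IsUnit.of_mul_eq_one b h1)
  have hdec : ∀ σ : algebraicClosure k Ω ≃ₐ[k] algebraicClosure k Ω, Dec V σ := by
    intro σ z
    rw [hV, hV]
    have h1 : ∀ (τ : algebraicClosure k Ω ≃ₐ[k] algebraicClosure k Ω) (w : algebraicClosure k Ω),
        IsIntegral A w → IsIntegral A (τ w) := fun τ w hw =>
      hw.map (τ.toAlgHom.restrictScalars A)
    refine ⟨fun h => ?_, h1 σ z⟩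
    have h2 := h1 σ.symm _ h
    rwa [σ.symm_apply_apply] at h2
  obtain ⟨W, ⟨h1, h2, h3', h4⟩, hun⟩ :=
    geoL V hVa hVm hℓ hj g hlc hs h3 ϖ hϖ a d α hα t ht ha hd0 x y hx hxy hF S
      hcont hcompat
  have hrat : ∀ c : algebraicClosure k Ω, (∀ σ : algebraicClosure k Ω ≃ₐ[k]
      algebraicClosure k Ω, σ c = c) → ∃ c' : k, algebraMap k (algebraicClosure k Ω) c' = c := by
    intro c hc
    have h5 := (InfiniteGalois.mem_bot_iff_fixed c).2 hc
    exact IntermediateField.mem_bot.1 h5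
  refine ⟨W, ⟨h1, h3', ?_, fun σ z => h4 σ (hdec σ) z⟩, fun W' hW'1 hW'2 hW'3 =>
    hun W' hW'1 hW'2 fun σ _ z => hW'3 σ z⟩
  · intro z hz
    obtain ⟨c, w, hw, hwc⟩ := h2 _ hz
    obtain ⟨c', rfl⟩ := hrat c fun σ => res_fixed _ W h1 σ (S σ) (h4 σ (hdec σ))
      (fun c z hz => hcompat σ c z hz) z c w hw hwc
    refine ⟨c', ?_⟩
    have h5 : algebraMap F (geomPro ℓ k F Ω) (z - algebraMap k F c') = w := by
      apply Subtype.ext
      rw [hwc]
      change algebraMap F Ω (z - algebraMap k F c') = _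
      rw [map_sub, ← IsScalarTower.algebraMap_apply]
      rfl
    rw [h5]
    exact hw

/-- `F` is algebraic over `k(x)` -/
theorem alg_eqn {k F : Type} [Field k] [Field F] [Algebra k F] {ℓ m : ℕ} (hℓ : 0 < ℓ) (g : k[X])
    (a d : k) (hd : d ≠ 0) (x y : F)
    (hxy : algebraMap k F d * y ^ ℓ = aeval (algebraMap k F a * x ^ m) g)
    (hF : IntermediateField.adjoin k {x, y} = (⊤ : IntermediateField k F)) :
    Algebra.IsAlgebraic (IntermediateField.adjoin k {x}) F := by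
  refine alg_of_eqn hℓ (g.comp (C a * X ^ m)) d hd x y ?_ hF
  rw [hxy, aeval_comp]
  congr 1
  rw [map_mul, aeval_C, map_pow, aeval_X]

end main

end Pool.Agent.R925.L
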