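import Pool.Agent.R925.L.Dvr
import Pool.Agent.R925.L.Gau
import Pool.Agent.Y157.GT.All

/-! The inertia group and radicals of elements of the ground field; the weight argument. -/

set_option autoImplicit false
set_option linter.all false

open Polynomial FF

namespace Pool.Agent.R925.L

open Pool.Agent.Y157.PS Pool.Agent.Y157.GT Pool.Agent.Y31.PS Pool.Agent.R925.Q Pool.Agent.R925.X

section inertia

variable {k κ : Type} [Field k] [Field κ] [Algebra k κ] {V : ValuationSubring κ}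

theorem isU_natpow {n : ℕ} (h : IsU V (n : κ)) (j : ℕ) : IsU V ((n ^ j : ℕ) : κ) := by
  rw [Nat.cast_pow]
  induction j with
  | zero => rw [pow_zero]; exact isU_one
  | succ j ih => rw [pow_succ]; exact ih.mul h

theorem isU_pow {u : κ} (h : IsU V u) (n : ℕ) : IsU V (u ^ n) := by
  induction n with
  | zero => rw [pow_zero]; exact isU_one
  | succ n ih => rw [pow_succ]; exact ih.mul h

theorem isU_zpow {u : κ} (h : IsU V u) (n : ℤ) : IsU V (u ^ n) := by
  rcases n with n | n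
  · rw [Int.ofNat_eq_natCast, zpow_natCast]; exact isU_pow h n
  · rw [zpow_negSucc]; exact (isU_pow h _).inv

/-- inertia elements fix the roots of unity of order `m` -/
theorem ine_root {m : ℕ} (hm : 0 < m) (hmU : IsU V (m : κ)) {σ : κ ≃ₐ[k] κ} (h : Ine V σ) {ζ : κ}
    (hζ : ζ ^ m = 1) : σ ζ = ζ := by
  refine root_eq hmU hm (by rw [← map_pow, hζ, map_one]) hζ ?_
  exact h.2 ζ (isU_root hm hζ).2.1

/-- inertia elements fix the radicals which are units -/
theorem ine_unit {m : ℕ} (hm : 0 < m) (hmU : IsU V (m : κ)) {σ : κ ≃ₐ[k] κ} (h : Ine V σ) {u : κ}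
    (hu : IsU V u) (hk : ∃ a : k, u ^ m = algebraMap k κ a) : σ u = u := by
  obtain ⟨a, ha⟩ := hk
  have h1 : (σ u / u) ^ m = 1 := by
    rw [div_pow, ← map_pow, ha, σ.commutes, ← ha, div_self (pow_ne_zero _ hu.1)]
  have h2 : σ u / u = 1 := by
    refine root_eq hmU hm h1 (one_pow _) ?_
    have h3 := h.2 u hu.2.1
    have h4 : σ u - u = u * (σ u / u - 1) := by
      rw [mul_sub, mul_one, mul_div_cancel₀ _ hu.1]
    rw [h4] at h3
    exact non_of_isU_mul hu h3
  rwa [div_eq_one_iff_eq hu.1] at h2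

/-- the action on a radical -/
theorem ine_rad {m : ℕ} (hm : 0 < m) (hmU : IsU V (m : κ)) {σ : κ ≃ₐ[k] κ} (h : Ine V σ)
    {Θ ρ : κ} {α : ℤ} (hΘ : Θ ≠ 0) (hu : IsU V (ρ / Θ ^ α))
    (hk : ∃ a : k, (ρ / Θ ^ α) ^ m = algebraMap k κ a) : σ ρ / ρ = (σ Θ / Θ) ^ α := by
  have h1 := ine_unit hm hmU h hu hk
  have hρ : ρ ≠ 0 := by
    rintro rfl
    rw [zero_div] at hu
    exact hu.1 rfl
  rw [map_div₀, map_zpow₀] at h1
  have hσΘ : σ Θ ≠ 0 := (_root_.map_ne_zero σ).2 hΘ
  have h2 : (σ Θ) ^ α ≠ 0 := zpow_ne_zero _ hσΘ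
  have h3 : Θ ^ α ≠ 0 := zpow_ne_zero _ hΘ
  rw [div_eq_div_iff h2 h3] at h1
  rw [div_zpow, div_eq_div_iff hρ h3, h1]
  ring

end inertia

section tame

variable {A k κ : Type} [CommRing A] [IsDomain A]
    [IsDiscreteValuationRing A] [Field k] [Field κ] [Algebra A k] [Algebra k κ] [Algebra A κ]
    [IsScalarTower A k κ] [IsFractionRing A k] [CharZero k] [IsAlgClosure k κ]
    [Finite (IsLocalRing.ResidueField A)]

theorem isU_of_unit {V : ValuationSubring κ} (hVA : ∀ a : A, algebraMap A κ a ∈ V) {t : A}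
    (ht : IsUnit t) : IsU V (algebraMap A κ t) := by
  obtain ⟨u, rfl⟩ := ht
  have h1 : algebraMap A κ (u : A) * algebraMap A κ ((u⁻¹ : Aˣ) : A) = 1 := by
    rw [← map_mul, Units.mul_inv, map_one]
  refine ⟨left_ne_zero_of_mul_eq_one h1, hVA _, ?_⟩
  rw [inv_eq_of_mul_eq_one_right h1]
  exact hVA _

/-- a generator of the tame inertia group modulo `ℓ ^ j` -/
theorem exists_tame {ℓ : ℕ} [Fact ℓ.Prime] {V : ValuationSubring κ} (hl : IsUnit (ℓ : A))
    (hVA : ∀ a : A, algebraMap A κ a ∈ V)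
    (hVn : ∀ a ∈ IsLocalRing.maximalIdeal A, algebraMap A κ a ∈ V.nonunits) {ϖ : A}
    (hϖ : Irreducible ϖ) {j : ℕ} (hj : 1 ≤ j) {Θ : κ} (hΘ : Θ ^ (ℓ ^ j) = algebraMap A κ ϖ) :
    ∃ τ : κ ≃ₐ[k] κ, Ine V τ ∧ IsPrimitiveRoot (τ Θ / Θ) (ℓ ^ j) ∧
      ∀ σ : κ ≃ₐ[k] κ, Ine V σ → ∃ a : ℕ, (τ⁻¹ ^ a * σ) Θ = Θ := by
  have hp := (Fact.out : ℓ.Prime).pos
  have hℓU : IsU V (ℓ : κ) := by
    have h1 := isU_of_unit (V := V) hVA hl
    rwa [map_natCast] at h1
  have hmU : IsU V ((ℓ ^ j : ℕ) : κ) := isU_natpow hℓU j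
  have hm : 0 < ℓ ^ j := pow_pos hp j
  have hinj : Function.Injective (algebraMap A κ) := by
    rw [IsScalarTower.algebraMap_eq A k κ]
    exact (algebraMap k κ).injective.comp (IsFractionRing.injective A k)
  have hϖ0 : algebraMap A κ ϖ ≠ 0 := by
    intro h
    exact hϖ.ne_zero (hinj (by rw [h, map_zero]))
  have hΘ0 : Θ ≠ 0 := by
    rintro rfl
    rw [zero_pow hm.ne'] at hΘ
    exact hϖ0 hΘ.symm
  set θ : κ := Θ ^ (ℓ ^ (j - 1)) with hθ
  have hθℓ : θ ^ ℓ = algebraMap A κ ϖ := by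
    rw [hθ, ← pow_mul, ← pow_succ, Nat.sub_add_cancel hj, hΘ]
  have hB : Base ℓ A k κ V ϖ θ 1 := by
    refine ⟨hl, hVA, hVn, hϖ, ?_, ⟨algebraMap A k ϖ, ?_⟩, ?_⟩
    · intro h
      have h1 := Int.natAbs_dvd_natAbs.2 h
      simp only [Int.natAbs_natCast, Int.natAbs_one, Nat.dvd_one] at h1
      exact (Fact.out : ℓ.Prime).one_lt.ne' h1
    · rw [hθℓ, IsScalarTower.algebraMap_apply A k κ]
    · rw [hθℓ, zpow_one, div_self hϖ0]; exact isU_one
  obtain ⟨-, τ, hτ, hτθ, -, -⟩ := a_tau ℓ A k κ V ϖ θ 1 hB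
  have hrt : ∀ σ : κ ≃ₐ[k] κ, (σ Θ / Θ) ^ (ℓ ^ j) = 1 := by
    intro σ
    rw [div_pow, ← map_pow, hΘ, IsScalarTower.algebraMap_apply A k κ, σ.commutes,
      ← IsScalarTower.algebraMap_apply A k κ, div_self hϖ0]
  have hprim : IsPrimitiveRoot (τ Θ / Θ) (ℓ ^ j) := by
    obtain ⟨j', rfl⟩ : ∃ j', j = j' + 1 := ⟨j - 1, by omega⟩
    rw [← orderOf_eq_prime_pow (p := ℓ) (n := j') ?_ (hrt τ)]
    · exact IsPrimitiveRoot.orderOf _
    · intro h
      apply hτθ
      rw [div_pow, div_eq_one_iff_eq (pow_ne_zero _ hΘ0), ← map_pow] at h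
      rw [hθ]
      simpa using h
  refine ⟨τ, hτ, hprim, fun σ hσ => ?_⟩
  obtain ⟨a, -, ha⟩ := hprim.eq_pow_of_pow_eq_one (hrt σ)
  have hτfix : τ (τ Θ / Θ) = τ Θ / Θ := ine_root hm hmU hτ (hrt τ)
  have hτi : ∀ n : ℕ, (τ ^ n) Θ = (τ Θ / Θ) ^ n * Θ := by
    intro n
    induction n with
    | zero => rw [pow_zero, pow_zero, one_mul]; rfl
    | succ n ih =>
      rw [pow_succ', AlgEquiv.mul_apply, ih, map_mul, map_pow, hτfix, pow_succ, mul_assoc,
        div_mul_cancel₀ _ hΘ0]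
  refine ⟨a, ?_⟩
  have h1 : σ Θ = (τ ^ a) Θ := by
    rw [hτi, ha, div_mul_cancel₀ _ hΘ0]
  rw [AlgEquiv.mul_apply, h1, inv_pow]
  exact (τ ^ a).symm_apply_apply Θ

end tame

/-- a semilinear action which multiplies `x` by `σ(ρ)/ρ` and `Y` by `σ(δ)/δ` -/
structure Sec2 (k κ R M : Type) [Field k] [Field κ] [Field R] [Field M] [Algebra k κ] [Algebra κ R]
    [Algebra R M] [Algebra κ M] (x : R) (Y : M) (ρ δ : κ)
    (s : (κ ≃ₐ[k] κ) →* RingAut M) : Prop where
  const : ∀ σ c, s σ (algebraMap κ M c) = algebraMap κ M (σ c)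
  fixx : ∀ σ, s σ (algebraMap R M x) = algebraMap κ M (σ ρ / ρ) * algebraMap R M x
  fixy : ∀ σ, s σ Y = algebraMap κ M (σ δ / δ) * Y
  cont : ∀ z : M, ∃ E : IntermediateField k κ, FiniteDimensional k E ∧
    ∀ σ ∈ E.fixingSubgroup, s σ z = z

section weight

variable {A k κ : Type} [CommRing A] [IsDomain A]
    [IsDiscreteValuationRing A] [Field k] [Field κ] [Algebra A k] [Algebra k κ] [Algebra A κ]
    [IsScalarTower A k κ] [IsFractionRing A k] [CharZero k] [IsAlgClosure k κ]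
    [Finite (IsLocalRing.ResidueField A)] {R M : Type} [Field R] [Field M] [Algebra κ R]
    [Algebra R M] [Algebra κ M] [IsScalarTower κ R M]

/-- the weight argument: `s(σ)` acts trivially on the residue field for all `σ` in the inertia group
which fix `ρ` and `δ` -/
theorem wgt2 {ℓ : ℕ} [Fact ℓ.Prime] {V : ValuationSubring κ} (hl : IsUnit (ℓ : A))
    (hVA : ∀ a : A, algebraMap A κ a ∈ V)
    (hVn : ∀ a ∈ IsLocalRing.maximalIdeal A, algebraMap A κ a ∈ V.nonunits)
    {x : R} {B : Finset κ} {Y : M} (hC : Cov ℓ κ R M x B Y) (hG : Good V B)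
    {F : Type} [Field F] {r : V →+* F} (hr : Res V r) (D : Disc ℓ V r) {ρ δ : κ} (hρ : ρ ≠ 0)
    (hδ : δ ≠ 0)
    {s : (κ ≃ₐ[k] κ) →* RingAut M} (hs : Sec2 k κ R M x Y ρ δ s)
    {O : ValuationSubring M} (hO : Gauss V (algebraMap R M x) O)
    (hun : ∀ O' : ValuationSubring M, Gauss V (algebraMap R M x) O' → O' = O)
    {σ : κ ≃ₐ[k] κ} (hσ : Ine V σ) (hσρ : σ ρ = ρ) (hσδ : σ δ = δ) {z : M} (hz : z ∈ O) :
    s σ z - z ∈ O.nonunits := by
  have hac : IsAlgClosed κ := IsAlgClosure.isAlgClosed k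
  have halg : Algebra.IsAlgebraic k κ := IsAlgClosure.isAlgebraic
  let E : IntermediateField k κ := IntermediateField.adjoin k {ρ, δ}
  haveI hE : FiniteDimensional k E :=
    IntermediateField.finiteDimensional_adjoin fun z _ => (Algebra.IsIntegral.isIntegral z)
  have hρE : ρ ∈ E := IntermediateField.subset_adjoin k _ (by simp)
  have hδE : δ ∈ E := IntermediateField.subset_adjoin k _ (by simp)
  have hσE : σ ∈ E.fixingSubgroup := by
    rw [IntermediateField.mem_fixingSubgroup_iff]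
    intro c hc
    induction hc using IntermediateField.adjoin_induction with
    | mem y hy =>
      rw [Set.mem_insert_iff, Set.mem_singleton_iff] at hy
      rcases hy with rfl | rfl
      · exact hσρ
      · exact hσδ
    | algebraMap c => exact σ.commutes c
    | add a b _ _ ha hb => rw [map_add, ha, hb]
    | inv a _ ha => rw [map_inv₀, ha]
    | mul a b _ _ ha hb => rw [map_mul, ha, hb]
  -- the discrete valuation ring
  let A' : ValuationSubring E := V.comap (algebraMap E κ)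
  letI : Algebra A E := ((algebraMap k E).comp (algebraMap A k)).toAlgebra
  haveI : IsScalarTower A k E := IsScalarTower.of_algebraMap_eq fun _ => rfl
  have hAE : ∀ a : A, algebraMap E κ (algebraMap A E a) = algebraMap A κ a := by
    intro a
    rw [IsScalarTower.algebraMap_apply A k κ]
    rfl
  have hnon : ∀ c : E, c ∈ A'.nonunits ↔ (c : κ) ∈ V.nonunits := by
    intro c
    rw [nonunits_iff, nonunits_iff]
    constructor
    · rintro ⟨h1, h2⟩
      refine ⟨h1, h2.imp (fun h => by rw [h]; rfl) (fun h h3 => h ?_)⟩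
      show ((c⁻¹ : E) : κ) ∈ V
      exact h3
    · rintro ⟨h1, h2⟩
      refine ⟨h1, h2.imp (fun h => Subtype.ext h) (fun h h3 => h ?_)⟩
      exact h3
  obtain ⟨hdvr, hfin⟩ := dvr_ext (A := A) (k := k) A' (fun a => by
      show algebraMap E κ (algebraMap A E a) ∈ V
      rw [hAE]; exact hVA a) (fun a ha => by
      rw [← ValuationSubring.mem_nonunits_iff, hnon]
      show algebraMap E κ (algebraMap A E a) ∈ _
      rw [hAE]
      exact hVn a ha)
  haveI := hdvr
  haveI := hfin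
  letI : Algebra A' κ := ((algebraMap E κ).comp (algebraMap A' E)).toAlgebra
  haveI : IsScalarTower A' E κ := IsScalarTower.of_algebraMap_eq fun _ => rfl
  haveI : Algebra.IsAlgebraic E κ := Algebra.IsAlgebraic.tower_top (K := k) E
  haveI : IsAlgClosure E κ := ⟨hac, inferInstance⟩
  have hl' : IsUnit (ℓ : A') := by
    obtain ⟨u, hu⟩ := hl
    have h1 : algebraMap A κ (u : A) * algebraMap A κ ((u⁻¹ : Aˣ) : A) = 1 := by
      rw [← map_mul, Units.mul_inv, map_one]
    rw [hu, map_natCast] at h1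
    have h2 : algebraMap A E ((u⁻¹ : Aˣ) : A) ∈ A' := by
      show algebraMap E κ (algebraMap A E _) ∈ V
      rw [hAE]; exact hVA _
    refine IsUnit.of_mul_eq_one (⟨_, h2⟩ : A') (Subtype.ext (Subtype.ext ?_))
    show (((ℓ : A') : E) : κ) * algebraMap E κ (algebraMap A E _) = 1
    rw [hAE, ← h1]
    congr 1
  let s' : (κ ≃ₐ[E] κ) →* RingAut M := s.comp (AlgEquiv.restrictScalarsHom k)
  have hfix : ∀ (τ : κ ≃ₐ[E] κ) (c : κ), c ∈ E → (AlgEquiv.restrictScalarsHom k τ) c = c := by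
    intro τ c hc
    exact τ.commutes ⟨c, hc⟩
  have hs' : Sec E κ R M x Y 1 s' := by
    refine ⟨fun τ c => ?_, fun τ => ?_, fun τ => ?_, fun w => ?_⟩
    · exact hs.const _ c
    · have h1 := hs.fixx (AlgEquiv.restrictScalarsHom k τ)
      rw [hfix τ ρ hρE, div_self hρ, map_one, one_mul] at h1
      exact h1
    · have h1 := hs.fixy (AlgEquiv.restrictScalarsHom k τ)
      rw [hfix τ δ hδE, div_self hδ, map_one, one_mul] at h1
      rw [map_one, div_one, map_one, one_mul]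
      exact h1
    · obtain ⟨E₀, hE₀, h0⟩ := hs.cont w
      have hle : E ≤ E ⊔ E₀ := le_sup_left
      haveI : FiniteDimensional k (E ⊔ E₀ : IntermediateField k κ) :=
        IntermediateField.finiteDimensional_sup E E₀
      haveI : FiniteDimensional k (IntermediateField.extendScalars hle) :=
        inferInstanceAs (FiniteDimensional k (E ⊔ E₀ : IntermediateField k κ))
      refine ⟨IntermediateField.extendScalars hle, FiniteDimensional.right k E _, fun τ hτ => ?_⟩
      refine h0 _ ?_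
      rw [IntermediateField.mem_fixingSubgroup_iff]
      intro c hc
      rw [IntermediateField.mem_fixingSubgroup_iff] at hτ
      exact hτ c ((le_sup_right : E₀ ≤ E ⊔ E₀) hc)
  let σ' : κ ≃ₐ[E] κ := IntermediateField.fixingSubgroupEquiv E ⟨σ, hσE⟩
  have hσ' : ∀ c, σ' c = σ c := fun c => rfl
  have hrs : AlgEquiv.restrictScalarsHom k σ' = σ := by
    ext c; rfl
  have hI : Ine V σ' := by
    refine ⟨fun c => ?_, fun c hc => ?_⟩
    · rw [hσ']; exact hσ.1 c
    · rw [hσ']; exact hσ.2 c hc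
  have hkey := b_wgtg ℓ A' E κ R M V hl' (fun a => a.2) (fun a ha => by
      show algebraMap E κ (a : E) ∈ V.nonunits
      have h1 : (a : E) ∈ A'.nonunits := by
        rw [ValuationSubring.mem_nonunits_iff]
        exact (A'.valuation_lt_one_iff a).1 ha
      exact (hnon _).1 h1) x B Y hC hG F r hr D s' hs' O hO hun σ' hI z hz
  have h2 : s' σ' = s σ := by
    show s (AlgEquiv.restrictScalarsHom k σ') = _
    rw [hrs]
  rwa [h2] at hkey

end weight

end Pool.Agent.R925.L
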